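import Pool.Agent.Helper23.LIN.Defs

/-!
# Project LIN, block AL1: homology and cohomology over a field

`coex_of_ex` (duality over a field): `⟨bd c, d⟩ = ⟨c, cbd d⟩` for the pairing `∑ σ, c σ * d σ`. Let `c` be supported on the
members of `A` with `i` elements, with `cbd c σ = 0` for `σ ∈ A`. The functional `z ↦ ⟨c, z⟩` on the `i`-chains of `A`
vanishes on the boundaries of `(i+1)`-chains, so by `Ex` on the kernel of `bd`, so it factors through `bd` and extends
to a functional `⟨d, ·⟩` (`LinearMap.exists_extend` or the dual annihilator lemmas); restrict `d` to the members of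
`A` with `i - 1` elements.
-/

set_option linter.unusedSectionVars false

namespace Pool.Agent.LIN

open Pool.Agent.LQ Pool.Agent.LQ.T1

variable {V : Type*} [Fintype V] [LinearOrder V] {K : Type*} [Field K]

theorem pairing (c d : Finset V → K) : ∑ σ, bd c σ * d σ = ∑ σ, c σ * cbd d σ := by
  have key : ∀ v : V, ∑ σ, ct v c σ * d σ = ∑ σ, c σ * cn v d σ := by
    intro v
    have h1 : ∑ σ, ct v c σ * d σ =
        ∑ σ ∈ Finset.univ.filter (fun σ : Finset V => v ∉ σ), sg K v σ * c (insert v σ) * d σ := by
      rw [Finset.sum_filter]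
      refine Finset.sum_congr rfl fun σ _ => ?_
      unfold ct
      by_cases h1 : v ∈ σ
      · rw [if_pos h1, if_neg (not_not.2 h1), zero_mul]
      · rw [if_neg h1, if_pos h1]
    have h2 : ∑ σ, c σ * cn v d σ =
        ∑ σ ∈ Finset.univ.filter (fun σ : Finset V => v ∈ σ),
          sg K v (σ.erase v) * c σ * d (σ.erase v) := by
      rw [Finset.sum_filter]
      refine Finset.sum_congr rfl fun σ _ => ?_
      unfold cn
      split_ifs with h1
      · ring
      · ring
    rw [h1, h2]
    refine Finset.sum_nbij' (fun σ => insert v σ) (fun σ => σ.erase v) ?_ ?_ ?_ ?_ ?_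
    · intro σ _
      rw [Finset.mem_filter]
      exact ⟨Finset.mem_univ _, Finset.mem_insert_self v σ⟩
    · intro σ _
      rw [Finset.mem_filter]
      exact ⟨Finset.mem_univ _, Finset.notMem_erase v σ⟩
    · intro σ hσ
      exact Finset.erase_insert (Finset.mem_filter.1 hσ).2
    · intro σ hσ
      exact Finset.insert_erase (Finset.mem_filter.1 hσ).2
    · intro σ hσ
      rw [Finset.erase_insert (Finset.mem_filter.1 hσ).2]
  rw [bd_eq, cbd_eq]
  simp only [Finset.sum_apply, Finset.sum_mul, Finset.mul_sum]
  rw [Finset.sum_comm, Finset.sum_comm (f := fun σ v => c σ * cn v d σ)]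
  exact Finset.sum_congr rfl fun v _ => key v

/-- the chains on the members of `A` with `i` elements -/
private def chS (K : Type*) [Field K] (A : Set (Finset V)) (i : ℕ) :
    Submodule K (Finset V → K) where
  carrier := {z | IsCh A i z}
  add_mem' := by
    intro a b ha hb σ hσ
    by_cases h : a σ = 0
    · exact hb σ (fun h' => hσ (by rw [Pi.add_apply, h, h', add_zero]))
    · exact ha σ h
  zero_mem' := fun σ hσ => absurd rfl hσ
  smul_mem' := by
    intro k a ha σ hσ
    exact ha σ (fun h => hσ (by rw [Pi.smul_apply, h, smul_zero]))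

/-- the functional given by `c` -/
private def fnl (c : Finset V → K) : (Finset V → K) →ₗ[K] K where
  toFun z := ∑ σ, z σ * c σ
  map_add' := by
    intro a b
    simp only [Pi.add_apply, add_mul, Finset.sum_add_distrib]
  map_smul' := by
    intro k a
    simp only [Pi.smul_apply, smul_eq_mul, RingHom.id_apply, Finset.mul_sum, mul_assoc]

theorem coex_of_ex {A : Set (Finset V)} (hA : IsLowerSet A) {i : ℕ} (h : Ex K A i)
    (c : Finset V → K) (hc : IsCh A i c) (hc' : ∀ σ ∈ A, cbd c σ = 0) :
    ∃ d : Finset V → K, (∀ σ, d σ ≠ 0 → σ ∈ A ∧ σ.card + 1 = i) ∧ ∀ σ ∈ A, cbd d σ = c σ := by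
  classical
  set g : chS K A i →ₗ[K] (Finset V → K) := bdL ∘ₗ (chS K A i).subtype with hg
  set φ : Module.Dual K (chS K A i) := fnl c ∘ₗ (chS K A i).subtype with hφ
  have h1 : φ ∈ (LinearMap.ker g).dualAnnihilator := by
    rw [Submodule.mem_dualAnnihilator]
    rintro ⟨z, hz⟩ hz2
    have hz3 : bd z = 0 := by
      have := LinearMap.mem_ker.1 hz2
      rw [hg, LinearMap.comp_apply, bdL_apply] at this
      exact this
    obtain ⟨w, hw1, hw2⟩ := h z hz hz3
    change ∑ σ, z σ * c σ = 0
    rw [← hw2, pairing]
    refine Finset.sum_eq_zero fun σ _ => ?_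
    by_cases h2 : w σ = 0
    · rw [h2, zero_mul]
    · rw [hc' σ (hw1 σ h2).1, mul_zero]
  rw [← LinearMap.range_dualMap_eq_dualAnnihilator_ker] at h1
  obtain ⟨ψ, hψ⟩ := h1
  set e : Finset V → K := fun σ => ψ (Pi.single σ 1) with he
  have hψe : ∀ z : Finset V → K, ψ z = ∑ σ, z σ * e σ := by
    intro z
    have h2 : z = ∑ σ, z σ • (Pi.single σ (1 : K) : Finset V → K) := by
      funext τ
      rw [Finset.sum_apply]
      rw [Finset.sum_eq_single τ]
      · rw [Pi.smul_apply, Pi.single_eq_same, smul_eq_mul, mul_one]
      · intro b _ hb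
        rw [Pi.smul_apply, Pi.single_eq_of_ne (Ne.symm hb), smul_zero]
      · intro hb
        exact absurd (Finset.mem_univ τ) hb
    conv_lhs => rw [h2]
    rw [map_sum]
    refine Finset.sum_congr rfl fun σ _ => ?_
    rw [map_smul, smul_eq_mul]
  refine ⟨fun σ => if σ ∈ A ∧ σ.card + 1 = i then e σ else 0, ?_, ?_⟩
  · intro σ hσ
    by_contra hcon
    exact hσ (if_neg hcon)
  · intro σ hσ
    by_cases hi : σ.card = i
    · have hs : (Pi.single σ (1 : K) : Finset V → K) ∈ chS K A i := by
        intro τ hτ
        by_cases h2 : τ = σ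
        · rw [h2]
          exact ⟨hσ, hi⟩
        · exact absurd (Pi.single_eq_of_ne h2 _) hτ
      have h3 := LinearMap.congr_fun hψ ⟨_, hs⟩
      have h4 : φ ⟨_, hs⟩ = c σ := by
        change ∑ τ, (Pi.single σ (1 : K) : Finset V → K) τ * c τ = c σ
        rw [Finset.sum_eq_single σ]
        · rw [Pi.single_eq_same, one_mul]
        · intro b _ hb
          rw [Pi.single_eq_of_ne hb, zero_mul]
        · intro hb
          exact absurd (Finset.mem_univ σ) hb
      have h5 : g.dualMap ψ ⟨_, hs⟩ = ∑ τ, bd (Pi.single σ (1 : K) : Finset V → K) τ *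
          (if τ ∈ A ∧ τ.card + 1 = i then e τ else 0) := by
        change ψ (g ⟨_, hs⟩) = _
        rw [hψe]
        refine Finset.sum_congr rfl fun τ _ => ?_
        change bdL (Pi.single σ (1 : K) : Finset V → K) τ * e τ = _
        rw [bdL_apply]
        by_cases h6 : bd (Pi.single σ (1 : K) : Finset V → K) τ = 0
        · rw [h6, zero_mul, zero_mul]
        · have h7 : ∃ v, v ∉ τ ∧ (Pi.single σ (1 : K) : Finset V → K) (insert v τ) ≠ 0 := by
            by_contra hcon
            push Not at hcon
            apply h6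
            unfold bd
            refine Finset.sum_eq_zero fun v hv => ?_
            rw [hcon v (Finset.mem_compl.1 hv), mul_zero]
          obtain ⟨v, hv1, hv2⟩ := h7
          have h8 : insert v τ = σ := by
            by_contra hcon
            exact hv2 (Pi.single_eq_of_ne hcon _)
          rw [if_pos]
          refine ⟨hA ?_ hσ, ?_⟩
          · rw [← h8]
            exact Finset.subset_insert v τ
          · rw [← hi, ← h8, Finset.card_insert_of_notMem hv1]
      rw [h4, h5, pairing, Finset.sum_eq_single σ] at h3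
      · rw [Pi.single_eq_same, one_mul] at h3
        exact h3
      · intro b _ hb
        rw [Pi.single_eq_of_ne hb, zero_mul]
      · intro hb
        exact absurd (Finset.mem_univ σ) hb
    · have h2 : c σ = 0 := by
        by_contra hcon
        exact hi (hc σ hcon).2
      rw [h2]
      unfold cbd
      refine Finset.sum_eq_zero fun v hv => ?_
      change sg K v (σ.erase v) *
        (if σ.erase v ∈ A ∧ (σ.erase v).card + 1 = i then e (σ.erase v) else 0) = 0
      rw [if_neg, mul_zero]
      rintro ⟨_, h3⟩
      rw [Finset.card_erase_add_one hv] at h3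
      exact hi h3

end Pool.Agent.LIN
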