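import Pool.Agent.Helper23.LIN.Alex

/-!
# Project LIN, block AL2: Alexander duality

`alex`: let `z` be a cycle of `B = {σ ⊆ W | W \ σ ∉ A}` with `j` elements. `ε τ = ∏_{v ∈ τ} (-1)^#{u ∈ W, u < v}`,
`z' τ = ε τ * z (W \ τ)` for `τ ⊆ W` (and `0` otherwise): `cbd z' τ = ε τ * bd z (W \ τ)` for `τ ⊆ W`, so `z'` is a cocycle on the
subsets of `W`, supported outside `A`, on sets with `i + 1` elements. `W ≠ ∅`: with `v ∈ W`, `z' = cbd y` on the subsets of
`W`, `y = ct v z'`. On `A`: `cbd y = z' = 0`, so the restriction of `y` to `A` is `cbd d` on `A` (`coex_of_ex`), and `y' = y - cbd d` (on the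
subsets of `W`) is supported outside `A` and `cbd y' = z'`. Go back with `ε`.
-/

set_option linter.unusedSectionVars false

namespace Pool.Agent.LIN

open Pool.Agent.LQ Pool.Agent.LQ.T1

variable {V : Type*} [Fintype V] [LinearOrder V] {K : Type*} [Field K]

/-- the sign of the Alexander duality -/
private def ep (K : Type*) [Field K] (W τ : Finset V) : K :=
  ∏ v ∈ τ, (-1) ^ (W.filter (· < v)).card

private theorem ep_mul_self (W τ : Finset V) : ep K W τ * ep K W τ = 1 := by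
  unfold ep
  rw [← Finset.prod_mul_distrib]
  refine Finset.prod_eq_one fun v _ => ?_
  rw [← mul_pow]
  simp

private theorem ep_erase {W τ : Finset V} (hτ : τ ⊆ W) {v : V} (hv : v ∈ τ) :
    sg K v (τ.erase v) * ep K W (τ.erase v) = ep K W τ * sg K v (W \ τ) := by
  have h1 : ep K W τ = (-1) ^ (W.filter (· < v)).card * ep K W (τ.erase v) := by
    unfold ep
    exact (Finset.mul_prod_erase τ _ hv).symm
  have h2 : (W.filter (· < v)).card =
      ((τ.erase v).filter (· < v)).card + ((W \ τ).filter (· < v)).card := by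
    rw [← Finset.card_union_of_disjoint]
    · congr 1
      ext u
      simp only [Finset.mem_filter, Finset.mem_union, Finset.mem_erase, Finset.mem_sdiff]
      constructor
      · rintro ⟨a1, a2⟩
        by_cases h3 : u ∈ τ
        · exact Or.inl ⟨⟨ne_of_lt a2, h3⟩, a2⟩
        · exact Or.inr ⟨⟨a1, h3⟩, a2⟩
      · rintro (⟨⟨_, a1⟩, a2⟩ | ⟨⟨a1, _⟩, a2⟩)
        · exact ⟨hτ a1, a2⟩
        · exact ⟨a1, a2⟩
    · rw [Finset.disjoint_left]
      intro u hu hu'
      simp only [Finset.mem_filter, Finset.mem_erase, Finset.mem_sdiff] at hu hu'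
      exact hu'.1.2 hu.1.2
  have h3 : ((-1 : K)) ^ (W.filter (· < v)).card = sg K v (τ.erase v) * sg K v (W \ τ) := by
    rw [h2, pow_add]
    rfl
  rw [h1, h3]
  have h4 := sg_mul_self (K := K) v (W \ τ)
  calc sg K v (τ.erase v) * ep K W (τ.erase v)
      = sg K v (τ.erase v) * (sg K v (W \ τ) * sg K v (W \ τ)) * ep K W (τ.erase v) := by
        rw [h4, mul_one]
    _ = _ := by ring

private theorem cbd_dual {W : Finset V} {f f' : Finset V → K} (hf : ∀ σ, f σ ≠ 0 → σ ⊆ W)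
    (hf' : ∀ τ, τ ⊆ W → f' τ = ep K W τ * f (W \ τ)) {τ : Finset V} (hτ : τ ⊆ W) :
    cbd f' τ = ep K W τ * bd f (W \ τ) := by
  unfold cbd bd
  rw [Finset.mul_sum]
  have h1 : τ ⊆ (W \ τ)ᶜ := by
    intro v hv
    rw [Finset.mem_compl, Finset.mem_sdiff]
    exact fun h => h.2 hv
  rw [← Finset.sum_subset h1]
  · refine Finset.sum_congr rfl fun v hv => ?_
    have h2 : τ.erase v ⊆ W := (Finset.erase_subset v τ).trans hτ
    have h3 : W \ τ.erase v = insert v (W \ τ) := by
      ext u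
      simp only [Finset.mem_sdiff, Finset.mem_erase, Finset.mem_insert, not_and]
      constructor
      · rintro ⟨a1, a2⟩
        by_cases h4 : u = v
        · exact Or.inl h4
        · exact Or.inr ⟨a1, a2 h4⟩
      · rintro (a1 | ⟨a1, a2⟩)
        · rw [a1]
          exact ⟨hτ hv, fun h => absurd rfl h⟩
        · exact ⟨a1, fun _ => a2⟩
    rw [hf' _ h2, h3, ← mul_assoc, ep_erase hτ hv]
    ring
  · intro v hv hv'
    have h2 : v ∉ W := fun h => (Finset.mem_compl.1 hv) (Finset.mem_sdiff.2 ⟨h, hv'⟩)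
    have h3 : f (insert v (W \ τ)) = 0 := by
      by_contra hcon
      exact h2 (hf _ hcon (Finset.mem_insert_self v _))
    rw [h3, mul_zero, mul_zero]

theorem alex {W : Finset V} {A : Set (Finset V)} (hA : IsLowerSet A) (hAW : ∀ σ ∈ A, σ ⊆ W)
    {i j : ℕ} (hij : i + j + 1 = W.card) (h : Ex K A i) :
    Ex K {σ | σ ⊆ W ∧ W \ σ ∉ A} j := by
  classical
  intro z hz hbd
  obtain ⟨v, hvW⟩ : W.Nonempty := Finset.card_pos.1 (by omega)
  set z' : Finset V → K := fun τ => if τ ⊆ W then ep K W τ * z (W \ τ) else 0 with hz'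
  have hz'W : ∀ τ, τ ⊆ W → z' τ = ep K W τ * z (W \ τ) := fun τ hτ => if_pos hτ
  have hcz : ∀ τ, τ ⊆ W → cbd z' τ = 0 := by
    intro τ hτ
    rw [cbd_dual (fun σ hσ => (hz σ hσ).1.1) hz'W hτ, hbd, Pi.zero_apply, mul_zero]
  have hz'ne : ∀ τ, z' τ ≠ 0 → τ ⊆ W ∧ τ ∉ A ∧ τ.card = i + 1 := by
    intro τ hτ
    by_cases h1 : τ ⊆ W
    · rw [hz'W τ h1] at hτ
      obtain ⟨⟨_, h3⟩, h4⟩ := hz _ (right_ne_zero_of_mul hτ)
      rw [Finset.sdiff_sdiff_eq_self h1] at h3
      refine ⟨h1, h3, ?_⟩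
      have h5 := Finset.card_sdiff_add_card_eq_card h1
      omega
    · exact absurd (if_neg h1) hτ
  set y : Finset V → K := ct v z' with hy
  have hyne : ∀ τ, y τ ≠ 0 → τ ⊆ W ∧ τ.card = i := by
    intro τ hτ
    have hvτ : v ∉ τ := by
      intro h1
      exact hτ (if_pos h1)
    have h1 : z' (insert v τ) ≠ 0 := by
      intro h2
      apply hτ
      rw [hy]
      unfold ct
      rw [if_neg hvτ, h2, mul_zero]
    obtain ⟨h2, _, h3⟩ := hz'ne _ h1
    rw [Finset.card_insert_of_notMem hvτ] at h3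
    exact ⟨(Finset.subset_insert v τ).trans h2, by omega⟩
  have hcy : ∀ τ, τ ⊆ W → cbd y τ = z' τ := by
    intro τ hτ
    rw [hy, cbd_ct, Pi.sub_apply]
    have h1 : ct v (cbd z') τ = 0 := by
      unfold ct
      split_ifs with h2
      · rfl
      · rw [hcz _ (Finset.insert_subset hvW hτ), mul_zero]
    rw [h1, sub_zero]
  set c : Finset V → K := fun τ => if τ ∈ A then y τ else 0 with hc
  have hcc : ∀ τ ∈ A, c τ = y τ := fun τ hτ => if_pos hτ
  have h1 : IsCh A i c := by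
    intro τ hτ
    by_cases h2 : τ ∈ A
    · rw [hcc τ h2] at hτ
      exact ⟨h2, (hyne τ hτ).2⟩
    · exact absurd (if_neg h2) hτ
  have h2 : ∀ σ ∈ A, cbd c σ = 0 := by
    intro σ hσ
    have h3 : cbd c σ = cbd y σ := by
      unfold cbd
      refine Finset.sum_congr rfl fun u _ => ?_
      rw [hcc _ (hA (Finset.erase_subset u σ) hσ)]
    rw [h3, hcy σ (hAW σ hσ)]
    by_contra hcon
    exact (hz'ne σ hcon).2.1 hσ
  obtain ⟨d, hd1, hd2⟩ := coex_of_ex hA h c h1 h2
  set y' : Finset V → K := y - cbd d with hy'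
  have hy'A : ∀ τ ∈ A, y' τ = 0 := by
    intro τ hτ
    rw [hy', Pi.sub_apply, hd2 τ hτ, hcc τ hτ, sub_self]
  have hy'c : ∀ τ, y' τ ≠ 0 → τ.card = i := by
    intro τ hτ
    by_cases h3 : y τ = 0
    · rw [hy', Pi.sub_apply, h3, zero_sub, neg_ne_zero] at hτ
      obtain ⟨u, hu, hu2⟩ := Finset.exists_ne_zero_of_sum_ne_zero hτ
      have h4 := (hd1 _ (right_ne_zero_of_mul hu2)).2
      rw [Finset.card_erase_add_one hu] at h4
      exact h4
    · exact (hyne τ h3).2
  set w : Finset V → K := fun σ => if σ ⊆ W then ep K W (W \ σ) * y' (W \ σ) else 0 with hw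
  have hwW : ∀ σ, w σ ≠ 0 → σ ⊆ W := by
    intro σ hσ
    by_contra hcon
    exact hσ (if_neg hcon)
  have hwW2 : ∀ σ, σ ⊆ W → w σ = ep K W (W \ σ) * y' (W \ σ) := fun σ hσ => if_pos hσ
  have hwy : ∀ τ, τ ⊆ W → y' τ = ep K W τ * w (W \ τ) := by
    intro τ hτ
    rw [hwW2 _ Finset.sdiff_subset, Finset.sdiff_sdiff_eq_self hτ, ← mul_assoc, ep_mul_self,
      one_mul]
  refine ⟨w, ?_, ?_⟩
  · intro σ hσ
    have h3 := hwW σ hσ
    rw [hwW2 σ h3] at hσ
    have h4 := right_ne_zero_of_mul hσ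
    refine ⟨⟨h3, fun h5 => h4 (hy'A _ h5)⟩, ?_⟩
    have h5 := hy'c _ h4
    have h6 := Finset.card_sdiff_add_card_eq_card h3
    omega
  · funext σ
    by_cases h3 : σ ⊆ W
    · have h4 := cbd_dual hwW hwy (τ := W \ σ) Finset.sdiff_subset
      rw [Finset.sdiff_sdiff_eq_self h3] at h4
      have h5 : cbd y' (W \ σ) = z' (W \ σ) := by
        rw [hy', cbd_sub, cbd_cbd, sub_zero, hcy _ Finset.sdiff_subset]
      rw [h5, hz'W _ Finset.sdiff_subset, Finset.sdiff_sdiff_eq_self h3] at h4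
      have h6 := congrArg (fun t => ep K W (W \ σ) * t) h4
      simp only [← mul_assoc, ep_mul_self, one_mul] at h6
      exact h6.symm
    · have h4 : z σ = 0 := by
        by_contra hcon
        exact h3 (hz σ hcon).1.1
      rw [h4]
      unfold bd
      refine Finset.sum_eq_zero fun u _ => ?_
      have h5 : w (insert u σ) = 0 := by
        by_contra hcon
        exact h3 ((Finset.subset_insert u σ).trans (hwW _ hcon))
      rw [h5, mul_zero]

end Pool.Agent.LIN
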