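import Pool.Agent.Helper23.LIN.MV

/-!
# Project LIN, block BRIDGE: step 1 versus large steps

`stp_jn`: for `v ∈ W`, with `b' = b + m e_v` (`m = f v`), `Stp Pr W b f = jn D L v` with `D = Stp Pr (W.erase v) b f` and
`L = Stp Pr (W.erase v) b' f`. With `f' = update f v (f v + 1)`: `Stp Pr W b f' = jn D L' v` where `L'` is the `L` for
`b + (m+1) e_v`; and `jn L L' v = Stp Pr W b' (update f v 1)`.

`bridge`: for `T ⊆ V` let `f_T = q` on `T` and `1` outside. Claim: the condition for `f_T` (for all `W`, `b` supported in `W`, `i`
with `ρ ≤ |b| + i`) is equivalent to the condition for `f_{insert v T}`, `v ∉ T`.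
Up (`1` to `q` at `v`): for `m = 1, …, q - 1`: condition for `f v = m` and condition for `f v = 1` give the condition for
`f v = m + 1` by `br2` with `b' = b + m e_v`, `|b'| + i ≥ ρ`.
Down (`q` to `1`): prove for all `b` and `1 ≤ m ≤ q` the condition for `f v = m` by induction on `q - b v`, then on
`q - m`: by `br1` with `b' = b + m e_v`, `|b'| + (i - 1) ≥ ρ`, `b' v > b v`; if `b v ≥ q` the complex is a cone with apex
`v` by the stability hypothesis (`ex_cone`); if `v ∉ W` the value `f v` does not matter.
-/

set_option linter.unusedSectionVars false

namespace Pool.Agent.LIN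

open Pool.Agent.LQ Pool.Agent.LQ.T1

variable {V : Type*} [Fintype V] [LinearOrder V] {K : Type*} [Field K]

private theorem stp_lower {Pr : (V → ℕ) → Prop}
    (hlow : ∀ m m' : V → ℕ, (∀ v, m' v ≤ m v) → Pr m → Pr m') (W : Finset V) (b f : V → ℕ) :
    IsLowerSet (Stp Pr W b f) := by
  intro τ τ' hle hτ
  refine ⟨(Finset.le_iff_subset.1 hle).trans hτ.1, hlow _ _ (fun u => ?_) hτ.2⟩
  by_cases h1 : u ∈ τ'
  · rw [if_pos h1, if_pos (hle h1)]
  · rw [if_neg h1]
    omega

private theorem stp_mono {Pr : (V → ℕ) → Prop}
    (hlow : ∀ m m' : V → ℕ, (∀ v, m' v ≤ m v) → Pr m → Pr m') (W : Finset V) {b b' : V → ℕ}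
    (hb : ∀ u, b' u ≤ b u) (f : V → ℕ) : Stp Pr W b f ⊆ Stp Pr W b' f := by
  intro τ hτ
  refine ⟨hτ.1, hlow _ _ (fun u => ?_) hτ.2⟩
  have := hb u
  omega

private theorem stp_jn {Pr : (V → ℕ) → Prop} {W : Finset V} {v : V} (hv : v ∈ W) (b f : V → ℕ)
    (m : ℕ) : Stp Pr W b (Function.update f v m) =
      jn (Stp Pr (W.erase v) b f) (Stp Pr (W.erase v) (Function.update b v (b v + m)) f) v := by
  ext τ
  by_cases hvτ : v ∈ τ
  · have h1 : (fun u => b u + if u ∈ τ then Function.update f v m u else 0) =
        (fun u => Function.update b v (b v + m) u + if u ∈ τ.erase v then f u else 0) := by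
      funext u
      by_cases huv : u = v
      · subst huv
        rw [if_pos hvτ, if_neg (Finset.notMem_erase u τ), Function.update_self,
          Function.update_self, add_zero]
      · rw [Function.update_of_ne huv, Function.update_of_ne huv]
        by_cases hu : u ∈ τ
        · rw [if_pos hu, if_pos (Finset.mem_erase.2 ⟨huv, hu⟩)]
        · rw [if_neg hu, if_neg (fun h => hu (Finset.mem_of_mem_erase h))]
    constructor
    · rintro ⟨h2, h3⟩
      refine Or.inr ⟨hvτ, Finset.erase_subset_erase v h2, ?_⟩
      rw [← h1]
      exact h3
    · rintro (⟨h2, _⟩ | ⟨_, h2, h3⟩)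
      · exact absurd hvτ h2
      · refine ⟨?_, ?_⟩
        · intro u hu
          by_cases huv : u = v
          · rw [huv]; exact hv
          · exact Finset.mem_of_mem_erase (h2 (Finset.mem_erase.2 ⟨huv, hu⟩))
        · rw [h1]
          exact h3
  · have h1 : (fun u => b u + if u ∈ τ then Function.update f v m u else 0) =
        (fun u => b u + if u ∈ τ then f u else 0) := by
      funext u
      by_cases hu : u ∈ τ
      · have huv : u ≠ v := fun h => hvτ (h ▸ hu)
        rw [if_pos hu, if_pos hu, Function.update_of_ne huv]
      · rw [if_neg hu, if_neg hu]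
    constructor
    · rintro ⟨h2, h3⟩
      refine Or.inl ⟨hvτ, fun u hu => Finset.mem_erase.2 ⟨fun h => hvτ (h ▸ hu), h2 hu⟩, ?_⟩
      rw [← h1]
      exact h3
    · rintro (⟨_, h2, h3⟩ | ⟨h2, _⟩)
      · refine ⟨h2.trans (Finset.erase_subset v W), ?_⟩
        rw [h1]
        exact h3
      · exact absurd h2 hvτ

private theorem stp_not {Pr : (V → ℕ) → Prop} {W : Finset V} {v : V} (hv : v ∉ W) (b f : V → ℕ)
    (m m' : ℕ) : Stp Pr W b (Function.update f v m) = Stp Pr W b (Function.update f v m') := by
  ext τ
  have h0 : τ ⊆ W → (fun u => b u + if u ∈ τ then Function.update f v m u else 0) =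
      (fun u => b u + if u ∈ τ then Function.update f v m' u else 0) := by
    intro hτ
    funext u
    by_cases hu : u ∈ τ
    · have huv : u ≠ v := fun h => hv (h ▸ hτ hu)
      rw [Function.update_of_ne huv, Function.update_of_ne huv]
    · rw [if_neg hu, if_neg hu]
  constructor
  · rintro ⟨h1, h2⟩
    refine ⟨h1, ?_⟩
    rw [← h0 h1]
    exact h2
  · rintro ⟨h1, h2⟩
    refine ⟨h1, ?_⟩
    rw [h0 h1]
    exact h2

/-- the condition for the steps `f` -/
private def SC (K : Type*) [Field K] (Pr : (V → ℕ) → Prop) (f : V → ℕ) (ρ : ℕ) : Prop :=
  ∀ (W : Finset V) (b : V → ℕ), (∀ v, v ∉ W → b v = 0) → ∀ i : ℕ, ρ ≤ ws b W + i →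
    Ex K (Stp Pr W b f) i

private theorem ws_update {W : Finset V} {v : V} (hv : v ∈ W) (b : V → ℕ) (m : ℕ) :
    ws (Function.update b v (b v + m)) W = ws b W + m := by
  unfold ws
  rw [← Finset.add_sum_erase W _ hv, ← Finset.add_sum_erase W b hv, Function.update_self]
  have h1 : ∑ x ∈ W.erase v, Function.update b v (b v + m) x = ∑ x ∈ W.erase v, b x :=
    Finset.sum_congr rfl (fun x hx => Function.update_of_ne (Finset.ne_of_mem_erase hx) _ _)
  rw [h1]
  omega

private theorem supp_update {W : Finset V} {v : V} (hv : v ∈ W) {b : V → ℕ}
    (hb : ∀ v, v ∉ W → b v = 0) (m : ℕ) :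
    ∀ u, u ∉ W → Function.update b v (b v + m) u = 0 := by
  intro u hu
  have huv : u ≠ v := fun h => hu (h ▸ hv)
  rw [Function.update_of_ne huv]
  exact hb u hu

private theorem sc_up {Pr : (V → ℕ) → Prop}
    (hlow : ∀ m m' : V → ℕ, (∀ v, m' v ≤ m v) → Pr m → Pr m') {ρ : ℕ} {f : V → ℕ} {v : V} {m : ℕ}
    (h1 : SC K Pr (Function.update f v 1) ρ) (hm : SC K Pr (Function.update f v m) ρ) :
    SC K Pr (Function.update f v (m + 1)) ρ := by
  intro W b hb i hi
  by_cases hv : v ∈ W
  · rw [stp_jn hv]
    have h2 := hm W b hb i hi
    rw [stp_jn hv] at h2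
    have h3 := h1 W (Function.update b v (b v + m)) (supp_update hv hb m) i (by
      rw [ws_update hv]; omega)
    rw [stp_jn hv, Function.update_self, Function.update_idem, add_assoc] at h3
    refine br2 v (stp_lower hlow _ _ _) (stp_lower hlow _ _ _) (stp_lower hlow _ _ _) ?_ ?_ ?_
      h2 h3
    · refine stp_mono hlow _ (fun u => ?_) f
      by_cases huv : u = v
      · subst huv
        rw [Function.update_self, Function.update_self]
        omega
      · rw [Function.update_of_ne huv, Function.update_of_ne huv]
    · refine stp_mono hlow _ (fun u => ?_) f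
      by_cases huv : u = v
      · subst huv
        rw [Function.update_self]
        omega
      · rw [Function.update_of_ne huv]
    · intro σ hσ h
      exact (Finset.notMem_erase v W) (hσ.1 h)
  · rw [stp_not hv b f (m + 1) m]
    exact hm W b hb i hi

private theorem sc_down {Pr : (V → ℕ) → Prop}
    (hlow : ∀ m m' : V → ℕ, (∀ v, m' v ≤ m v) → Pr m → Pr m') {q : ℕ} (hq : 1 ≤ q)
    (hst : ∀ (m : V → ℕ) (v : V), q ≤ m v → Pr m → Pr (Function.update m v (m v + 1)))
    {ρ : ℕ} {f : V → ℕ} {v : V} (h : SC K Pr (Function.update f v q) ρ) :
    SC K Pr (Function.update f v 1) ρ := by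
  have hst2 : ∀ (k : ℕ) (m : V → ℕ), q ≤ m v → Pr m → Pr (Function.update m v (m v + k)) := by
    intro k
    induction k with
    | zero =>
        intro m _ h1
        rw [add_zero, Function.update_eq_self]
        exact h1
    | succ k ih =>
        intro m h0 h1
        have h2 := hst _ v (by rw [Function.update_self]; omega) (ih m h0 h1)
        rw [Function.update_self, Function.update_idem, add_assoc] at h2
        exact h2
  have key : ∀ (n : ℕ) (W : Finset V), v ∈ W → ∀ b : V → ℕ, (∀ v, v ∉ W → b v = 0) →
      q ≤ b v + n → ∀ k m : ℕ, 1 ≤ m → m + k = q → ∀ i, ρ ≤ ws b W + i →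
        Ex K (Stp Pr W b (Function.update f v m)) i := by
    intro n
    induction n with
    | zero =>
        intro W hv b hb hn k m _ _ i _
        refine ex_cone v ?_ i
        intro σ hσ
        refine ⟨Finset.insert_subset hv hσ.1, ?_⟩
        by_cases hvσ : v ∈ σ
        · rw [Finset.insert_eq_of_mem hvσ]
          exact hσ.2
        · obtain ⟨m0, hm0⟩ : ∃ m0 : V → ℕ,
              m0 = fun u => b u + if u ∈ σ then Function.update f v m u else 0 := ⟨_, rfl⟩
          have hval : ∀ u, m0 u = b u + if u ∈ σ then Function.update f v m u else 0 :=
            fun u => by rw [hm0]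
          have h1 : Pr m0 := by
            rw [hm0]
            exact hσ.2
          have h0 : m0 v = b v := by
            rw [hval, if_neg hvσ, add_zero]
          have h2 := hst2 m m0 (by rw [h0]; omega) h1
          refine hlow _ _ (fun u => ?_) h2
          by_cases huv : u = v
          · subst huv
            have e : Function.update m0 u (m0 u + m) u = b u + m := by
              rw [Function.update_self, h0]
            have e1 : (b u + if u ∈ insert u σ then Function.update f u m u else 0) = b u + m := by
              rw [if_pos (Finset.mem_insert_self u σ), Function.update_self]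
            rw [e]
            exact e1.le
          · have e : Function.update m0 v (m0 v + m) u =
                b u + if u ∈ σ then Function.update f v m u else 0 := by
              rw [Function.update_of_ne huv, hval]
            have e1 : (b u + if u ∈ insert v σ then Function.update f v m u else 0) =
                b u + if u ∈ σ then Function.update f v m u else 0 := by
              by_cases hu : u ∈ σ
              · rw [if_pos hu, if_pos (Finset.mem_insert_of_mem hu)]
              · rw [if_neg hu, if_neg (by rw [Finset.mem_insert]; exact fun h => h.elim huv hu)]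
            rw [e]
            exact e1.le
    | succ n ih =>
        intro W hv b hb hn k
        induction k with
        | zero =>
            intro m _ hmk i hi
            have : m = q := by omega
            subst this
            exact h W b hb i hi
        | succ k ihk =>
            intro m hm hmk i hi
            have h2 := ihk (m + 1) (by omega) (by omega) i hi
            rw [stp_jn hv] at h2 ⊢
            refine br1 v (stp_lower hlow _ _ _) (stp_lower hlow _ _ _) (stp_lower hlow _ _ _)
              ?_ ?_ ?_ h2 ?_
            · refine stp_mono hlow _ (fun u => ?_) f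
              by_cases huv : u = v
              · subst huv
                rw [Function.update_self, Function.update_self]
                omega
              · rw [Function.update_of_ne huv, Function.update_of_ne huv]
            · refine stp_mono hlow _ (fun u => ?_) f
              by_cases huv : u = v
              · subst huv
                rw [Function.update_self]
                omega
              · rw [Function.update_of_ne huv]
            · intro σ hσ h
              exact (Finset.notMem_erase v W) (hσ.1 h)
            · intro j hj
              have h3 := ih W hv (Function.update b v (b v + m)) (supp_update hv hb m) (by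
                rw [Function.update_self]; omega) (q - 1) 1 le_rfl (by omega) j (by
                rw [ws_update hv]; omega)
              rw [stp_jn hv, Function.update_self, Function.update_idem, add_assoc] at h3
              exact h3
  intro W b hb i hi
  by_cases hv : v ∈ W
  · exact key q W hv b hb (by omega) (q - 1) 1 le_rfl (by omega) i hi
  · rw [stp_not hv b f 1 q]
    exact h W b hb i hi

theorem bridge {Pr : (V → ℕ) → Prop}
    (hlow : ∀ m m' : V → ℕ, (∀ v, m' v ≤ m v) → Pr m → Pr m') {q : ℕ} (hq : 1 ≤ q)
    (hst : ∀ (m : V → ℕ) (v : V), q ≤ m v → Pr m → Pr (Function.update m v (m v + 1))) (ρ : ℕ) :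
    StpC K Pr 1 ρ ↔ StpC K Pr q ρ := by
  have one : ∀ (f : V → ℕ) (v : V),
      SC K Pr (Function.update f v 1) ρ ↔ SC K Pr (Function.update f v q) ρ := by
    intro f v
    constructor
    · intro h1
      have : ∀ m, SC K Pr (Function.update f v (m + 1)) ρ := by
        intro m
        induction m with
        | zero => exact h1
        | succ m ih => exact sc_up hlow h1 ih
      have h2 := this (q - 1)
      rw [Nat.sub_add_cancel hq] at h2
      exact h2
    · exact sc_down hlow hq hst
  have all : ∀ T : Finset V, SC K Pr (fun _ => 1) ρ ↔
      SC K Pr (fun u => if u ∈ T then q else 1) ρ := by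
    intro T
    induction T using Finset.induction_on with
    | empty => simp
    | insert v T hv ih =>
        rw [ih]
        have e1 : (fun u => if u ∈ T then q else 1) =
            Function.update (fun u => if u ∈ T then q else 1) v 1 := by
          funext u
          by_cases huv : u = v
          · subst huv
            rw [Function.update_self, if_neg hv]
          · rw [Function.update_of_ne huv]
        have e2 : (fun u => if u ∈ insert v T then q else 1) =
            Function.update (fun u => if u ∈ T then q else 1) v q := by
          funext u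
          by_cases huv : u = v
          · subst huv
            rw [Function.update_self, if_pos (Finset.mem_insert_self u T)]
          · rw [Function.update_of_ne huv]
            by_cases hu : u ∈ T
            · rw [if_pos hu, if_pos (Finset.mem_insert_of_mem hu)]
            · rw [if_neg hu, if_neg (by rw [Finset.mem_insert]; exact fun h => h.elim huv hu)]
        rw [e2, ← one, ← e1]
  have h3 := all Finset.univ
  simp only [Finset.mem_univ, if_true] at h3
  exact h3

end Pool.Agent.LIN
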