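import Pool.Agent.Helper23.LIN.Rem

/-!
# Project LIN, block CB: isolated vertices and Case B

`cone_of_iso`: `Y` is a cone with apex `x` (`dl (insert x F') ≥ dl F'`): `ex_cone`.
Case B: all nonempty independent `J ⊆ W` have `dl J ≤ -1`. If `t ≥ 1`: `Y` is empty. If `Y ⊆ {∅}`: `Ex` for `i ≥ 1`
(`ex_of_card`; `i ≥ 1 - t ≥ 1`). Otherwise let `f ≠ ∅` be a maximal face, `S = W \ f`: `dv Y S` is the simplex on `f`, a cone:
`pp_of_rem`.
-/

set_option linter.unusedSectionVars false

namespace Pool.Agent.LIN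

open Pool.Agent.LQ Pool.Agent.LQ.T1

variable {V : Type*} [Fintype V] [LinearOrder V] {K : Type*} [Field K]

theorem cone_of_iso {G : SimpleGraph V} {a : V → ℕ} {W : Finset V} {x : V} (hx : x ∈ W)
    (h : ∀ y ∈ W, ¬ G.Adj x y) (t : ℤ) (i : ℕ) : Ex K (Y G a W t) i := by
  refine ex_cone x ?_ i
  rintro F ⟨F', hF, hF', hI, ht⟩
  refine ⟨insert x F', Finset.insert_subset_insert x hF, Finset.insert_subset hx hF', ?_, ?_⟩
  · intro u hu v hv huv
    rcases Finset.mem_insert.1 hu with rfl | hu'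
    · rcases Finset.mem_insert.1 hv with rfl | hv'
      · exact G.loopless.irrefl _ huv
      · exact h v (hF' hv') huv
    · rcases Finset.mem_insert.1 hv with rfl | hv'
      · exact h u (hF' hu') huv.symm
      · exact hI u hu' v hv' huv
  · refine ht.trans ?_
    unfold dl
    have h1 : nb G (insert x F') ∩ W = nb G F' ∩ W := by
      ext v
      rw [Finset.mem_inter, Finset.mem_inter, mem_nb, mem_nb]
      constructor
      · rintro ⟨⟨u, hu, huv⟩, hv⟩
        rcases Finset.mem_insert.1 hu with rfl | hu'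
        · exact absurd huv (h v hv)
        · exact ⟨⟨u, hu', huv⟩, hv⟩
      · rintro ⟨⟨u, hu, huv⟩, hv⟩
        exact ⟨⟨u, Finset.mem_insert_of_mem hu, huv⟩, hv⟩
    have h2 : ws a F' ≤ ws a (insert x F') :=
      Finset.sum_le_sum_of_subset (Finset.subset_insert x F')
    rw [h1]
    have h3 : (ws a F' : ℤ) ≤ ws a (insert x F') := by exact_mod_cast h2
    linarith

/-- Case B -/
theorem caseB {G : SimpleGraph V} {a : V → ℕ} {W : Finset V} (ih : ∀ W' ⊂ W, QQ K G a W')
    (h : ∀ J ⊆ W, J.Nonempty → Ind G J → dl G a W J ≤ -1) : PP K G a W := by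
  intro t ht i hi
  by_cases hf : ∃ f ∈ Y G a W t, f.Nonempty
  · obtain ⟨f, hfY, hfne⟩ := hf
    refine pp_of_rem ih ht (S := W \ f) Finset.sdiff_subset
      (fun U hU hUne hUi => h U (hU.trans Finset.sdiff_subset) hUne hUi) ?_ i hi
    intro j _
    obtain ⟨v, hv⟩ := hfne
    refine ex_cone v ?_ j
    rintro σ ⟨hσ, hd⟩
    have hσf : σ ⊆ f := by
      intro u hu
      by_contra huf
      exact Finset.disjoint_left.1 hd hu (Finset.mem_sdiff.2 ⟨Y_sub hσ hu, huf⟩)
    have hins : insert v σ ⊆ f := Finset.insert_subset hv hσf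
    refine ⟨Y_lower G a W t hins hfY, ?_⟩
    rw [Finset.disjoint_left]
    intro u hu hu'
    exact (Finset.mem_sdiff.1 hu').2 (hins hu)
  · refine ex_of_card ?_
    intro σ hσ hcard
    have hσ0 : σ = ∅ := by
      by_contra hne
      exact hf ⟨σ, hσ, Finset.nonempty_iff_ne_empty.2 hne⟩
    obtain ⟨F', h1, h2, h3, h4⟩ := hσ
    have hF'0 : F' = ∅ := by
      by_contra hne
      exact hf ⟨F', ⟨F', Finset.Subset.refl _, h2, h3, h4⟩, Finset.nonempty_iff_ne_empty.2 hne⟩
    rw [hF'0, dl_empty] at h4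
    rw [hσ0, Finset.card_empty] at hcard
    have h5 : (i : ℤ) = 0 := by exact_mod_cast hcard.symm
    linarith

end Pool.Agent.LIN
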