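import Pool.Agent.Helper23.LIN.Dl

/-!
# Project LIN, block CA3: the bipartite case (caseA3, caseA4, caseA5)

`caseA3`: let `z ∈ W \ (J ∪ U)`, `z'` a neighbour of `z` in `W`: `z' ∉ J` (else `z ∈ U`), `z' ∉ U` (else `z ∈ J`). `x ∈ J` has a
neighbour `u` in `W`, `u ∈ U`. The edges `z z'`, `x u` contradict `GF G`.
`caseA4`: take `y ∈ U` with the largest number of neighbours in `J`. If `x ∈ J` is not adjacent to `y`, it is adjacent to some
`u ∈ U`, and some `x' ∈ J` is adjacent to `y` and not to `u`. The edges `x' y`, `x u` contradict `GF G`.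
`caseA5`: `dl F ≤ dl (F ∩ J) + dl (F ∩ U)`, as `nb (F ∩ J) ∩ W ⊆ U \ J` and `nb (F ∩ U) ∩ W ⊆ J \ U` are disjoint.
-/

set_option linter.unusedSectionVars false

namespace Pool.Agent.LIN

open Pool.Agent.LQ Pool.Agent.LQ.T1

variable {V : Type*} [Fintype V] [LinearOrder V]

/-- no other vertices -/
theorem caseA3 {G : SimpleGraph V} (hG : GF G) {W J U : Finset V} (hJW : J ⊆ W)
    (hJ : Ind G J) (hUi : Ind G U) (hU : U = nb G J ∩ W) (hUJ : nb G U ∩ W = J) (hJn : J.Nonempty)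
    (hiso : ∀ x ∈ W, ∃ y ∈ W, G.Adj x y) : W = J ∪ U := by
  have key : ∀ z ∈ W, ∀ z' ∈ W, G.Adj z z' → z ∉ J ∪ U → False := by
    intro z hz z' hz' hzz hn
    rw [Finset.mem_union, not_or] at hn
    have hUm : ∀ v ∈ W, ∀ x ∈ J, G.Adj v x → v ∈ U := by
      intro v hv x hx h
      rw [hU]
      exact Finset.mem_inter.2 ⟨mem_nb.2 ⟨x, hx, h.symm⟩, hv⟩
    have hJm : ∀ v ∈ W, ∀ x ∈ U, G.Adj v x → v ∈ J := by
      intro v hv x hx h
      rw [← hUJ]
      exact Finset.mem_inter.2 ⟨mem_nb.2 ⟨x, hx, h.symm⟩, hv⟩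
    have h1 : z' ∉ J := fun h => hn.2 (hUm z hz z' h hzz)
    have h2 : z' ∉ U := fun h => hn.1 (hJm z hz z' h hzz)
    obtain ⟨x, hx⟩ := hJn
    obtain ⟨u, hu, hxu⟩ := hiso x (hJW hx)
    have huU : u ∈ U := hUm u hu x hx hxu.symm
    rcases hG z z' x u hzz hxu with h | h | h | h
    · exact hn.2 (hUm z hz x hx h)
    · exact hn.1 (hJm z hz u huU h)
    · exact h2 (hUm z' hz' x hx h)
    · exact h1 (hJm z' hz' u huU h)
  apply Finset.Subset.antisymm
  · intro z hz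
    by_contra hn
    obtain ⟨z', hz', hzz⟩ := hiso z hz
    exact key z hz z' hz' hzz hn
  · refine Finset.union_subset hJW ?_
    rw [hU]
    exact Finset.inter_subset_right

/-- a vertex of `U` adjacent to all of `J` (the neighbourhoods are nested) -/
theorem caseA4 {G : SimpleGraph V} (hG : GF G) {W J U : Finset V}
    (hJ : Ind G J) (hUi : Ind G U) (hUJ : nb G U ∩ W = J) (hJn : J.Nonempty) :
    ∃ y ∈ U, J ⊆ nb G {y} := by
  classical
  have hUn : U.Nonempty := by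
    obtain ⟨x, hx⟩ := hJn
    rw [← hUJ] at hx
    obtain ⟨u, hu, _⟩ := mem_nb.1 (Finset.mem_inter.1 hx).1
    exact ⟨u, hu⟩
  obtain ⟨y, hy, hmax⟩ := Finset.exists_max_image U (fun u => (nb G {u} ∩ J).card) hUn
  refine ⟨y, hy, fun x hx => ?_⟩
  by_contra hxy
  have hx' := hx
  rw [← hUJ] at hx'
  obtain ⟨u, hu, hux⟩ := mem_nb.1 (Finset.mem_inter.1 hx').1
  have hxu : x ∈ nb G {u} := mem_nb.2 ⟨u, Finset.mem_singleton_self u, hux⟩
  have hns : ¬ nb G {y} ∩ J ⊆ nb G {u} ∩ J := by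
    intro h
    have h1 : nb G {y} ∩ J ⊂ nb G {u} ∩ J := by
      refine Finset.ssubset_iff_subset_ne.2 ⟨h, fun h2 => hxy ?_⟩
      have h3 : x ∈ nb G {u} ∩ J := Finset.mem_inter.2 ⟨hxu, hx⟩
      rw [← h2] at h3
      exact (Finset.mem_inter.1 h3).1
    exact absurd (Finset.card_lt_card h1) (not_lt.2 (hmax u hu))
  obtain ⟨x', h1, h2⟩ := Finset.not_subset.1 hns
  rw [Finset.mem_inter] at h1
  have hyx' : G.Adj y x' := by
    obtain ⟨t, ht, h⟩ := mem_nb.1 h1.1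
    rwa [Finset.mem_singleton.1 ht] at h
  rcases hG x' y x u hyx'.symm hux.symm with h | h | h | h
  · exact hJ x' h1.2 x hx h
  · exact h2 (Finset.mem_inter.2 ⟨mem_nb.2 ⟨u, Finset.mem_singleton_self u, h.symm⟩, h1.2⟩)
  · exact hxy (mem_nb.2 ⟨y, Finset.mem_singleton_self y, h⟩)
  · exact hUi y hy u hu h

/-- the bound for a bipartite graph -/
theorem caseA5 {G : SimpleGraph V} {a : V → ℕ} {W J U : Finset V} (hW : W = J ∪ U) (hJ : Ind G J)
    (hUi : Ind G U) (h1 : ∀ F ⊆ J, dl G a W F ≤ 0) (h2 : ∀ F ⊆ U, dl G a W F ≤ 0) {F : Finset V}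
    (hFW : F ⊆ W) (hF : Ind G F) : dl G a W F ≤ 0 := by
  classical
  have e1 : F = (F ∩ J) ∪ (F ∩ U) := by
    rw [← Finset.inter_union_distrib_left, ← hW, Finset.inter_eq_left.2 hFW]
  have k1 : ws a F ≤ ws a (F ∩ J) + ws a (F ∩ U) := by
    have h := ws_union_inter a (F ∩ J) (F ∩ U)
    rw [← e1] at h
    omega
  have hd : Disjoint (nb G (F ∩ J) ∩ W) (nb G (F ∩ U) ∩ W) := by
    rw [Finset.disjoint_left]
    intro v hv hv'
    rw [Finset.mem_inter] at hv hv'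
    obtain ⟨x, hx, hxv⟩ := mem_nb.1 hv.1
    obtain ⟨u, hu, huv⟩ := mem_nb.1 hv'.1
    have hvW := hv.2
    rw [hW] at hvW
    rcases Finset.mem_union.1 hvW with h | h
    · exact hJ x (Finset.mem_inter.1 hx).2 v h hxv
    · exact hUi u (Finset.mem_inter.1 hu).2 v h huv
  have k2 : ws a (nb G (F ∩ J) ∩ W) + ws a (nb G (F ∩ U) ∩ W) ≤ ws a (nb G F ∩ W) := by
    have h : ws a ((nb G (F ∩ J) ∩ W) ∪ (nb G (F ∩ U) ∩ W)) =
        ws a (nb G (F ∩ J) ∩ W) + ws a (nb G (F ∩ U) ∩ W) := Finset.sum_union hd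
    rw [← h]
    refine ws_mono_set a (Finset.union_subset ?_ ?_)
    · exact Finset.inter_subset_inter_right (nb_mono Finset.inter_subset_left)
    · exact Finset.inter_subset_inter_right (nb_mono Finset.inter_subset_left)
  have k3 := h1 (F ∩ J) Finset.inter_subset_right
  have k4 := h2 (F ∩ U) Finset.inter_subset_right
  unfold dl at k3 k4 ⊢
  omega

end Pool.Agent.LIN
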