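import Pool.Agent.Helper23.LIN.CaseA
import Pool.Agent.Helper23.LIN.CaseA3
import Pool.Agent.Helper23.LIN.CB

/-!
# Project LIN, block CAM: Case A

Case A: some nonempty independent `J ⊆ W` has `dl J ≥ 0`; take it minimal for inclusion. `S = nb G J ∩ W`. `dv Y S`
is a cone with apex any `x ∈ J` (`caseA1`). If the second alternative of `caseA2` never holds: `pp_of_rem`. If it
holds for some `U`: `U = S`, `W = J ∪ U` (`caseA3`), `ws a W = 2 * ws a J`, so `t` is odd. If `t ≥ 1` then `Y` is empty by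
`caseA5`. If `t ≤ -1`: `y ∈ U` of `caseA4`, `S' = U.erase y`; `pp_of_rem` for `S'` (the only `U' ⊆ U` with `dl U' > -1` is
`U` itself); `Ex (dv Y S') i` by `mv1` with the vertex `y`: `del (dv Y S') y = dv Y U` is a cone, the link has only
the face `∅`, and `i ≥ 1 - t ≥ 2`.
-/

set_option linter.unusedSectionVars false

namespace Pool.Agent.LIN

open Pool.Agent.LQ Pool.Agent.LQ.T1

variable {V : Type*} [Fintype V] [LinearOrder V] {K : Type*} [Field K]

private theorem exists_min {G : SimpleGraph V} {a : V → ℕ} {W : Finset V}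
    (h : ∃ J ⊆ W, J.Nonempty ∧ Ind G J ∧ 0 ≤ dl G a W J) :
    ∃ J ⊆ W, J.Nonempty ∧ Ind G J ∧ 0 ≤ dl G a W J ∧
      ∀ J' ⊂ J, J'.Nonempty → dl G a W J' ≤ -1 := by
  obtain ⟨J₀, h1, h2, h3, h4⟩ := h
  induction J₀ using Finset.strongInduction with
  | H J ihJ =>
    by_cases hJ : ∀ J' ⊂ J, J'.Nonempty → dl G a W J' ≤ -1
    · exact ⟨J, h1, h2, h3, h4, hJ⟩
    · push Not at hJ
      obtain ⟨J', k1, k2, k3⟩ := hJ
      exact ihJ J' k1 (k1.1.trans h1) k2 (h3.subset k1.1) (by omega)

/-- Case A -/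
theorem caseA {G : SimpleGraph V} (hG : GF G) {a : V → ℕ} {W : Finset V} (ha : ∀ v ∈ W, 1 ≤ a v)
    (ih : ∀ W' ⊂ W, QQ K G a W') (hiso : ∀ x ∈ W, ∃ y ∈ W, G.Adj x y)
    (h : ∃ J ⊆ W, J.Nonempty ∧ Ind G J ∧ 0 ≤ dl G a W J) : PP K G a W := by
  obtain ⟨J, hJW, hJn, hJ, hJ0, hmin⟩ := exists_min h
  intro t ht i hi
  have hnJ : ∀ x ∈ J, x ∉ nb G J := fun x hx hx' => by
    obtain ⟨y, hy, hyx⟩ := mem_nb.1 hx'
    exact hJ y hy x hx hyx
  obtain ⟨x, hx⟩ := hJn
  have hcone : ∀ j : ℕ, Ex K (dv (Y G a W t) (nb G J ∩ W)) j := by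
    intro j
    refine ex_cone x ?_ j
    rintro σ ⟨⟨F, h1, h2, h3, h4⟩, h5⟩
    obtain ⟨h6, h7⟩ := caseA1 hJW hJ hJ0 hmin h2 h3
    refine ⟨⟨(F \ nb G J) ∪ J, ?_, ?_, h6, h4.trans h7⟩, ?_⟩
    · intro v hv
      rcases Finset.mem_insert.1 hv with hv | hv
      · rw [hv]
        exact Finset.mem_union_right _ hx
      · refine Finset.mem_union_left _ (Finset.mem_sdiff.2 ⟨h1 hv, fun hn => ?_⟩)
        exact Finset.disjoint_left.1 h5 hv (Finset.mem_inter.2 ⟨hn, h2 (h1 hv)⟩)
    · exact Finset.union_subset (Finset.sdiff_subset.trans h2) hJW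
    · rw [Finset.disjoint_insert_left]
      exact ⟨fun hn => hnJ x hx (Finset.mem_inter.1 hn).1, h5⟩
  by_cases hU : ∀ U ⊆ nb G J ∩ W, U.Nonempty → Ind G U → dl G a W U ≤ -1
  · exact pp_of_rem ih ht Finset.inter_subset_right hU (fun j _ => hcone j) i hi
  push Not at hU
  obtain ⟨U, hU1, hU2, hU3, hU4⟩ := hU
  obtain ⟨hUS, hUJ, hws⟩ := (caseA2 ha hJW hJ hJ0 hmin hU1 hU3 hU2).resolve_left (not_le.2 hU4)
  have hW : W = J ∪ U := caseA3 hG hJW hJ hU3 hUS hUJ ⟨x, hx⟩ hiso
  have hdis : Disjoint J U := by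
    rw [Finset.disjoint_left]
    intro v hv hv'
    exact hnJ v hv (Finset.mem_inter.1 (hU1 hv')).1
  have hwW : ws a W = ws a J + ws a U := by
    conv_lhs => rw [hW]
    exact Finset.sum_union hdis
  rcases lt_or_ge 0 t with htp | htn
  · refine ex_of_card fun σ hσ _ => ?_
    obtain ⟨F, -, h2, h3, h4⟩ := hσ
    have h5 : dl G a W F ≤ 0 := by
      refine caseA5 hW hJ hU3 ?_ ?_ h2 h3
      · intro F' hF'
        rcases F'.eq_empty_or_nonempty with h0 | h0
        · rw [h0, dl_empty]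
        rcases eq_or_ne F' J with h6 | h6
        · rw [h6]
          unfold dl
          rw [← hUS, hws, sub_self]
        · have := hmin F' (Finset.ssubset_iff_subset_ne.2 ⟨hF', h6⟩) h0
          omega
      · intro F' hF'
        rcases F'.eq_empty_or_nonempty with h0 | h0
        · rw [h0, dl_empty]
        rcases caseA2 ha hJW hJ hJ0 hmin (hF'.trans hU1) (hU3.subset hF') h0 with h6 | ⟨_, h7, h8⟩
        · omega
        · unfold dl
          rw [h7, h8, sub_self]
    omega
  · obtain ⟨y, hy, hyJ⟩ := caseA4 hG hJ hU3 hUJ ⟨x, hx⟩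
    have ht1 : t ≤ -1 := by
      rcases htn.lt_or_eq with h0 | h0
      · omega
      · exfalso
        rw [h0, hwW, hws] at ht
        obtain ⟨k, hk⟩ := ht
        push_cast at hk
        omega
    have hS' : U.erase y ⊆ W := (Finset.erase_subset _ _).trans (hU1.trans Finset.inter_subset_right)
    refine pp_of_rem ih ht hS' ?_ ?_ i hi
    · intro U' hU' hU'n hU'i
      refine (caseA2 ha hJW hJ hJ0 hmin ((hU'.trans (Finset.erase_subset _ _)).trans hU1) hU'i
        hU'n).resolve_right ?_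
      rintro ⟨h1, -⟩
      rw [h1, ← hUS] at hU'
      exact Finset.notMem_erase y U (hU' hy)
    · intro j hj
      refine mv1 (dv_lower (Y_lower G a W t) _) y ?_ ?_
      · rw [del_dv, Finset.insert_erase hy, hUS]
        exact hcone j
      · intro k hk
        refine ex_of_card ?_
        rintro σ ⟨h1, h2, h3⟩ hc
        have hσ : σ = ∅ := by
          rw [Finset.eq_empty_iff_forall_notMem]
          intro v hv
          have hvW : v ∈ W := Y_sub h2 (Finset.mem_insert_of_mem hv)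
          rw [hW, Finset.mem_union] at hvW
          rcases hvW with h4 | h4
          · obtain ⟨y', hy', hadj⟩ := mem_nb.1 (hyJ h4)
            rw [Finset.mem_singleton] at hy'
            rw [hy'] at hadj
            exact Y_ind h2 y (Finset.mem_insert_self _ _) v (Finset.mem_insert_of_mem hv) hadj
          · refine Finset.disjoint_left.1 h3 (Finset.mem_insert_of_mem hv)
              (Finset.mem_erase.2 ⟨?_, h4⟩)
            rintro rfl
            exact h1 hv
        rw [hσ, Finset.card_empty] at hc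
        omega

end Pool.Agent.LIN
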