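import Pool.Agent.Helper23.LIN.Dl

/-!
# Project LIN, block CA1: the combinatorial facts of Case A (caseA1, caseA2)

`J` is a minimal nonempty independent subset of `W` with `dl J ≥ 0`.

`caseA1`. `A = F \ N(J)`, `B = F ∩ N(J)`, `J' = J \ N(B)`, `J'' = J ∩ N(B)`. `A ∪ J` is independent
(`J ∩ N(A) = ∅` as `A ∩ N(J) = ∅`). If `B = ∅`: `a(J \ A) - a(N(J) \ N(A)) ≥ dl J - dl (J ∩ A) ≥ 0` when
`J ∩ A` is a proper subset of `J`, and there is nothing to prove if `J ⊆ A`. If `B ≠ ∅`: `J' ≠ J` so `a(J') ≤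
a(N(J'))` and `a(J'') = a(J) - a(J') ≥ a(N(J)) - a(N(J')) = a(N(J) \ N(J')) ≥ a(B)`. Let `Z' = N(J) \ N(A) \ N(B) \ B`.
Then `dl (A ∪ J) - dl F ≥ [a(J) - a(J ∩ A)] - a(B) - [a(B) + a(Z')] + a(J'')`, because `N(J) \ N(A) \ N(B)
= B ⊔ Z'` and `N(B) \ N(A) \ N(J) ⊇ J''`; and `J ∩ A ⊆ J'` is a proper subset of `J`, so `a(J) - a(J ∩ A) ≥
a(N(J)) - a(N(J ∩ A)) ≥ a(N(J) \ N(A)) ≥ a(B) + a(Z')`. (All neighbourhoods are intersected with `W`.)

`caseA2`. For `U ⊆ N(J) ∩ W` independent nonempty: `J' = J \ N(U)`, `J'' = J ∩ N(U) ≠ ∅`, as before `a(J'') ≥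
a((N(J) \ N(J')) ∩ W) ≥ a(U)` (with `+ 1` if `J' ≠ ∅`) and `N(U) ⊇ J''`. So `dl U ≤ 0`, and if `dl U = 0` then
`J' = ∅`, `N(U) ∩ W = J`, `N(J) ∩ W = U` since all weights are `≥ 1`.
-/

set_option linter.unusedSectionVars false

namespace Pool.Agent.LIN

open Pool.Agent.LQ Pool.Agent.LQ.T1

variable {V : Type*} [Fintype V] [LinearOrder V]

theorem ws_union_disj (a : V → ℕ) {S T : Finset V} (h : Disjoint S T) :
    ws a (S ∪ T) = ws a S + ws a T := Finset.sum_union h

theorem dl_le_of_min {G : SimpleGraph V} {a : V → ℕ} {W J : Finset V}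
    (hJ0 : 0 ≤ dl G a W J) (hmin : ∀ J' ⊂ J, J'.Nonempty → dl G a W J' ≤ -1) {J' : Finset V}
    (h : J' ⊆ J) : dl G a W J' ≤ dl G a W J := by
  rcases J'.eq_empty_or_nonempty with h1 | h1
  · rw [h1, dl_empty]
    exact hJ0
  · by_cases h2 : J' = J
    · rw [h2]
    · have := hmin J' (Finset.ssubset_iff_subset_ne.2 ⟨h, h2⟩) h1
      linarith

theorem caseA1 {G : SimpleGraph V} {a : V → ℕ} {W J : Finset V} (hJW : J ⊆ W) (hJ : Ind G J)
    (hJ0 : 0 ≤ dl G a W J) (hmin : ∀ J' ⊂ J, J'.Nonempty → dl G a W J' ≤ -1) {F : Finset V}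
    (hFW : F ⊆ W) (hF : Ind G F) :
    Ind G ((F \ nb G J) ∪ J) ∧ dl G a W F ≤ dl G a W ((F \ nb G J) ∪ J) := by
  set A := F \ nb G J with hA
  set B := F ∩ nb G J with hB
  have hAJ : ∀ x ∈ A, ∀ y ∈ J, ¬ G.Adj x y := by
    intro x hx y hy hxy
    rw [hA, Finset.mem_sdiff] at hx
    exact hx.2 (mem_nb.2 ⟨y, hy, hxy.symm⟩)
  have hAF : A ⊆ F := Finset.sdiff_subset
  have hBF : B ⊆ F := Finset.inter_subset_left
  refine ⟨?_, ?_⟩
  · intro x hx y hy hxy
    rcases Finset.mem_union.1 hx with h1 | h1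
    · rcases Finset.mem_union.1 hy with h2 | h2
      · exact hF x (hAF h1) y (hAF h2) hxy
      · exact hAJ x h1 y h2 hxy
    · rcases Finset.mem_union.1 hy with h2 | h2
      · exact hAJ y h2 x h1 hxy.symm
      · exact hJ x h1 y h2 hxy
  · set J' := J \ nb G B with hJ'
    set J'' := J ∩ nb G B with hJ''
    set JA := J ∩ A with hJA
    set X1 := ((nb G J ∩ W) \ (nb G A ∩ W)) \ (nb G B ∩ W) with hX1
    set X2 := ((nb G B ∩ W) \ (nb G A ∩ W)) \ (nb G J ∩ W) with hX2
    have h1 : ws a J = ws a J' + ws a J'' := by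
      rw [← ws_union_disj a (Finset.disjoint_sdiff_inter J (nb G B)), Finset.sdiff_union_inter]
    have h2 : ws a (nb G J' ∩ W) + ws a B ≤ ws a (nb G J ∩ W) := by
      have hd : Disjoint (nb G J' ∩ W) B := by
        rw [Finset.disjoint_left]
        intro v hv hvB
        obtain ⟨t, ht, htv⟩ := mem_nb.1 (Finset.mem_inter.1 hv).1
        rw [hJ', Finset.mem_sdiff] at ht
        exact ht.2 (mem_nb.2 ⟨v, hvB, htv.symm⟩)
      rw [← ws_union_disj a hd]
      refine ws_mono_set a ?_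
      intro v hv
      rcases Finset.mem_union.1 hv with h | h
      · rw [Finset.mem_inter] at h ⊢
        exact ⟨nb_mono Finset.sdiff_subset h.1, h.2⟩
      · rw [hB, Finset.mem_inter] at h
        exact Finset.mem_inter.2 ⟨h.2, hFW h.1⟩
    have h3 : ws a (nb G JA ∩ W) + ws a X1 ≤ ws a (nb G J ∩ W) := by
      have hd : Disjoint (nb G JA ∩ W) X1 := by
        rw [Finset.disjoint_left]
        intro v hv hvX
        rw [hX1, Finset.mem_sdiff, Finset.mem_sdiff] at hvX
        rw [Finset.mem_inter] at hv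
        exact hvX.1.2 (Finset.mem_inter.2 ⟨nb_mono Finset.inter_subset_right hv.1, hv.2⟩)
      rw [← ws_union_disj a hd]
      refine ws_mono_set a ?_
      intro v hv
      rcases Finset.mem_union.1 hv with h | h
      · rw [Finset.mem_inter] at h ⊢
        exact ⟨nb_mono Finset.inter_subset_left h.1, h.2⟩
      · rw [hX1, Finset.mem_sdiff, Finset.mem_sdiff] at h
        exact h.1.1
    have h4 : ws a (A ∪ J) + ws a JA = ws a A + ws a J := by
      have := ws_union_inter a A J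
      rw [hJA, Finset.inter_comm J A]
      exact this
    have h5 : ws a F = ws a A + ws a B := by
      rw [← ws_union_disj a (Finset.disjoint_sdiff_inter F (nb G J)), Finset.sdiff_union_inter]
    have h6 : ws a (nb G (A ∪ J) ∩ W) + ws a X2 = ws a (nb G F ∩ W) + ws a X1 := by
      have e1 : nb G (A ∪ J) ∩ W ∪ X2 = nb G F ∩ W ∪ X1 := by
        have hFAB : nb G F = nb G A ∪ nb G B := by
          rw [← nb_union, hA, hB, Finset.sdiff_union_inter]
        rw [nb_union, hFAB]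
        ext v
        simp only [hX1, hX2, Finset.mem_union, Finset.mem_inter, Finset.mem_sdiff]
        tauto
      have d1 : Disjoint (nb G (A ∪ J) ∩ W) X2 := by
        rw [Finset.disjoint_left, nb_union]
        intro v hv hvX
        simp only [hX2, Finset.mem_union, Finset.mem_inter, Finset.mem_sdiff] at hv hvX
        tauto
      have d2 : Disjoint (nb G F ∩ W) X1 := by
        have hFAB : nb G F = nb G A ∪ nb G B := by
          rw [← nb_union, hA, hB, Finset.sdiff_union_inter]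
        rw [Finset.disjoint_left, hFAB]
        intro v hv hvX
        simp only [hX1, Finset.mem_union, Finset.mem_inter, Finset.mem_sdiff] at hv hvX
        tauto
      rw [← ws_union_disj a d1, ← ws_union_disj a d2, e1]
    have h7 : ws a J'' ≤ ws a X2 := by
      refine ws_mono_set a ?_
      intro v hv
      rw [hJ'', Finset.mem_inter] at hv
      rw [hX2, Finset.mem_sdiff, Finset.mem_sdiff, Finset.mem_inter, Finset.mem_inter,
        Finset.mem_inter]
      refine ⟨⟨⟨hv.2, hJW hv.1⟩, ?_⟩, ?_⟩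
      · rintro ⟨h, _⟩
        obtain ⟨t, ht, htv⟩ := mem_nb.1 h
        exact hAJ t ht v hv.1 htv
      · rintro ⟨h, _⟩
        exact hJ.nb_not hv.1 h
    have L1 := dl_le_of_min hJ0 hmin (J' := J') Finset.sdiff_subset
    have L2 := dl_le_of_min hJ0 hmin (J' := JA) Finset.inter_subset_left
    unfold dl at L1 L2 ⊢
    have e1 : (ws a J : ℤ) = ws a J' + ws a J'' := by exact_mod_cast h1
    have e2 : (ws a (nb G J' ∩ W) : ℤ) + ws a B ≤ ws a (nb G J ∩ W) := by exact_mod_cast h2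
    have e3 : (ws a (nb G JA ∩ W) : ℤ) + ws a X1 ≤ ws a (nb G J ∩ W) := by exact_mod_cast h3
    have e4 : (ws a (A ∪ J) : ℤ) + ws a JA = ws a A + ws a J := by exact_mod_cast h4
    have e5 : (ws a F : ℤ) = ws a A + ws a B := by exact_mod_cast h5
    have e6 : (ws a (nb G (A ∪ J) ∩ W) : ℤ) + ws a X2 = ws a (nb G F ∩ W) + ws a X1 := by
      exact_mod_cast h6
    have e7 : (ws a J'' : ℤ) ≤ ws a X2 := by exact_mod_cast h7
    linarith

theorem eq_of_ws_eq {a : V → ℕ} {W S T : Finset V} (ha : ∀ v ∈ W, 1 ≤ a v) (hST : S ⊆ T)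
    (hT : T ⊆ W) (h : ws a T ≤ ws a S) : S = T := by
  refine Finset.Subset.antisymm hST ?_
  intro v hv
  by_contra hvS
  have h1 : ws a (insert v S) ≤ ws a T := ws_mono_set a (Finset.insert_subset hv hST)
  have h2 : ws a (insert v S) = a v + ws a S := Finset.sum_insert hvS
  have h3 := ha v (hT hv)
  omega

theorem caseA2 {G : SimpleGraph V} {a : V → ℕ} {W J : Finset V} (ha : ∀ v ∈ W, 1 ≤ a v) (hJW : J ⊆ W)
    (hJ : Ind G J) (hJ0 : 0 ≤ dl G a W J) (hmin : ∀ J' ⊂ J, J'.Nonempty → dl G a W J' ≤ -1)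
    {U : Finset V} (hU : U ⊆ nb G J ∩ W) (hUi : Ind G U) (hU0 : U.Nonempty) :
    dl G a W U ≤ -1 ∨ (U = nb G J ∩ W ∧ nb G U ∩ W = J ∧ ws a U = ws a J) := by
  have _ := hJ
  have _ := hUi
  have h1 : ws a J = ws a (J \ nb G U) + ws a (J ∩ nb G U) := by
    rw [← ws_union_disj a (Finset.disjoint_sdiff_inter J (nb G U)), Finset.sdiff_union_inter]
  have h2 : ws a (nb G (J \ nb G U) ∩ W) + ws a U ≤ ws a (nb G J ∩ W) := by
    have hd : Disjoint (nb G (J \ nb G U) ∩ W) U := by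
      rw [Finset.disjoint_left]
      intro v hv hvU
      obtain ⟨t, ht, htv⟩ := mem_nb.1 (Finset.mem_inter.1 hv).1
      rw [Finset.mem_sdiff] at ht
      exact ht.2 (mem_nb.2 ⟨v, hvU, htv.symm⟩)
    rw [← ws_union_disj a hd]
    refine ws_mono_set a (Finset.union_subset ?_ hU)
    exact Finset.inter_subset_inter_right (nb_mono Finset.sdiff_subset)
  have h3 : J ∩ nb G U ⊆ nb G U ∩ W := by
    intro v hv
    rw [Finset.mem_inter] at hv ⊢
    exact ⟨hv.2, hJW hv.1⟩
  have h4 : ws a (J ∩ nb G U) ≤ ws a (nb G U ∩ W) := ws_mono_set a h3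
  rcases (J \ nb G U).eq_empty_or_nonempty with h5 | h5
  · by_cases h6 : dl G a W U ≤ -1
    · exact Or.inl h6
    · right
      rw [h5] at h1
      have h0 : ws a (∅ : Finset V) = 0 := Finset.sum_empty
      rw [h0, zero_add] at h1
      have h7 : ws a U ≤ ws a (nb G J ∩ W) := ws_mono_set a hU
      unfold dl at h6 hJ0
      have h8 : ws a (nb G U ∩ W) ≤ ws a U := by omega
      have h9 : ws a (nb G J ∩ W) ≤ ws a J := by omega
      have hJe : J ∩ nb G U = J := by
        rw [Finset.inter_eq_left]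
        exact Finset.sdiff_eq_empty_iff_subset.1 h5
      refine ⟨eq_of_ws_eq ha hU Finset.inter_subset_right (by omega), ?_, by omega⟩
      rw [hJe] at h3
      exact (eq_of_ws_eq ha h3 Finset.inter_subset_right (by omega)).symm
  · left
    have h6 : J \ nb G U ⊂ J := by
      rw [Finset.ssubset_iff_of_subset Finset.sdiff_subset]
      obtain ⟨u, hu⟩ := hU0
      obtain ⟨x, hx, hxu⟩ := mem_nb.1 (Finset.mem_inter.1 (hU hu)).1
      refine ⟨x, hx, fun h => ?_⟩
      exact (Finset.mem_sdiff.1 h).2 (mem_nb.2 ⟨u, hu, hxu.symm⟩)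
    have h7 := hmin _ h6 h5
    unfold dl at h7 hJ0 ⊢
    omega

end Pool.Agent.LIN
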