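import Mathlib

/-!
# Project LIN (MP_e2a5d3_al): chains on the subsets of a linearly ordered finite set

A chain is a function `c : Finset V → K`. `bd` is the boundary operator, `cbd` the coboundary operator,
`ct v` the part of `bd` which removes the vertex `v` and `cn v` the part of `cbd` which adds it. They satisfy
the relations `ct v ∘ ct w = - ct w ∘ ct v`, `cn v ∘ cn w = - cn w ∘ cn v`,
`ct v ∘ cn w + cn w ∘ ct v = (v = w)`.
`Ex K X i`: the reduced homology of the family `X` (normally a simplicial complex) vanishes in dimension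
`i - 1`, that is, every cycle supported on the members of `X` with `i` elements is the boundary of a chain
supported on the members of `X` with `i + 1` elements.
-/

set_option linter.unusedSectionVars false

namespace Pool.Agent.LIN

variable {V : Type*} [Fintype V] [LinearOrder V] {K : Type*} [Field K]

/-- sign of `v` relative to `τ` -/
def sg (K : Type*) [Field K] (v : V) (τ : Finset V) : K := (-1) ^ (τ.filter (· < v)).card

/-- boundary -/
def bd (c : Finset V → K) : Finset V → K := fun τ => ∑ v ∈ τᶜ, sg K v τ * c (insert v τ)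

/-- coboundary -/
def cbd (c : Finset V → K) : Finset V → K := fun σ => ∑ v ∈ σ, sg K v (σ.erase v) * c (σ.erase v)

/-- the part of the boundary which removes `v` -/
def ct (v : V) (c : Finset V → K) : Finset V → K :=
  fun τ => if v ∈ τ then 0 else sg K v τ * c (insert v τ)

/-- the part of the coboundary which adds `v` -/
def cn (v : V) (c : Finset V → K) : Finset V → K :=
  fun σ => if v ∈ σ then sg K v (σ.erase v) * c (σ.erase v) else 0

/-- `c` is a chain supported on the members of `X` with `i` elements -/
def IsCh (X : Set (Finset V)) (i : ℕ) (c : Finset V → K) : Prop :=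
  ∀ σ, c σ ≠ 0 → σ ∈ X ∧ σ.card = i

/-- vanishing of the reduced homology of `X` in dimension `i - 1` -/
def Ex (K : Type*) [Field K] (X : Set (Finset V)) (i : ℕ) : Prop :=
  ∀ c : Finset V → K, IsCh X i c → bd c = 0 → ∃ d, IsCh X (i + 1) d ∧ bd d = c

theorem sg_mul_self (v : V) (τ : Finset V) : sg K v τ * sg K v τ = 1 := by
  unfold sg
  rw [← mul_pow]
  simp

theorem sg_ne_zero (v : V) (τ : Finset V) : sg K v τ ≠ 0 := by
  unfold sg
  exact pow_ne_zero _ (by simp)

theorem sg_insert (v w : V) (τ : Finset V) (hw : w ∉ τ) :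
    sg K v (insert w τ) = if w < v then - sg K v τ else sg K v τ := by
  unfold sg
  rw [Finset.filter_insert]
  split_ifs with h
  · rw [Finset.card_insert_of_notMem (fun h' => hw (Finset.mem_of_mem_filter _ h')), pow_succ]
    ring
  · rfl

/-- the sign rule -/
theorem sg_anti {v w : V} (h : v ≠ w) {τ : Finset V} (hv : v ∉ τ) (hw : w ∉ τ) :
    sg K v τ * sg K w (insert v τ) = -(sg K w τ * sg K v (insert w τ)) := by
  rw [sg_insert w v τ hv, sg_insert v w τ hw]
  rcases lt_trichotomy v w with h1 | h1 | h1
  · rw [if_pos h1, if_neg (not_lt.2 h1.le)]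
    ring
  · exact absurd h1 h
  · rw [if_neg (not_lt.2 h1.le), if_pos h1]
    ring

theorem bd_eq (c : Finset V → K) : bd c = ∑ v, ct v c := by
  funext τ
  rw [Finset.sum_apply]
  unfold bd ct
  rw [← Finset.sum_filter_add_sum_filter_not Finset.univ (fun v => v ∈ τ)]
  rw [Finset.sum_eq_zero (s := Finset.univ.filter (fun v => v ∈ τ)), zero_add]
  · refine Finset.sum_congr ?_ ?_
    · ext v
      simp
    · intro v hv
      rw [Finset.mem_filter] at hv
      rw [if_neg hv.2]
  · intro v hv
    rw [Finset.mem_filter] at hv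
    rw [if_pos hv.2]

theorem cbd_eq (c : Finset V → K) : cbd c = ∑ v, cn v c := by
  funext τ
  rw [Finset.sum_apply]
  unfold cbd cn
  rw [← Finset.sum_filter_add_sum_filter_not Finset.univ (fun v => v ∈ τ)]
  rw [Finset.sum_eq_zero (s := Finset.univ.filter (fun v => ¬ v ∈ τ)), add_zero]
  · refine Finset.sum_congr ?_ ?_
    · ext v
      simp
    · intro v hv
      rw [if_pos (Finset.mem_filter.1 hv).2]
  · intro v hv
    rw [Finset.mem_filter] at hv
    rw [if_neg hv.2]

theorem ct_add (v : V) (c d : Finset V → K) : ct v (c + d) = ct v c + ct v d := by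
  funext τ
  simp only [ct, Pi.add_apply]
  split_ifs <;> ring

theorem ct_smul (v : V) (a : K) (c : Finset V → K) : ct v (a • c) = a • ct v c := by
  funext τ
  simp only [ct, Pi.smul_apply, smul_eq_mul]
  split_ifs <;> ring

theorem cn_add (v : V) (c d : Finset V → K) : cn v (c + d) = cn v c + cn v d := by
  funext τ
  simp only [cn, Pi.add_apply]
  split_ifs <;> ring

theorem cn_smul (v : V) (a : K) (c : Finset V → K) : cn v (a • c) = a • cn v c := by
  funext τ
  simp only [cn, Pi.smul_apply, smul_eq_mul]
  split_ifs <;> ring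

/-- `ct v` as a linear map -/
def ctL (v : V) : (Finset V → K) →ₗ[K] (Finset V → K) where
  toFun := ct v
  map_add' := ct_add v
  map_smul' := ct_smul v

/-- `cn v` as a linear map -/
def cnL (v : V) : (Finset V → K) →ₗ[K] (Finset V → K) where
  toFun := cn v
  map_add' := cn_add v
  map_smul' := cn_smul v

/-- `bd` as a linear map -/
def bdL : (Finset V → K) →ₗ[K] (Finset V → K) := ∑ v : V, ctL v

/-- `cbd` as a linear map -/
def cbdL : (Finset V → K) →ₗ[K] (Finset V → K) := ∑ v : V, cnL v

theorem ctL_apply (v : V) (c : Finset V → K) : ctL v c = ct v c := rfl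
theorem cnL_apply (v : V) (c : Finset V → K) : cnL v c = cn v c := rfl

theorem bdL_apply (c : Finset V → K) : bdL c = bd c := by
  unfold bdL
  rw [LinearMap.sum_apply, bd_eq]
  rfl

theorem cbdL_apply (c : Finset V → K) : cbdL c = cbd c := by
  unfold cbdL
  rw [LinearMap.sum_apply, cbd_eq]
  rfl

theorem bd_add (c d : Finset V → K) : bd (c + d) = bd c + bd d := by
  simp only [← bdL_apply, map_add]

theorem bd_sub (c d : Finset V → K) : bd (c - d) = bd c - bd d := by
  simp only [← bdL_apply, map_sub]

theorem bd_neg (c : Finset V → K) : bd (-c) = -bd c := by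
  simp only [← bdL_apply, map_neg]

theorem bd_smul (a : K) (c : Finset V → K) : bd (a • c) = a • bd c := by
  simp only [← bdL_apply, map_smul]

theorem bd_zero : bd (0 : Finset V → K) = 0 := by
  simp only [← bdL_apply, map_zero]

theorem cbd_add (c d : Finset V → K) : cbd (c + d) = cbd c + cbd d := by
  simp only [← cbdL_apply, map_add]

theorem cbd_sub (c d : Finset V → K) : cbd (c - d) = cbd c - cbd d := by
  simp only [← cbdL_apply, map_sub]

theorem cbd_neg (c : Finset V → K) : cbd (-c) = -cbd c := by
  simp only [← cbdL_apply, map_neg]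

theorem cbd_smul (a : K) (c : Finset V → K) : cbd (a • c) = a • cbd c := by
  simp only [← cbdL_apply, map_smul]

theorem cbd_zero : cbd (0 : Finset V → K) = 0 := by
  simp only [← cbdL_apply, map_zero]

theorem ct_sub (v : V) (c d : Finset V → K) : ct v (c - d) = ct v c - ct v d := by
  simp only [← ctL_apply, map_sub]

theorem ct_zero (v : V) : ct v (0 : Finset V → K) = 0 := by
  simp only [← ctL_apply, map_zero]

theorem cn_sub (v : V) (c d : Finset V → K) : cn v (c - d) = cn v c - cn v d := by
  simp only [← cnL_apply, map_sub]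

theorem cn_zero (v : V) : cn v (0 : Finset V → K) = 0 := by
  simp only [← cnL_apply, map_zero]

theorem ct_ct_self (v : V) (c : Finset V → K) : ct v (ct v c) = 0 := by
  funext τ
  simp only [ct, Pi.zero_apply]
  split_ifs with h h'
  · rfl
  · ring
  · exact absurd (Finset.mem_insert_self v τ) h'

theorem cn_cn_self (v : V) (c : Finset V → K) : cn v (cn v c) = 0 := by
  funext τ
  simp only [cn, Pi.zero_apply]
  split_ifs with h h'
  · exact absurd h' (Finset.notMem_erase v τ)
  · ring
  · rfl

theorem ct_ct {v w : V} (h : v ≠ w) (c : Finset V → K) : ct v (ct w c) = - ct w (ct v c) := by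
  funext τ
  simp only [ct, Pi.neg_apply]
  by_cases hv : v ∈ τ
  · rw [if_pos hv]
    by_cases hw : w ∈ τ
    · rw [if_pos hw, neg_zero]
    · rw [if_neg hw, if_pos (Finset.mem_insert_of_mem hv)]
      ring
  · rw [if_neg hv]
    by_cases hw : w ∈ τ
    · rw [if_pos hw, if_pos (Finset.mem_insert_of_mem hw)]
      ring
    · have h1 : w ∉ insert v τ := by
        rw [Finset.mem_insert]
        rintro (h2 | h2)
        · exact h h2.symm
        · exact hw h2
      have h2 : v ∉ insert w τ := by
        rw [Finset.mem_insert]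
        rintro (h2 | h2)
        · exact h h2
        · exact hv h2
      rw [if_neg hw, if_neg h1, if_neg h2, ← mul_assoc, ← mul_assoc, sg_anti h hv hw,
        Finset.insert_comm w v τ]
      ring

theorem cn_cn {v w : V} (h : v ≠ w) (c : Finset V → K) : cn v (cn w c) = - cn w (cn v c) := by
  funext τ
  simp only [cn, Pi.neg_apply]
  by_cases hv : v ∈ τ
  · rw [if_pos hv]
    by_cases hw : w ∈ τ
    · have h1 : w ∈ τ.erase v := Finset.mem_erase.2 ⟨h.symm, hw⟩
      have h2 : v ∈ τ.erase w := Finset.mem_erase.2 ⟨h, hv⟩
      rw [if_pos hw, if_pos h1, if_pos h2]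
      set ρ := (τ.erase v).erase w with hρ
      have hρ' : (τ.erase w).erase v = ρ := by rw [hρ, Finset.erase_right_comm]
      have hvρ : v ∉ ρ := by
        rw [← hρ']
        exact Finset.notMem_erase _ _
      have hwρ : w ∉ ρ := by
        rw [hρ]
        exact Finset.notMem_erase _ _
      have e1 : τ.erase v = insert w ρ := by
        rw [hρ, Finset.insert_erase h1]
      have e2 : τ.erase w = insert v ρ := by
        rw [← hρ', Finset.insert_erase h2]
      rw [hρ', e1, e2]
      have := sg_anti (K := K) h hvρ hwρ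
      calc sg K v (insert w ρ) * (sg K w ρ * c ρ) = (sg K w ρ * sg K v (insert w ρ)) * c ρ := by ring
        _ = -((sg K v ρ * sg K w (insert v ρ)) * c ρ) := by
            rw [this]
            ring
        _ = _ := by ring
    · rw [if_neg hw]
      have : w ∉ τ.erase v := fun h' => hw (Finset.mem_of_mem_erase h')
      rw [if_neg this]
      ring
  · rw [if_neg hv]
    by_cases hw : w ∈ τ
    · have : v ∉ τ.erase w := fun h' => hv (Finset.mem_of_mem_erase h')
      rw [if_pos hw, if_neg this]
      ring
    · rw [if_neg hw]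
      ring

theorem ct_cn {v w : V} (h : v ≠ w) (c : Finset V → K) : ct v (cn w c) = - cn w (ct v c) := by
  funext τ
  simp only [ct, cn, Pi.neg_apply]
  by_cases hv : v ∈ τ
  · rw [if_pos hv]
    by_cases hw : w ∈ τ
    · have h2 : v ∈ τ.erase w := Finset.mem_erase.2 ⟨h, hv⟩
      rw [if_pos hw, if_pos h2]
      ring
    · rw [if_neg hw]
      ring
  · rw [if_neg hv]
    by_cases hw : w ∈ τ
    · have h2 : v ∉ τ.erase w := fun h' => hv (Finset.mem_of_mem_erase h')
      rw [if_pos (Finset.mem_insert_of_mem hw), if_pos hw, if_neg h2]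
      set ρ := τ.erase w with hρ
      have hwρ : w ∉ ρ := Finset.notMem_erase _ _
      have e1 : τ = insert w ρ := by rw [hρ, Finset.insert_erase hw]
      have e2 : (insert v τ).erase w = insert v ρ := by
        rw [Finset.erase_insert_of_ne h, hρ]
      rw [e2]
      have hvρ : v ∉ ρ := h2
      have := sg_anti (K := K) h hvρ hwρ
      rw [e1]
      have s1 := sg_mul_self (K := K) w ρ
      have s2 := sg_mul_self (K := K) v ρ
      have s3 : sg K v (insert w ρ) = - (sg K w ρ * sg K v ρ * sg K w (insert v ρ)) := by
        calc sg K v (insert w ρ) = (sg K w ρ * sg K w ρ) * sg K v (insert w ρ) := by rw [s1, one_mul]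
          _ = sg K w ρ * (sg K w ρ * sg K v (insert w ρ)) := by ring
          _ = sg K w ρ * (-(sg K v ρ * sg K w (insert v ρ))) := by rw [this, neg_neg]
          _ = _ := by ring
      have s4 := sg_mul_self (K := K) w (insert v ρ)
      rw [s3]
      calc -(sg K w ρ * sg K v ρ * sg K w (insert v ρ)) * (sg K w (insert v ρ) * c (insert v ρ))
          = -(sg K w ρ * sg K v ρ * (sg K w (insert v ρ) * sg K w (insert v ρ)) * c (insert v ρ)) := by
            ring
        _ = _ := by
            rw [s4]
            ring
    · have h2 : w ∉ insert v τ := by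
        rw [Finset.mem_insert]
        rintro (h2 | h2)
        · exact h h2.symm
        · exact hw h2
      rw [if_neg h2, if_neg hw]
      ring

theorem ct_cn_self (v : V) (c : Finset V → K) : ct v (cn v c) + cn v (ct v c) = c := by
  funext τ
  simp only [ct, cn, Pi.add_apply]
  by_cases hv : v ∈ τ
  · rw [if_pos hv, if_pos hv, if_neg (Finset.notMem_erase v τ), Finset.insert_erase hv, ← mul_assoc,
      sg_mul_self]
    ring
  · rw [if_neg hv, if_neg hv, if_pos (Finset.mem_insert_self v τ), Finset.erase_insert hv, ← mul_assoc,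
      sg_mul_self]
    ring

theorem bd_ct (v : V) (c : Finset V → K) : bd (ct v c) = - ct v (bd c) := by
  rw [bd_eq, bd_eq, ← ctL_apply, ← ctL_apply, map_sum, ← Finset.sum_neg_distrib]
  refine Finset.sum_congr rfl fun w _ => ?_
  rw [ctL_apply, ctL_apply]
  by_cases h : w = v
  · subst h
    rw [ct_ct_self, neg_zero]
  · exact ct_ct h c

theorem bd_cn (v : V) (c : Finset V → K) : bd (cn v c) = c - cn v (bd c) := by
  rw [eq_sub_iff_add_eq, bd_eq, bd_eq, ← cnL_apply, ← cnL_apply, map_sum, ← Finset.sum_add_distrib]
  rw [Finset.sum_eq_single v]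
  · rw [cnL_apply, cnL_apply, ct_cn_self]
  · intro w _ h
    rw [cnL_apply, cnL_apply, ct_cn h, neg_add_cancel]
  · intro h
    exact absurd (Finset.mem_univ v) h

theorem cbd_cn (v : V) (c : Finset V → K) : cbd (cn v c) = - cn v (cbd c) := by
  rw [cbd_eq, cbd_eq, ← cnL_apply, ← cnL_apply, map_sum, ← Finset.sum_neg_distrib]
  refine Finset.sum_congr rfl fun w _ => ?_
  rw [cnL_apply, cnL_apply]
  by_cases h : w = v
  · subst h
    rw [cn_cn_self, neg_zero]
  · exact cn_cn h c

theorem cbd_ct (v : V) (c : Finset V → K) : cbd (ct v c) = c - ct v (cbd c) := by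
  rw [eq_sub_iff_add_eq, cbd_eq, cbd_eq, ← ctL_apply, ← ctL_apply, map_sum, ← Finset.sum_add_distrib]
  rw [Finset.sum_eq_single v]
  · rw [ctL_apply, ctL_apply, add_comm, ct_cn_self]
  · intro w _ h
    rw [ctL_apply, ctL_apply, ct_cn (Ne.symm h), add_neg_cancel]
  · intro h
    exact absurd (Finset.mem_univ v) h

theorem bd_bd (c : Finset V → K) : bd (bd c) = 0 := by
  have key : ∀ s : Finset V, (∑ v ∈ s, ctL v) (∑ v ∈ s, ctL (K := K) v c) = 0 := by
    intro s
    induction s using Finset.induction_on with
    | empty => simp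
    | insert a s ha ih =>
      rw [Finset.sum_insert ha, Finset.sum_insert ha, LinearMap.add_apply, map_add, map_add, ih]
      have h1 : ctL (K := K) a (ctL a c) = 0 := ct_ct_self a c
      rw [h1, zero_add, add_zero, LinearMap.sum_apply, map_sum, ← Finset.sum_add_distrib]
      refine Finset.sum_eq_zero fun w hw => ?_
      have : a ≠ w := fun h => ha (h ▸ hw)
      have h2 : ctL (K := K) a (ctL w c) = - ctL w (ctL a c) := ct_ct this c
      rw [h2, neg_add_cancel]
  rw [bd_eq c, ← bdL_apply]
  exact key Finset.univ

theorem cbd_cbd (c : Finset V → K) : cbd (cbd c) = 0 := by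
  have key : ∀ s : Finset V, (∑ v ∈ s, cnL v) (∑ v ∈ s, cnL (K := K) v c) = 0 := by
    intro s
    induction s using Finset.induction_on with
    | empty => simp
    | insert a s ha ih =>
      rw [Finset.sum_insert ha, Finset.sum_insert ha, LinearMap.add_apply, map_add, map_add, ih]
      have h1 : cnL (K := K) a (cnL a c) = 0 := cn_cn_self a c
      rw [h1, zero_add, add_zero, LinearMap.sum_apply, map_sum, ← Finset.sum_add_distrib]
      refine Finset.sum_eq_zero fun w hw => ?_
      have : a ≠ w := fun h => ha (h ▸ hw)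
      have h2 : cnL (K := K) a (cnL w c) = - cnL w (cnL a c) := cn_cn this c
      rw [h2, neg_add_cancel]
  rw [cbd_eq c, ← cbdL_apply]
  exact key Finset.univ

end Pool.Agent.LIN
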