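import Pool.Agent.Helper23.LIN.Chain
import Pool.Agent.Helper29.T1.Hall

/-!
# Project LIN (MP_e2a5d3_al): definitions

Graph side. `G` is a graph on `V`, `a : V → ℕ` are weights, `W : Finset V` (we work in the induced subgraph
`G[W]`). `dl G a W F = a(F) - a(N(F) ∩ W)`. `Y G a W t` is the simplicial complex generated by the independent
sets `F ⊆ W` with `dl G a W F ≥ t`. `MemP G q m`: the monomial `x^m` is in `I(G)^q`.
`Stp Pr W b f`: the complex of the `τ ⊆ W` such that `b + ∑_{v ∈ τ} f v e_v` satisfies `Pr` (`Pr` is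
the property of not being in a monomial ideal); for `f = 1` these are the complexes which compute the
multigraded Betti numbers, for `f` large the degree complexes.
`KF M c`: the upper Koszul complex of the monomial ideal with exponents `M` in the multidegree `c`.

Algebra side. `S = K[x_v]`, `M` a submodule of `ι → S`. A Koszul chain is a function `z` from the subsets of
`V` to `M`; `kbd` is the Koszul differential. `KCh M i e z`: `z` is a Koszul `i`-chain with coefficients
in `M`, homogeneous of degree `e`. `LinKosAt M d i`: the Koszul homology `H_i(x; M)` vanishes in the degrees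
in which the coefficients have degree `> d`. `LinResM M d`: `M` has a linear free resolution, generated in
degree `d`. `LinRes I d`: the same for an ideal `I`.
-/

set_option linter.unusedSectionVars false

namespace Pool.Agent.LIN

open MvPolynomial Pool.Agent.LQ Pool.Agent.LQ.T1

section top

variable {V : Type*} [Fintype V] [LinearOrder V]

/-- deletion of a vertex -/
def del (X : Set (Finset V)) (v : V) : Set (Finset V) := {σ | v ∉ σ ∧ σ ∈ X}

/-- link of a vertex -/
def lk (X : Set (Finset V)) (v : V) : Set (Finset V) := {σ | v ∉ σ ∧ insert v σ ∈ X}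

/-- `D ∪ v * L` -/
def jn (D L : Set (Finset V)) (v : V) : Set (Finset V) :=
  {σ | (v ∉ σ ∧ σ ∈ D) ∨ (v ∈ σ ∧ σ.erase v ∈ L)}

/-- deletion of a set of vertices -/
def dv (X : Set (Finset V)) (S : Finset V) : Set (Finset V) := {σ | σ ∈ X ∧ Disjoint σ S}

/-- `a(F) - a(N(F) ∩ W)` -/
noncomputable def dl (G : SimpleGraph V) (a : V → ℕ) (W F : Finset V) : ℤ :=
  (ws a F : ℤ) - ws a (nb G F ∩ W)

/-- the complex generated by the independent sets `F ⊆ W` with `dl G a W F ≥ t` -/
def Y (G : SimpleGraph V) (a : V → ℕ) (W : Finset V) (t : ℤ) : Set (Finset V) :=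
  {F | ∃ F', F ⊆ F' ∧ F' ⊆ W ∧ Ind G F' ∧ t ≤ dl G a W F'}

/-- the monomial `x^m` is in `I(G)^q` -/
def MemP (G : SimpleGraph V) (q : ℕ) (m : V → ℕ) : Prop := ∃ u ∈ P G q, ∀ v, u v ≤ m v

/-- the complex of the `τ ⊆ W` such that `b + ∑_{v ∈ τ} f v e_v` satisfies `Pr` -/
def Stp (Pr : (V → ℕ) → Prop) (W : Finset V) (b f : V → ℕ) : Set (Finset V) :=
  {τ | τ ⊆ W ∧ Pr (fun v => b v + if v ∈ τ then f v else 0)}

/-- the upper Koszul complex in the multidegree `c` -/
def KF (M : Set (V → ℕ)) (c : V → ℕ) : Set (Finset V) :=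
  {σ | (∀ v ∈ σ, 1 ≤ c v) ∧ (fun v => c v - if v ∈ σ then 1 else 0) ∈ M}

/-- condition on the complexes `Stp` with constant step `s` -/
def StpC (K : Type*) [Field K] (Pr : (V → ℕ) → Prop) (s ρ : ℕ) : Prop :=
  ∀ (W : Finset V) (b : V → ℕ), (∀ v, v ∉ W → b v = 0) → ∀ i : ℕ, ρ ≤ ws b W + i →
    Ex K (Stp Pr W b (fun _ => s)) i

/-- condition on the upper Koszul complexes (Castelnuovo-Mumford regularity at most `ρ`) -/
def KFC (K : Type*) [Field K] (M : Set (V → ℕ)) (ρ : ℕ) : Prop :=
  ∀ (c : V → ℕ) (j : ℕ), ρ + j < ws c Finset.univ → Ex K (KF M c) j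

end top

section alg

variable {V : Type*} {K : Type*} [Field K] {ι : Type*}

/-- `M` is a graded submodule of `ι → S` -/
def Grd (M : Submodule (MvPolynomial V K) (ι → MvPolynomial V K)) : Prop :=
  ∀ f ∈ M, ∀ e : ℕ, (fun k => homogeneousComponent e (f k)) ∈ M

/-- syzygies -/
noncomputable def syz {n : ℕ} (g : Fin n → ι → MvPolynomial V K) :
    Submodule (MvPolynomial V K) (Fin n → MvPolynomial V K) :=
  LinearMap.ker (Fintype.linearCombination (MvPolynomial V K) g)

theorem mem_syz {n : ℕ} (g : Fin n → ι → MvPolynomial V K) (v : Fin n → MvPolynomial V K) :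
    v ∈ syz g ↔ ∑ k, v k • g k = 0 := by
  unfold syz
  rw [LinearMap.mem_ker, Fintype.linearCombination_apply]

/-- an ideal as a submodule of `Unit → S` -/
noncomputable def ofIdeal (I : Ideal (MvPolynomial V K)) :
    Submodule (MvPolynomial V K) (Unit → MvPolynomial V K) :=
  Submodule.comap (LinearMap.proj ()) I

theorem mem_ofIdeal (I : Ideal (MvPolynomial V K)) (f : Unit → MvPolynomial V K) :
    f ∈ ofIdeal I ↔ f () ∈ I := Iff.rfl

/-- `M` has a linear free resolution, generated in degree `d` -/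
def LinResM (M : Submodule (MvPolynomial V K) (ι → MvPolynomial V K)) (d : ℕ) : Prop :=
  ∃ (β : ℕ → ℕ) (g : Fin (β 0) → ι → MvPolynomial V K)
    (A : ∀ i, Matrix (Fin (β i)) (Fin (β (i + 1))) (MvPolynomial V K)),
    (∀ k j, (g k j).IsHomogeneous d) ∧ Submodule.span (MvPolynomial V K) (Set.range g) = M ∧
    (∀ i j k, (A i j k).IsHomogeneous 1) ∧
    (∀ v : Fin (β 0) → MvPolynomial V K, ∑ k, v k • g k = 0 ↔ ∃ w, (A 0).mulVec w = v) ∧
    ∀ i (v : Fin (β (i + 1)) → MvPolynomial V K), (A i).mulVec v = 0 ↔ ∃ w, (A (i + 1)).mulVec w = v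

/-- the ideal `I` is generated by forms of degree `d` and has a linear free resolution -/
def LinRes (I : Ideal (MvPolynomial V K)) (d : ℕ) : Prop :=
  ∃ (β : ℕ → ℕ) (g : Fin (β 0) → MvPolynomial V K)
    (A : ∀ i, Matrix (Fin (β i)) (Fin (β (i + 1))) (MvPolynomial V K)),
    (∀ k, (g k).IsHomogeneous d) ∧ Ideal.span (Set.range g) = I ∧
    (∀ i j k, (A i j k).IsHomogeneous 1) ∧
    (∀ v : Fin (β 0) → MvPolynomial V K, ∑ k, v k * g k = 0 ↔ ∃ w, (A 0).mulVec w = v) ∧
    ∀ i (v : Fin (β (i + 1)) → MvPolynomial V K), (A i).mulVec v = 0 ↔ ∃ w, (A (i + 1)).mulVec w = v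

variable [Fintype V] [LinearOrder V]

/-- Koszul differential -/
noncomputable def kbd (z : Finset V → ι → MvPolynomial V K) : Finset V → ι → MvPolynomial V K :=
  fun τ k => ∑ v ∈ τᶜ, C (sg K v τ) * X v * z (insert v τ) k

/-- homogeneous Koszul `i`-chains with coefficients in `M` of degree `e` -/
def KCh (M : Submodule (MvPolynomial V K) (ι → MvPolynomial V K)) (i e : ℕ)
    (z : Finset V → ι → MvPolynomial V K) : Prop :=
  ∀ σ, (σ.card ≠ i → z σ = 0) ∧ z σ ∈ M ∧ ∀ k, (z σ k).IsHomogeneous e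

/-- `H_i(x; M)` vanishes in the degrees in which the coefficients have degree `> d` -/
def LinKosAt (M : Submodule (MvPolynomial V K) (ι → MvPolynomial V K)) (d i : ℕ) : Prop :=
  ∀ e, d ≤ e → ∀ z, KCh M i (e + 1) z → kbd z = 0 → ∃ w, KCh M (i + 1) e w ∧ kbd w = z

/-- the Koszul homology of `M` is concentrated in the linear strand of degree `d` -/
def LinKos (M : Submodule (MvPolynomial V K) (ι → MvPolynomial V K)) (d : ℕ) : Prop :=
  (∀ e < d, ∀ f ∈ M, (∀ k, (f k).IsHomogeneous e) → f = 0) ∧ ∀ i, LinKosAt M d i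

end alg

end Pool.Agent.LIN
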