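import Pool.Agent.Helper23.LIN.Defs

/-!
# Project LIN, block DL: the function `dl` and the link of a vertex in `Y`

`dl_insert`: `nb (insert y U) ∩ W = (nb {y} ∩ W) ⊔ (nb U ∩ W_y)`, `W_y = W \ insert y (nb {y})`, for `U ⊆ W_y`,
`U` independent (then `y ∉ nb U`).
`lk_Y`: `F` is in the link iff some independent `F' ∋ y`, `F' ⊇ F` has `dl F' ≥ t`; take `F'' = F'.erase y`.
-/

set_option linter.unusedSectionVars false

namespace Pool.Agent.LIN

open Pool.Agent.LQ Pool.Agent.LQ.T1

variable {V : Type*} [Fintype V] [LinearOrder V]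

theorem Y_lower (G : SimpleGraph V) (a : V → ℕ) (W : Finset V) (t : ℤ) : IsLowerSet (Y G a W t) := by
  intro σ τ h hσ
  obtain ⟨F', h1, h2⟩ := hσ
  exact ⟨F', le_trans h h1, h2⟩

theorem dv_lower {X : Set (Finset V)} (hX : IsLowerSet X) (S : Finset V) : IsLowerSet (dv X S) := by
  intro σ τ h hσ
  exact ⟨hX h hσ.1, Finset.disjoint_of_subset_left h hσ.2⟩

theorem dl_empty (G : SimpleGraph V) (a : V → ℕ) (W : Finset V) : dl G a W ∅ = 0 := by
  unfold dl
  rw [nb_empty]
  simp [ws]

theorem sub_link_y {G : SimpleGraph V} {W : Finset V} {y : V} {U : Finset V}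
    (hU : U ⊆ W \ insert y (nb G {y})) {u : V} (hu : u ∈ U) : u ∈ W ∧ u ≠ y ∧ ¬ G.Adj y u := by
  have := hU hu
  rw [Finset.mem_sdiff, Finset.mem_insert, not_or, mem_nb] at this
  refine ⟨this.1, this.2.1, fun h => this.2.2 ⟨y, Finset.mem_singleton_self y, h⟩⟩

theorem mem_link {G : SimpleGraph V} {W : Finset V} {y v : V} :
    v ∈ W \ insert y (nb G {y}) ↔ v ∈ W ∧ v ≠ y ∧ ¬ G.Adj y v := by
  rw [Finset.mem_sdiff, Finset.mem_insert, not_or, mem_nb]
  simp

theorem dl_insert {G : SimpleGraph V} {a : V → ℕ} {W : Finset V} {y : V} (hy : y ∈ W) {U : Finset V}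
    (hU : U ⊆ W \ insert y (nb G {y})) (hUi : Ind G U) :
    dl G a W (insert y U) = dl G a W {y} + dl G a (W \ insert y (nb G {y})) U := by
  have _ := hy
  have _ := hUi
  have hyU : y ∉ U := fun h => (sub_link_y hU h).2.1 rfl
  have e : nb G (insert y U) ∩ W =
      (nb G {y} ∩ W) ∪ (nb G U ∩ (W \ insert y (nb G {y}))) := by
    ext v
    rw [Finset.mem_inter, Finset.mem_union, Finset.mem_inter, Finset.mem_inter, mem_nb, mem_nb,
      mem_nb, mem_link]
    constructor
    · rintro ⟨⟨t, ht, htv⟩, hvW⟩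
      by_cases hv : G.Adj y v
      · exact Or.inl ⟨⟨y, Finset.mem_singleton_self y, hv⟩, hvW⟩
      · have htU : t ∈ U := by
          rcases Finset.mem_insert.1 ht with h | h
          · rw [h] at htv
            exact absurd htv hv
          · exact h
        refine Or.inr ⟨⟨t, htU, htv⟩, hvW, ?_, hv⟩
        rintro rfl
        exact (sub_link_y hU htU).2.2 htv.symm
    · rintro (⟨⟨t, ht, htv⟩, hvW⟩ | ⟨⟨t, ht, htv⟩, hvW, _, _⟩)
      · rw [Finset.mem_singleton] at ht
        exact ⟨⟨t, by rw [ht]; exact Finset.mem_insert_self _ _, htv⟩, hvW⟩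
      · exact ⟨⟨t, Finset.mem_insert_of_mem ht, htv⟩, hvW⟩
  have hdisj : Disjoint (nb G {y} ∩ W) (nb G U ∩ (W \ insert y (nb G {y}))) := by
    rw [Finset.disjoint_left]
    intro v hv hv'
    rw [Finset.mem_inter] at hv hv'
    have h1 := (mem_link.1 hv'.2).2.2
    obtain ⟨t, ht, htv⟩ := mem_nb.1 hv.1
    rw [Finset.mem_singleton] at ht
    rw [ht] at htv
    exact h1 htv
  unfold dl
  rw [e]
  have h1 : ws a (insert y U) = a y + ws a U := Finset.sum_insert hyU
  have h2 : ws a ((nb G {y} ∩ W) ∪ (nb G U ∩ (W \ insert y (nb G {y})))) =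
      ws a (nb G {y} ∩ W) + ws a (nb G U ∩ (W \ insert y (nb G {y}))) := Finset.sum_union hdisj
  have h3 : ws a {y} = a y := Finset.sum_singleton _ _
  rw [h1, h2, h3]
  push_cast
  ring

theorem ws_link {G : SimpleGraph V} {a : V → ℕ} {W : Finset V} {y : V} (hy : y ∈ W) :
    (ws a (W \ insert y (nb G {y})) : ℤ) = ws a W - a y - ws a (nb G {y} ∩ W) := by
  have e : W = insert y ((W \ insert y (nb G {y})) ∪ (nb G {y} ∩ W)) := by
    ext v
    rw [Finset.mem_insert, Finset.mem_union, mem_link, Finset.mem_inter, mem_nb]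
    constructor
    · intro hv
      by_cases h1 : v = y
      · exact Or.inl h1
      · right
        by_cases h2 : G.Adj y v
        · exact Or.inr ⟨⟨y, Finset.mem_singleton_self y, h2⟩, hv⟩
        · exact Or.inl ⟨hv, h1, h2⟩
    · rintro (rfl | ⟨h, _⟩ | ⟨_, h⟩)
      · exact hy
      · exact h
      · exact h
  have h1 : y ∉ (W \ insert y (nb G {y})) ∪ (nb G {y} ∩ W) := by
    rw [Finset.mem_union, not_or, mem_link, Finset.mem_inter, mem_nb]
    refine ⟨fun h => h.2.1 rfl, ?_⟩
    rintro ⟨⟨t, ht, h⟩, _⟩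
    rw [Finset.mem_singleton] at ht
    rw [ht] at h
    exact G.loopless.irrefl _ h
  have hdisj : Disjoint (W \ insert y (nb G {y})) (nb G {y} ∩ W) := by
    rw [Finset.disjoint_left]
    intro v hv hv'
    rw [Finset.mem_inter] at hv'
    have h1 := (mem_link.1 hv).2.2
    obtain ⟨t, ht, htv⟩ := mem_nb.1 hv'.1
    rw [Finset.mem_singleton] at ht
    rw [ht] at htv
    exact h1 htv
  have h2 : ws a W = a y + (ws a (W \ insert y (nb G {y})) + ws a (nb G {y} ∩ W)) := by
    conv_lhs => rw [e]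
    unfold ws
    rw [Finset.sum_insert h1, Finset.sum_union hdisj]
  rw [h2]
  push_cast
  ring

theorem dl_single {G : SimpleGraph V} {a : V → ℕ} {W : Finset V} (y : V) :
    dl G a W {y} = (a y : ℤ) - ws a (nb G {y} ∩ W) := by
  unfold dl
  have h3 : ws a {y} = a y := Finset.sum_singleton _ _
  rw [h3]

theorem ind_insert {G : SimpleGraph V} {W : Finset V} {y : V} {U : Finset V}
    (hU : U ⊆ W \ insert y (nb G {y})) (hUi : Ind G U) : Ind G (insert y U) := by
  intro u hu v hv h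
  rcases Finset.mem_insert.1 hu with h1 | h1
  · rcases Finset.mem_insert.1 hv with h2 | h2
    · rw [h1, h2] at h
      exact G.loopless.irrefl _ h
    · rw [h1] at h
      exact (sub_link_y hU h2).2.2 h
  · rcases Finset.mem_insert.1 hv with h2 | h2
    · rw [h2] at h
      exact (sub_link_y hU h1).2.2 h.symm
    · exact hUi u h1 v h2 h

/-- the link of `y` in `Y G a W t` -/
theorem lk_Y {G : SimpleGraph V} {a : V → ℕ} {W : Finset V} {y : V} (hy : y ∈ W) (t : ℤ) :
    lk (Y G a W t) y = Y G a (W \ insert y (nb G {y})) (t - dl G a W {y}) := by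
  ext F
  constructor
  · rintro ⟨hyF, F', h1, h2, h3, h4⟩
    have hyF' : y ∈ F' := h1 (Finset.mem_insert_self _ _)
    have hsub : F'.erase y ⊆ W \ insert y (nb G {y}) := by
      intro v hv
      rw [Finset.mem_erase] at hv
      exact mem_link.2 ⟨h2 hv.2, hv.1, h3 y hyF' v hv.2⟩
    refine ⟨F'.erase y, ?_, hsub, h3.subset (Finset.erase_subset _ _), ?_⟩
    · intro v hv
      rw [Finset.mem_erase]
      refine ⟨fun h => hyF (h ▸ hv), h1 (Finset.mem_insert_of_mem hv)⟩
    · have := dl_insert (a := a) hy hsub (h3.subset (Finset.erase_subset _ _))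
      rw [Finset.insert_erase hyF'] at this
      linarith
  · rintro ⟨F', h1, h2, h3, h4⟩
    refine ⟨fun h => (sub_link_y h2 (h1 h)).2.1 rfl, insert y F', Finset.insert_subset_insert _ h1,
      ?_, ind_insert h2 h3, ?_⟩
    · intro v hv
      rcases Finset.mem_insert.1 hv with rfl | hv
      · exact hy
      · exact (sub_link_y h2 hv).1
    · rw [dl_insert hy h2 h3]
      linarith

theorem Y_sub {G : SimpleGraph V} {a : V → ℕ} {W : Finset V} {t : ℤ} {F : Finset V}
    (h : F ∈ Y G a W t) : F ⊆ W := by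
  obtain ⟨F', h1, h2, _⟩ := h
  exact h1.trans h2

theorem Y_ind {G : SimpleGraph V} {a : V → ℕ} {W : Finset V} {t : ℤ} {F : Finset V}
    (h : F ∈ Y G a W t) : Ind G F := by
  obtain ⟨F', h1, _, h3, _⟩ := h
  exact h3.subset h1

/-- the link of `y` in a deletion -/
theorem lk_dv_Y {G : SimpleGraph V} {a : V → ℕ} {W : Finset V} {y : V} (hy : y ∈ W) (t : ℤ)
    {S : Finset V} (hS : y ∉ S) :
    lk (dv (Y G a W t) S) y =
      dv (Y G a (W \ insert y (nb G {y})) (t - dl G a W {y})) (S ∩ (W \ insert y (nb G {y}))) := by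
  rw [← lk_Y hy t]
  ext F
  constructor
  · rintro ⟨h1, h2, h3⟩
    refine ⟨⟨h1, h2⟩, ?_⟩
    rw [Finset.disjoint_insert_left] at h3
    exact Finset.disjoint_of_subset_right Finset.inter_subset_left h3.2
  · rintro ⟨⟨h1, h2⟩, h3⟩
    refine ⟨h1, h2, ?_⟩
    rw [Finset.disjoint_insert_left]
    refine ⟨hS, ?_⟩
    rw [Finset.disjoint_left] at h3 ⊢
    intro v hv hvS
    refine h3 hv (Finset.mem_inter.2 ⟨hvS, ?_⟩)
    have h4 : insert y F ⊆ W := Y_sub h2
    have h5 : Ind G (insert y F) := Y_ind h2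
    refine mem_link.2 ⟨h4 (Finset.mem_insert_of_mem hv), fun h => h1 (h ▸ hv), ?_⟩
    exact h5 y (Finset.mem_insert_self _ _) v (Finset.mem_insert_of_mem hv)

theorem del_dv (X : Set (Finset V)) (S : Finset V) (y : V) : del (dv X S) y = dv X (insert y S) := by
  ext F
  constructor
  · rintro ⟨h1, h2, h3⟩
    refine ⟨h2, ?_⟩
    rw [Finset.disjoint_insert_right]
    exact ⟨h1, h3⟩
  · rintro ⟨h1, h2⟩
    rw [Finset.disjoint_insert_right] at h2
    exact ⟨h2.1, h1, h2.2⟩

theorem dv_empty (X : Set (Finset V)) : dv X ∅ = X := by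
  ext F
  constructor
  · exact fun h => h.1
  · exact fun h => ⟨h, Finset.disjoint_empty_right F⟩

end Pool.Agent.LIN
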