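import Pool.Agent.Helper23.LIN.Defs

/-!
# Project LIN, block MV: Mayer-Vietoris lemmas on chain level

Everything follows from `bd_cn`, `bd_ct`, `ct_cn_self` of `Chain.lean`.
`ex_cone`: `z = bd (cn v z)`.
`ex_rel`: let `zJ` be the part of `z` on `Y \ X`; `z - bd (cn v zJ) = zX + cn v (bd zJ)` is supported in `X`.
`mv1`: `z1 = ct v z` is a cycle of the link, `z1 = bd e`; `z + bd (cn v e) = z0 + e` is a cycle of the
deletion (`z0 = ct v (cn v z)`), so it is `bd f` and `z = bd (f - cn v e)`.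
`mv2`: `z = bd w`, `w1 = ct v w` is a cycle of the link, `w1 = bd u`, `z = bd (w + cn v .. )`: with
`w = w0 + cn v w1`: `bd (cn v w1) = w1`, so `z = bd (w0 + u)`.
`br1`: `z` cycle of `jn D L v`, `z1 = ct v z` is a cycle of `jn L L' v`, `z1 = bd (w0 + cn v w1)`,
so `bd w1 = 0` and `z1 = bd w0 + w1`; `z + bd (cn v w0) = z0 + w0 + cn v w1` is a cycle of `jn D L' v`.
`br2`: `z` cycle of `jn D L' v`, `z = bd w` in `jn D L v`, `w1 = ct v w`, `c = w1 - cn v (bd w1)` is a cycle of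
`jn L L' v`, `c = bd (e0 + cn v e1)`, so `w1 = bd e0 + e1`, and `z = bd (w0 + e0 + cn v e1)`.
-/

set_option linter.unusedSectionVars false

namespace Pool.Agent.LIN

variable {V : Type*} [Fintype V] [LinearOrder V] {K : Type*} [Field K]

theorem IsCh.mono {X Y : Set (Finset V)} {i : ℕ} {c : Finset V → K} (hc : IsCh X i c) (h : X ⊆ Y) :
    IsCh Y i c := fun σ hσ => ⟨h (hc σ hσ).1, (hc σ hσ).2⟩

theorem isCh_zero (X : Set (Finset V)) (i : ℕ) : IsCh X i (0 : Finset V → K) :=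
  fun _ hσ => absurd rfl hσ

theorem IsCh.add {X : Set (Finset V)} {i : ℕ} {c d : Finset V → K} (hc : IsCh X i c)
    (hd : IsCh X i d) : IsCh X i (c + d) := by
  intro σ hσ
  by_cases h : c σ = 0
  · refine hd σ (fun h' => hσ ?_)
    rw [Pi.add_apply, h, h', add_zero]
  · exact hc σ h

theorem IsCh.neg {X : Set (Finset V)} {i : ℕ} {c : Finset V → K} (hc : IsCh X i c) :
    IsCh X i (-c) := by
  intro σ hσ
  refine hc σ (fun h' => hσ ?_)
  rw [Pi.neg_apply, h', neg_zero]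

theorem IsCh.sub {X : Set (Finset V)} {i : ℕ} {c d : Finset V → K} (hc : IsCh X i c)
    (hd : IsCh X i d) : IsCh X i (c - d) := by
  rw [sub_eq_add_neg]
  exact hc.add hd.neg

theorem ct_ne {v : V} {c : Finset V → K} {τ : Finset V} (h : ct v c τ ≠ 0) :
    v ∉ τ ∧ c (insert v τ) ≠ 0 := by
  unfold ct at h
  split_ifs at h with hv
  · exact absurd rfl h
  · exact ⟨hv, right_ne_zero_of_mul h⟩

theorem cn_ne {v : V} {c : Finset V → K} {σ : Finset V} (h : cn v c σ ≠ 0) :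
    v ∈ σ ∧ c (σ.erase v) ≠ 0 := by
  unfold cn at h
  split_ifs at h with hv
  · exact ⟨hv, right_ne_zero_of_mul h⟩
  · exact absurd rfl h

theorem ctcn_ne {v : V} {c : Finset V → K} {τ : Finset V} (h : ct v (cn v c) τ ≠ 0) :
    v ∉ τ ∧ c τ ≠ 0 := by
  obtain ⟨h1, h2⟩ := ct_ne h
  obtain ⟨h3, h4⟩ := cn_ne h2
  rw [Finset.erase_insert h1] at h4
  exact ⟨h1, h4⟩

theorem bd_ne {c : Finset V → K} {τ : Finset V} (h : bd c τ ≠ 0) :
    ∃ v, v ∉ τ ∧ c (insert v τ) ≠ 0 := by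
  by_contra hcon
  push Not at hcon
  apply h
  unfold bd
  refine Finset.sum_eq_zero fun v hv => ?_
  rw [hcon v (Finset.mem_compl.1 hv), mul_zero]

theorem ex_of_card {X : Set (Finset V)} {i : ℕ} (h : ∀ σ ∈ X, σ.card ≠ i) : Ex K X i := by
  intro c hc _
  refine ⟨0, isCh_zero _ _, ?_⟩
  rw [bd_zero]
  funext σ
  by_contra hσ
  have := hc σ (fun h' => hσ h'.symm)
  exact h σ this.1 this.2

theorem ex_cone {X : Set (Finset V)} (v : V) (h : ∀ σ ∈ X, insert v σ ∈ X) (i : ℕ) : Ex K X i := by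
  intro z hz hbd
  refine ⟨cn v z, ?_, ?_⟩
  · intro σ hσ
    obtain ⟨h1, h2⟩ := cn_ne hσ
    obtain ⟨h3, h4⟩ := hz _ h2
    refine ⟨?_, ?_⟩
    · rw [← Finset.insert_erase h1]
      exact h _ h3
    · rw [← Finset.card_erase_add_one h1, h4]
  · rw [bd_cn, hbd, cn_zero, sub_zero]

theorem ex_rel {X Y : Set (Finset V)} (v : V) (hX : IsLowerSet X) (hY : IsLowerSet Y) (hXY : X ⊆ Y)
    (h : ∀ σ ∈ Y, σ ∉ X → insert v σ ∈ Y ∧ σ.erase v ∉ X) {i : ℕ} (h1 : Ex K X i) : Ex K Y i := by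
  classical
  intro z hz hbd
  set zJ : Finset V → K := fun σ => if σ ∈ X then 0 else z σ with hzJ
  have hzJ1 : ∀ σ, zJ σ ≠ 0 → σ ∉ X ∧ z σ ≠ 0 := by
    intro σ hσ
    rw [hzJ] at hσ
    simp only at hσ
    split_ifs at hσ with hX
    · exact absurd rfl hσ
    · exact ⟨hX, hσ⟩
  have hzX1 : ∀ σ, (z - zJ) σ ≠ 0 → σ ∈ X ∧ z σ ≠ 0 := by
    intro σ hσ
    rw [Pi.sub_apply, hzJ] at hσ
    simp only at hσ
    split_ifs at hσ with hX
    · rw [sub_zero] at hσ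
      exact ⟨hX, hσ⟩
    · rw [sub_self] at hσ
      exact absurd rfl hσ
  have hw : IsCh Y (i + 1) (cn v zJ) := by
    intro σ hσ
    obtain ⟨h2, h3⟩ := cn_ne hσ
    obtain ⟨h4, h5⟩ := hzJ1 _ h3
    obtain ⟨h6, h7⟩ := hz _ h5
    refine ⟨?_, ?_⟩
    · rw [← Finset.insert_erase h2]
      exact (h _ h6 h4).1
    · rw [← Finset.card_erase_add_one h2, h7]
  have hz' : z - bd (cn v zJ) = (z - zJ) + cn v (bd zJ) := by
    rw [bd_cn]
    abel
  have hneg : bd (z - zJ) = - bd zJ := by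
    rw [bd_sub, hbd, zero_sub]
  have hch : IsCh X i (z - bd (cn v zJ)) := by
    rw [hz']
    refine IsCh.add ?_ ?_
    · intro σ hσ
      obtain ⟨h2, h3⟩ := hzX1 σ hσ
      exact ⟨h2, (hz σ h3).2⟩
    · intro σ hσ
      obtain ⟨h2, h3⟩ := cn_ne hσ
      have h3' : bd (z - zJ) (σ.erase v) ≠ 0 := by
        rw [hneg, Pi.neg_apply]
        exact neg_ne_zero.2 h3
      obtain ⟨u, hu1, hu2⟩ := bd_ne h3'
      obtain ⟨u', hu1', hu2'⟩ := bd_ne h3
      obtain ⟨k1, k2⟩ := hzX1 _ hu2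
      obtain ⟨k3, k4⟩ := hzJ1 _ hu2'
      have hσY : σ ∈ Y := by
        have := (h _ (hz _ k4).1 k3).1
        refine hY ?_ this
        show σ ⊆ _
        rw [← Finset.insert_erase h2]
        refine Finset.insert_subset_insert _ ?_
        rw [Finset.erase_insert (Finset.notMem_erase v σ)]
        exact Finset.subset_insert _ _
      have hcard : σ.card = i := by
        have := (hz _ k2).2
        rw [Finset.card_insert_of_notMem hu1, Finset.card_erase_add_one h2] at this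
        exact this
      refine ⟨?_, hcard⟩
      by_contra hσX
      exact (h σ hσY hσX).2 (hX (Finset.subset_insert _ _) k1)
  obtain ⟨f, hf1, hf2⟩ := h1 _ hch (by rw [bd_sub, bd_bd, hbd, sub_zero])
  refine ⟨f + cn v zJ, (hf1.mono hXY).add hw, ?_⟩
  rw [bd_add, hf2]
  abel

theorem mv1 {X : Set (Finset V)} (hX : IsLowerSet X) (v : V) {i : ℕ} (h1 : Ex K (del X v) i)
    (h2 : ∀ j, j + 1 = i → Ex K (lk X v) j) : Ex K X i := by
  intro z hz hbd
  cases i with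
  | zero =>
    obtain ⟨f, hf1, hf2⟩ := h1 z (by
      intro σ hσ
      obtain ⟨k1, k2⟩ := hz σ hσ
      refine ⟨⟨?_, k1⟩, k2⟩
      rw [Finset.card_eq_zero.1 k2]
      exact Finset.notMem_empty v) hbd
    exact ⟨f, hf1.mono (fun σ hσ => hσ.2), hf2⟩
  | succ j =>
    obtain ⟨e, he1, he2⟩ := h2 j rfl (ct v z) (by
      intro τ hτ
      obtain ⟨k1, k2⟩ := ct_ne hτ
      obtain ⟨k3, k4⟩ := hz _ k2
      refine ⟨⟨k1, k3⟩, ?_⟩
      rw [Finset.card_insert_of_notMem k1] at k4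
      omega) (by rw [bd_ct, hbd, ct_zero, neg_zero])
    have hz' : z + bd (cn v e) = ct v (cn v z) + e := by
      have := ct_cn_self v z
      rw [bd_cn, he2]
      nth_rw 1 [← this]
      abel
    obtain ⟨f, hf1, hf2⟩ := h1 (z + bd (cn v e)) (by
      rw [hz']
      refine IsCh.add ?_ ?_
      · intro τ hτ
        obtain ⟨k1, k2⟩ := ctcn_ne hτ
        obtain ⟨k3, k4⟩ := hz _ k2
        exact ⟨⟨k1, k3⟩, k4⟩
      · intro τ hτ
        obtain ⟨k1, k2⟩ := he1 _ hτ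
        exact ⟨⟨k1.1, hX (Finset.subset_insert _ _) k1.2⟩, k2⟩) (by
      rw [bd_add, bd_bd, hbd, add_zero])
    refine ⟨f - cn v e, (hf1.mono (fun σ hσ => hσ.2)).sub ?_, ?_⟩
    · intro σ hσ
      obtain ⟨k1, k2⟩ := cn_ne hσ
      obtain ⟨k3, k4⟩ := he1 _ k2
      refine ⟨?_, ?_⟩
      · have := k3.2
        rwa [Finset.insert_erase k1] at this
      · rw [← Finset.card_erase_add_one k1, k4]
    · rw [bd_sub, hf2]
      abel

theorem mv2 {X : Set (Finset V)} (hX : IsLowerSet X) (v : V) {i : ℕ} (h1 : Ex K X i)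
    (h2 : Ex K (lk X v) i) : Ex K (del X v) i := by
  intro z hz hbd
  obtain ⟨w, hw1, hw2⟩ := h1 z (hz.mono (fun σ hσ => hσ.2)) hbd
  have hctz : ct v z = 0 := by
    funext τ
    by_contra h
    obtain ⟨_, k2⟩ := ct_ne h
    exact (hz _ k2).1.1 (Finset.mem_insert_self v τ)
  have hbw1 : bd (ct v w) = 0 := by rw [bd_ct, hw2, hctz, neg_zero]
  obtain ⟨u, hu1, hu2⟩ := h2 (ct v w) (by
    intro τ hτ
    obtain ⟨k1, k2⟩ := ct_ne hτ
    obtain ⟨k3, k4⟩ := hw1 _ k2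
    refine ⟨⟨k1, k3⟩, ?_⟩
    rw [Finset.card_insert_of_notMem k1] at k4
    omega) hbw1
  refine ⟨ct v (cn v w) + u, IsCh.add ?_ ?_, ?_⟩
  · intro τ hτ
    obtain ⟨k1, k2⟩ := ctcn_ne hτ
    obtain ⟨k3, k4⟩ := hw1 _ k2
    exact ⟨⟨k1, k3⟩, k4⟩
  · intro τ hτ
    obtain ⟨k1, k2⟩ := hu1 _ hτ
    exact ⟨⟨k1.1, hX (Finset.subset_insert _ _) k1.2⟩, k2⟩
  · have h3 : ct v (cn v w) = w - cn v (ct v w) := by
      rw [eq_sub_iff_add_eq]
      exact ct_cn_self v w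
    rw [bd_add, h3, bd_sub, bd_cn, hbw1, cn_zero, hu2, hw2]
    abel

theorem br1 {D L L' : Set (Finset V)} (v : V) (hD : IsLowerSet D) (hL : IsLowerSet L)
    (hL' : IsLowerSet L') (h : L' ⊆ L) (h' : L ⊆ D) (hv : ∀ σ ∈ L, v ∉ σ) {i : ℕ}
    (h1 : Ex K (jn D L' v) i) (h2 : ∀ j, j + 1 = i → Ex K (jn L L' v) j) : Ex K (jn D L v) i := by
  have _ := hD
  have _ := hL
  have _ := hL'
  have _ := hv
  have hsub : jn D L' v ⊆ jn D L v := by
    rintro σ (⟨k1, k2⟩ | ⟨k1, k2⟩)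
    · exact Or.inl ⟨k1, k2⟩
    · exact Or.inr ⟨k1, h k2⟩
  have hsub' : jn L L' v ⊆ jn D L' v := by
    rintro σ (⟨k1, k2⟩ | ⟨k1, k2⟩)
    · exact Or.inl ⟨k1, h' k2⟩
    · exact Or.inr ⟨k1, k2⟩
  intro z hz hbd
  cases i with
  | zero =>
    obtain ⟨f, hf1, hf2⟩ := h1 z (by
      intro σ hσ
      obtain ⟨k1, k2⟩ := hz σ hσ
      refine ⟨?_, k2⟩
      have hσ0 := Finset.card_eq_zero.1 k2
      rcases k1 with k1 | k1
      · exact Or.inl k1
      · rw [hσ0] at k1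
        exact absurd k1.1 (Finset.notMem_empty v)) hbd
    exact ⟨f, hf1.mono hsub, hf2⟩
  | succ j =>
    obtain ⟨w, hw1, hw2⟩ := h2 j rfl (ct v z) (by
      intro τ hτ
      obtain ⟨k1, k2⟩ := ct_ne hτ
      obtain ⟨k3, k4⟩ := hz _ k2
      rw [Finset.card_insert_of_notMem k1] at k4
      refine ⟨Or.inl ⟨k1, ?_⟩, by omega⟩
      rcases k3 with k3 | k3
      · exact absurd (Finset.mem_insert_self v τ) k3.1
      · have := k3.2
        rwa [Finset.erase_insert k1] at this) (by rw [bd_ct, hbd, ct_zero, neg_zero])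
    have hz' : z + bd (cn v (ct v (cn v w))) = ct v (cn v z) + w := by
      have e1 := ct_cn_self v z
      have e2 : ct v (cn v w) = w - cn v (ct v w) := by
        rw [eq_sub_iff_add_eq]
        exact ct_cn_self v w
      have e3 : bd (ct v w) = 0 := by rw [bd_ct, hw2, ct_ct_self, neg_zero]
      have e4 : bd (ct v (cn v w)) = ct v z - ct v w := by
        rw [e2, bd_sub, bd_cn, e3, cn_zero, hw2]
        abel
      rw [bd_cn, e4, cn_sub]
      nth_rw 1 [← e1]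
      rw [e2]
      abel
    obtain ⟨f, hf1, hf2⟩ := h1 (z + bd (cn v (ct v (cn v w)))) (by
      rw [hz']
      refine IsCh.add ?_ (hw1.mono hsub')
      intro τ hτ
      obtain ⟨k1, k2⟩ := ctcn_ne hτ
      obtain ⟨k3, k4⟩ := hz _ k2
      refine ⟨Or.inl ⟨k1, ?_⟩, k4⟩
      rcases k3 with k3 | k3
      · exact k3.2
      · exact absurd k3.1 k1) (by rw [bd_add, bd_bd, hbd, add_zero])
    refine ⟨f - cn v (ct v (cn v w)), (hf1.mono hsub).sub ?_, ?_⟩
    · intro σ hσ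
      obtain ⟨k1, k2⟩ := cn_ne hσ
      obtain ⟨k3, k4⟩ := ctcn_ne k2
      obtain ⟨k5, k6⟩ := hw1 _ k4
      refine ⟨Or.inr ⟨k1, ?_⟩, ?_⟩
      · rcases k5 with k5 | k5
        · exact k5.2
        · exact absurd k5.1 k3
      · rw [← Finset.card_erase_add_one k1, k6]
    · rw [bd_sub, hf2]
      abel

theorem br2 {D L L' : Set (Finset V)} (v : V) (hD : IsLowerSet D) (hL : IsLowerSet L)
    (hL' : IsLowerSet L') (h : L' ⊆ L) (h' : L ⊆ D) (hv : ∀ σ ∈ L, v ∉ σ) {i : ℕ}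
    (h1 : Ex K (jn D L v) i) (h2 : Ex K (jn L L' v) i) : Ex K (jn D L' v) i := by
  have _ := hD
  have _ := hL
  have _ := hL'
  have _ := hv
  have hsub : jn D L' v ⊆ jn D L v := by
    rintro σ (⟨k1, k2⟩ | ⟨k1, k2⟩)
    · exact Or.inl ⟨k1, k2⟩
    · exact Or.inr ⟨k1, h k2⟩
  have hsub' : jn L L' v ⊆ jn D L' v := by
    rintro σ (⟨k1, k2⟩ | ⟨k1, k2⟩)
    · exact Or.inl ⟨k1, h' k2⟩
    · exact Or.inr ⟨k1, k2⟩
  intro z hz hbd
  obtain ⟨w, hw1, hw2⟩ := h1 z (hz.mono hsub) hbd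
  have e1 : bd (ct v w) = - ct v z := by rw [bd_ct, hw2]
  obtain ⟨e, he1, he2⟩ := h2 (ct v w - cn v (bd (ct v w))) (by
    refine IsCh.sub ?_ ?_
    · intro τ hτ
      obtain ⟨k1, k2⟩ := ct_ne hτ
      obtain ⟨k3, k4⟩ := hw1 _ k2
      rw [Finset.card_insert_of_notMem k1] at k4
      refine ⟨Or.inl ⟨k1, ?_⟩, by omega⟩
      rcases k3 with k3 | k3
      · exact absurd (Finset.mem_insert_self v τ) k3.1
      · have := k3.2
        rwa [Finset.erase_insert k1] at this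
    · intro σ hσ
      obtain ⟨k1, k2⟩ := cn_ne hσ
      rw [e1, Pi.neg_apply, neg_ne_zero] at k2
      obtain ⟨k3, k4⟩ := ct_ne k2
      rw [Finset.insert_erase k1] at k4
      obtain ⟨k5, k6⟩ := hz _ k4
      refine ⟨Or.inr ⟨k1, ?_⟩, k6⟩
      rcases k5 with k5 | k5
      · exact absurd k1 k5.1
      · exact k5.2) (by
    rw [bd_sub, bd_cn, bd_bd, cn_zero, sub_zero, sub_self])
  refine ⟨ct v (cn v w) + e, IsCh.add ?_ (he1.mono hsub'), ?_⟩
  · intro τ hτ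
    obtain ⟨k1, k2⟩ := ctcn_ne hτ
    obtain ⟨k3, k4⟩ := hw1 _ k2
    refine ⟨Or.inl ⟨k1, ?_⟩, k4⟩
    rcases k3 with k3 | k3
    · exact k3.2
    · exact absurd k3.1 k1
  · have e2 : ct v (cn v w) = w - cn v (ct v w) := by
      rw [eq_sub_iff_add_eq]
      exact ct_cn_self v w
    rw [bd_add, he2, e2, bd_sub, bd_cn, hw2]
    abel

end Pool.Agent.LIN
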