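import Pool.Agent.Helper23.LIN.Alex2
import Pool.Agent.Helper23.LIN.MV

/-!
# Project LIN, block KF: upper Koszul complexes

`kf_iff`: `KF M c = {σ ⊆ W | W \ σ ∉ Stp (· ∉ M) W b 1}` with `W = supp c`, `b = c - 1_W`, and conversely; the other
direction of `alex` is `alex` for the dual family. The cases `i ≥ |W|` or `j ≥ |W|` are trivial (chains on `W` itself;
`ρ ≥ 1` excludes `W = ∅`).
-/

set_option linter.unusedSectionVars false

namespace Pool.Agent.LIN

open Pool.Agent.LQ Pool.Agent.LQ.T1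

variable {V : Type*} [Fintype V] [LinearOrder V] {K : Type*} [Field K]

private theorem ex_top26 {X : Set (Finset V)} {W : Finset V} (hX : ∀ σ ∈ X, σ ⊆ W)
    (hW : W.Nonempty) {i : ℕ} (hi : W.card ≤ i) : Ex K X i := by
  intro c hc hbd
  have hσ : ∀ σ, c σ ≠ 0 → σ = W := by
    intro σ h
    obtain ⟨h1, h2⟩ := hc σ h
    exact Finset.eq_of_subset_of_card_le (hX σ h1) (by omega)
  obtain ⟨v, hv⟩ := hW
  have h1 : bd c (W.erase v) = sg K v (W.erase v) * c W := by
    unfold bd
    rw [Finset.sum_eq_single v]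
    · rw [Finset.insert_erase hv]
    · intro u hu huv
      rw [Finset.mem_compl, Finset.mem_erase] at hu
      have h2 : c (insert u (W.erase v)) = 0 := by
        by_contra h3
        have h4 := hσ _ h3
        have h5 : u ∈ W := by
          rw [← h4]
          exact Finset.mem_insert_self _ _
        exact hu ⟨huv, h5⟩
      rw [h2, mul_zero]
    · intro h2
      rw [Finset.mem_compl, not_not] at h2
      exact absurd h2 (Finset.notMem_erase v W)
  have h2 : c W = 0 := by
    rw [hbd, Pi.zero_apply] at h1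
    exact (mul_eq_zero.1 h1.symm).resolve_left (sg_ne_zero v _)
  refine ⟨0, isCh_zero _ _, ?_⟩
  rw [bd_zero]
  funext σ
  by_contra h3
  have h4 := hσ σ (fun h => h3 h.symm)
  rw [h4, h2] at h3
  exact h3 rfl

private theorem kf_eq26 {M : Set (V → ℕ)} {W : Finset V} {b : V → ℕ} (hb : ∀ v, v ∉ W → b v = 0) :
    KF M (fun v => b v + if v ∈ W then 1 else 0) =
      {σ | σ ⊆ W ∧ W \ σ ∉ Stp (fun m => m ∉ M) W b (fun _ => 1)} := by
  ext σ
  have key : σ ⊆ W → (fun v => (b v + if v ∈ W then 1 else 0) - if v ∈ σ then 1 else 0) =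
      fun v => b v + if v ∈ W \ σ then 1 else 0 := by
    intro h
    funext v
    by_cases hv : v ∈ W
    · by_cases hs : v ∈ σ
      · rw [if_pos hv, if_pos hs, if_neg (fun h' => (Finset.mem_sdiff.1 h').2 hs)]
        omega
      · rw [if_pos hv, if_neg hs, if_pos (Finset.mem_sdiff.2 ⟨hv, hs⟩)]
        omega
    · rw [if_neg hv, if_neg (fun h' => hv (h h')), if_neg (fun h' => hv (Finset.mem_sdiff.1 h').1)]
      omega
  show ((∀ v ∈ σ, 1 ≤ b v + if v ∈ W then 1 else 0) ∧
    (fun v => (b v + if v ∈ W then 1 else 0) - if v ∈ σ then 1 else 0) ∈ M) ↔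
    (σ ⊆ W ∧ ¬ (W \ σ ⊆ W ∧ (fun v => b v + if v ∈ W \ σ then 1 else 0) ∉ M))
  constructor
  · rintro ⟨h1, h2⟩
    have h3 : σ ⊆ W := by
      intro v hv
      by_contra hvW
      have h4 := h1 v hv
      rw [if_neg hvW, hb v hvW] at h4
      omega
    rw [key h3] at h2
    exact ⟨h3, fun h => h.2 h2⟩
  · rintro ⟨h1, h2⟩
    refine ⟨fun v hv => ?_, ?_⟩
    · rw [if_pos (h1 hv)]
      omega
    · rw [key h1]
      by_contra h3
      exact h2 ⟨Finset.sdiff_subset, h3⟩

private theorem stp_lower26 {M : Set (V → ℕ)}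
    (hM : ∀ m m' : V → ℕ, (∀ v, m v ≤ m' v) → m ∈ M → m' ∈ M) (W : Finset V) (b : V → ℕ) :
    IsLowerSet (Stp (fun m => m ∉ M) W b (fun _ => 1)) := by
  intro σ τ hτσ hσ
  have hsub : τ ⊆ σ := hτσ
  obtain ⟨h1, h2⟩ := hσ
  refine ⟨hsub.trans h1, fun h3 => h2 (hM _ _ (fun v => ?_) h3)⟩
  by_cases hv : v ∈ τ
  · rw [if_pos hv, if_pos (hsub hv)]
  · rw [if_neg hv]
    omega

private theorem kf_lower26 {M : Set (V → ℕ)}
    (hM : ∀ m m' : V → ℕ, (∀ v, m v ≤ m' v) → m ∈ M → m' ∈ M) (c : V → ℕ) :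
    IsLowerSet (KF M c) := by
  intro σ τ hτσ hσ
  have hsub : τ ⊆ σ := hτσ
  obtain ⟨h1, h2⟩ := hσ
  refine ⟨fun v hv => h1 v (hsub hv), hM _ _ (fun v => ?_) h2⟩
  by_cases hv : v ∈ τ
  · rw [if_pos hv, if_pos (hsub hv)]
  · rw [if_neg hv]
    omega

private theorem ws_eq26 {W : Finset V} {b : V → ℕ} (hb : ∀ v, v ∉ W → b v = 0) :
    ws (fun v => b v + if v ∈ W then 1 else 0) Finset.univ = ws b W + W.card := by
  unfold ws
  rw [Finset.sum_add_distrib]
  congr 1
  · symm
    exact Finset.sum_subset (Finset.subset_univ W) fun v _ hv => hb v hv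
  · simp

theorem kf_iff {M : Set (V → ℕ)} (hM : ∀ m m' : V → ℕ, (∀ v, m v ≤ m' v) → m ∈ M → m' ∈ M) {ρ : ℕ}
    (hρ : 1 ≤ ρ) : KFC K M ρ ↔ StpC K (fun m => m ∉ M) 1 ρ := by
  constructor
  · intro h W b hb i hi
    have hsub : ∀ σ ∈ Stp (fun m => m ∉ M) W b (fun _ => 1), σ ⊆ W := fun σ hσ => hσ.1
    rcases Nat.lt_or_ge i W.card with h1 | h1
    · obtain ⟨j, hj⟩ : ∃ j, j + i + 1 = W.card := ⟨W.card - 1 - i, by omega⟩
      have h2 := h (fun v => b v + if v ∈ W then 1 else 0) j (by rw [ws_eq26 hb]; omega)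
      have h3 : ∀ σ ∈ KF M (fun v => b v + if v ∈ W then 1 else 0), σ ⊆ W := by
        intro σ hσ
        rw [kf_eq26 hb] at hσ
        exact hσ.1
      have h4 := alex (kf_lower26 hM _) h3 hj h2
      have h5 : {σ | σ ⊆ W ∧ W \ σ ∉ KF M (fun v => b v + if v ∈ W then 1 else 0)} =
          Stp (fun m => m ∉ M) W b (fun _ => 1) := by
        ext σ
        rw [kf_eq26 hb]
        constructor
        · rintro ⟨h6, h7⟩
          by_contra h8
          refine h7 ⟨Finset.sdiff_subset, ?_⟩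
          rw [Finset.sdiff_sdiff_eq_self h6]
          exact h8
        · intro h6
          refine ⟨h6.1, fun h7 => h7.2 ?_⟩
          rw [Finset.sdiff_sdiff_eq_self h6.1]
          exact h6
      rw [h5] at h4
      exact h4
    · rcases W.eq_empty_or_nonempty with h2 | h2
      · subst h2
        rw [show ws b ∅ = 0 from Finset.sum_empty] at hi
        refine ex_of_card fun σ hσ => ?_
        have h3 : σ = ∅ := Finset.subset_empty.1 (hsub σ hσ)
        rw [h3, Finset.card_empty]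
        omega
      · exact ex_top26 hsub h2 h1
  · intro h c j hj
    obtain ⟨W, hW⟩ : ∃ W, W = Finset.univ.filter fun v => c v ≠ 0 := ⟨_, rfl⟩
    have hWm : ∀ v, v ∈ W ↔ c v ≠ 0 := fun v => by
      rw [hW, Finset.mem_filter]
      exact ⟨fun h => h.2, fun h => ⟨Finset.mem_univ v, h⟩⟩
    have hb : ∀ v, v ∉ W → (fun v => c v - 1) v = 0 := by
      intro v hv
      have h1 : c v = 0 := not_not.1 (fun h => hv ((hWm v).2 h))
      show c v - 1 = 0
      omega
    have hc : c = fun v => (fun v => c v - 1) v + if v ∈ W then 1 else 0 := by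
      funext v
      show c v = c v - 1 + if v ∈ W then 1 else 0
      by_cases hv : v ∈ W
      · rw [if_pos hv]
        have := (hWm v).1 hv
        omega
      · rw [if_neg hv]
        have h1 : c v = 0 := not_not.1 (fun h => hv ((hWm v).2 h))
        omega
    have hws := ws_eq26 hb
    rw [← hc] at hws
    have hkf := kf_eq26 (M := M) hb
    rw [← hc] at hkf
    rw [hkf]
    rcases Nat.lt_or_ge j W.card with h1 | h1
    · obtain ⟨i, hi⟩ : ∃ i, i + j + 1 = W.card := ⟨W.card - 1 - j, by omega⟩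
      refine alex (stp_lower26 hM W _) (fun σ hσ => hσ.1) hi (h W _ hb i ?_)
      omega
    · rcases W.eq_empty_or_nonempty with h2 | h2
      · exfalso
        rw [h2, Finset.card_empty, show ws (fun v => c v - 1) ∅ = 0 from Finset.sum_empty] at hws
        omega
      · exact ex_top26 (fun σ hσ => hσ.1) h2 h1

end Pool.Agent.LIN
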