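import Pool.Agent.Helper23.LIN.Hall2

/-!
# Project LIN, block STPY: the degree complexes

`stp_eq_Y`: by `hall2`, `F` is in the complex iff there is an independent `T` with
`q |F \ T| + q |F ∩ nb T| < b(T) - b(nb T) + 2 q - |b|` (case `T = ∅` included), and `F` is independent (else `x_F^q ∈ I^q`;
in fact this follows). The right side is `≤ 2 q`. If `F ⊆ T`: then `F ∩ nb T = ∅`; replace `T` by `T ∩ W`. Otherwise
`F \ T = {x}`, `F ∩ nb T = ∅` (`x ∈ nb T` would give `2 q` on the left), so `T' = insert x T` is independent, and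
`b(T') - b(nb T') ≥ b(T) - b(V \ T) = 2 b(T) - |b| > |b| - 2 q` because `b(V \ T) + b(nb T) < q`.
Conversely `F' ⊇ F` with `dl F' ≥ |b| - 2q + 1`: take `T = F'`.
-/

set_option linter.unusedSectionVars false

namespace Pool.Agent.LIN

open Pool.Agent.LQ Pool.Agent.LQ.T1

variable {V : Type*} [Fintype V] [LinearOrder V]

private theorem ws_step (b : V → ℕ) (q : ℕ) (F S : Finset V) :
    ws (fun v => b v + if v ∈ F then q else 0) S = ws b S + q * (S ∩ F).card := by
  unfold ws
  rw [Finset.sum_add_distrib, Finset.sum_ite_mem, Finset.sum_const, smul_eq_mul, mul_comm]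

private theorem ws_inter_W {W : Finset V} {b : V → ℕ} (hb : ∀ v, v ∉ W → b v = 0) (S : Finset V) :
    ws b (S ∩ W) = ws b S := by
  unfold ws
  refine Finset.sum_subset Finset.inter_subset_left fun v hv hv' => hb v fun hvW => ?_
  exact hv' (Finset.mem_inter.2 ⟨hv, hvW⟩)

theorem stp_eq_Y {G : SimpleGraph V} (hG : GF G) {q : ℕ} (hq : 1 ≤ q) {W : Finset V} {b : V → ℕ}
    (hb : ∀ v, v ∉ W → b v = 0) :
    Stp (fun m => ¬ MemP G q m) W b (fun _ => q) = Y G b W ((ws b W : ℤ) - 2 * q + 1) := by
  have e3 : ws b Finset.univ = ws b W := by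
    rw [← ws_inter_W hb Finset.univ, Finset.univ_inter]
  ext F
  have hstep := ws_step b q F
  have key : MemP G q (fun v => b v + if v ∈ F then q else 0) ↔ _ := hall2 hG q _
  constructor
  · rintro ⟨hFW, hF⟩
    have hF' : ¬ MemP G q (fun v => b v + if v ∈ F then q else 0) := hF
    rw [key] at hF'
    push Not at hF'
    obtain ⟨T, hT, hlt⟩ := hF'
    rw [hstep, hstep, hstep, Finset.univ_inter] at hlt
    have h1 : q * F.card = q * (T ∩ F).card + q * (F \ T).card := by
      rw [← mul_add, Finset.inter_comm, Finset.card_inter_add_card_sdiff]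
    have h2 : ws b (Finset.univ \ T) + ws b T = ws b Finset.univ := by
      have := ws_sdiff_inter b Finset.univ T
      rwa [Finset.univ_inter] at this
    have h3 : ∀ T' : Finset V, Ind G T' → F ⊆ T' → ws b W + 1 + ws b (nb G T') ≤ ws b T' + 2 * q →
        F ∈ Y G b W ((ws b W : ℤ) - 2 * q + 1) := by
      intro T' hT' hFT' hle
      refine ⟨T' ∩ W, Finset.subset_inter hFT' hFW, Finset.inter_subset_right,
        hT'.subset Finset.inter_subset_left, ?_⟩
      have e1 := ws_inter_W hb T'
      have e2 : ws b (nb G (T' ∩ W) ∩ W) ≤ ws b (nb G T') :=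
        ws_mono_set b (Finset.inter_subset_left.trans (nb_mono Finset.inter_subset_left))
      unfold dl
      omega
    by_cases hFT : F ⊆ T
    · exact h3 T hT hFT (by omega)
    · have h4 : 1 ≤ (F \ T).card := by
        rw [Nat.one_le_iff_ne_zero, Ne, Finset.card_eq_zero, Finset.sdiff_eq_empty_iff_subset]
        exact hFT
      have h5 : q * ((F \ T).card + (nb G T ∩ F).card) < q * 2 := by
        rw [mul_add]
        omega
      have h6 := Nat.lt_of_mul_lt_mul_left h5
      have h7 : (F \ T).card = 1 := by omega
      have h8 : (nb G T ∩ F).card = 0 := by omega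
      rw [h7, mul_one] at h1
      rw [h8, mul_zero] at hlt
      obtain ⟨x, hx⟩ := Finset.card_eq_one.1 h7
      have hxF : x ∈ F \ T := by
        rw [hx]
        exact Finset.mem_singleton_self x
      rw [Finset.mem_sdiff] at hxF
      have hxnb : x ∉ nb G T := fun h => by
        rw [Finset.card_eq_zero] at h8
        have h9 : x ∈ nb G T ∩ F := Finset.mem_inter.2 ⟨h, hxF.1⟩
        rw [h8] at h9
        exact Finset.notMem_empty x h9
      have hT' : Ind G (insert x T) := by
        intro y hy z hz hyz
        rw [Finset.mem_insert] at hy hz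
        rcases hy with rfl | hy
        · rcases hz with rfl | hz
          · exact G.loopless.irrefl _ hyz
          · exact hxnb (mem_nb.2 ⟨z, hz, hyz.symm⟩)
        · rcases hz with rfl | hz
          · exact hxnb (mem_nb.2 ⟨y, hy, hyz⟩)
          · exact hT y hy z hz hyz
      refine h3 (insert x T) hT' ?_ ?_
      · intro y hy
        by_cases hyT : y ∈ T
        · exact Finset.mem_insert_of_mem hyT
        · have : y ∈ F \ T := Finset.mem_sdiff.2 ⟨hy, hyT⟩
          rw [hx, Finset.mem_singleton] at this
          rw [this]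
          exact Finset.mem_insert_self x T
      · have h9 : ws b (nb G (insert x T)) ≤ ws b (Finset.univ \ T) := by
          apply ws_mono_set
          intro y hy
          rw [Finset.mem_sdiff]
          exact ⟨Finset.mem_univ y, fun hyT => hT'.nb_not (Finset.mem_insert_of_mem hyT) hy⟩
        have h10 : ws b T ≤ ws b (insert x T) := ws_mono_set b (Finset.subset_insert x T)
        omega
  · rintro ⟨F', hFF, hFW, hI, hdl⟩
    refine ⟨hFF.trans hFW, ?_⟩
    show ¬ MemP G q (fun v => b v + if v ∈ F then q else 0)
    rw [key]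
    intro h
    have h1 := h F' hI
    rw [hstep, hstep, hstep, Finset.univ_inter] at h1
    have h2 : F' ∩ F = F := Finset.inter_eq_right.2 hFF
    have h3 := ws_inter_W hb (nb G F')
    have h4 : (nb G F' ∩ F).card = 0 := by
      rw [Finset.card_eq_zero, Finset.eq_empty_iff_forall_notMem]
      intro y hy
      rw [Finset.mem_inter] at hy
      exact hI.nb_not (hFF hy.2) hy.1
    rw [h2, h4, mul_zero] at h1
    unfold dl at hdl
    omega

end Pool.Agent.LIN
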