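import Pool.Agent.Helper23.LIN.TQ
import Pool.Agent.Helper23.LIN.StpY
import Pool.Agent.Helper23.LIN.Kf
import Pool.Agent.Helper23.LIN.Bridge

/-!
# Project LIN, block FIN: regularity of the powers

`reg_iff`: `kf_iff`, `bridge` (stability: an element of `P G q` has all entries `≤ q`), `stp_eq_Y`. `→`: for `W` and `v ∈ W`, `b = (q - 1) e_v`:
`ws b W - 2 q + 1 = -q < -ws b W`, so the complex is the complex of all independent subsets of `W`; so this one satisfies
`Ex i` for `i ≥ r - (q - 1)`. For `I(G)^1`: `b = 0` is this (`W ≠ ∅`; `W = ∅` is excluded because `r + 1 - q ≥ 2`), `b ≠ 0` is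
`tgen`. `←`: `|b| ≤ q - 1`: all independent subsets of `W`, `i ≥ r - |b| ≥ r + 1 - q`; `|b| ≥ q`: `tgen`.
-/

set_option linter.unusedSectionVars false

namespace Pool.Agent.LIN

open MvPolynomial Pool.Agent.LQ Pool.Agent.LQ.T1

variable {V : Type*} [Fintype V] [LinearOrder V] {K : Type*} [Field K]

private theorem entry_le92 {G : SimpleGraph V} : ∀ {q : ℕ} {u : V →₀ ℕ}, u ∈ P G q → ∀ v, u v ≤ q
  | 0, u, h, v => by
      have : u = 0 := h
      subst this
      simp
  | q + 1, u, ⟨Y, hY, a, b, hab, e⟩, v => by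
      subst e
      have h1 := entry_le92 hY v
      have hne : a ≠ b := hab.ne
      have h2 : (ev a b) v ≤ 1 := by
        unfold ev
        rw [Finsupp.add_apply, Finsupp.single_apply, Finsupp.single_apply]
        split_ifs with h3 h4
        · exact absurd (h3.trans h4.symm) hne
        all_goals omega
      rw [Finsupp.add_apply]
      omega

/-- the complex of all independent subsets -/
private def indC92 (G : SimpleGraph V) (W : Finset V) : Set (Finset V) := {F | F ⊆ W ∧ Ind G F}

private theorem y_low92 {G : SimpleGraph V} {b : V → ℕ} {W : Finset V} {t : ℤ}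
    (ht : t ≤ -(ws b W : ℤ)) : Y G b W t = indC92 G W := by
  ext F
  constructor
  · exact fun h => ⟨Y_sub h, Y_ind h⟩
  · rintro ⟨h1, h2⟩
    refine ⟨F, Finset.Subset.refl _, h1, h2, ht.trans ?_⟩
    unfold dl
    have h3 : ws b (nb G F ∩ W) ≤ ws b W := ws_mono_set b Finset.inter_subset_right
    have h4 : (ws b (nb G F ∩ W) : ℤ) ≤ ws b W := by exact_mod_cast h3
    have h5 : (0 : ℤ) ≤ ws b F := Int.natCast_nonneg _
    linarith

/-- the condition for the power `q` in terms of the independence complexes -/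
private theorem main92 {G : SimpleGraph V} (hG : GF G) {q r : ℕ} (hq : 1 ≤ q) (hr : 2 * q ≤ r) :
    StpC K (fun m => ¬ MemP G q m) q r ↔
      ∀ (W : Finset V) (i : ℕ), r + 1 - q ≤ i → Ex K (indC92 G W) i := by
  constructor
  · intro h W i hi
    rcases W.eq_empty_or_nonempty with rfl | ⟨v, hv⟩
    · refine ex_of_card fun σ hσ h1 => ?_
      have h2 : σ = ∅ := Finset.subset_empty.1 hσ.1
      rw [h2, Finset.card_empty] at h1
      omega
    · set b : V → ℕ := fun u => if u = v then q - 1 else 0 with hb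
      have hws : ws b W = q - 1 := by
        unfold ws
        rw [Finset.sum_eq_single v]
        · simp only [hb, if_pos]
        · intro u _ hu
          simp only [hb, if_neg hu]
        · exact fun h => absurd hv h
      have hb0 : ∀ u, u ∉ W → b u = 0 := by
        intro u hu
        have : u ≠ v := fun h => hu (h ▸ hv)
        simp only [hb, if_neg this]
      have h1 := h W b hb0 i (by rw [hws]; omega)
      rw [stp_eq_Y hG hq hb0, y_low92 (by rw [hws]; omega)] at h1
      exact h1
  · intro h W b hb i hi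
    rw [stp_eq_Y hG hq hb]
    rcases Nat.lt_or_ge (ws b W) q with h1 | h1
    · rw [y_low92 (by omega)]
      exact h W i (by omega)
    · refine tgen hG W _ ?_ (by omega) i (by omega)
      exact ⟨(ws b W : ℤ) - q, by ring⟩

private theorem memP_mono92 {G : SimpleGraph V} {q : ℕ} {m m' : V → ℕ} (h : ∀ v, m v ≤ m' v)
    (hm : MemP G q m) : MemP G q m' := by
  obtain ⟨u, hu, h1⟩ := hm
  exact ⟨u, hu, fun v => (h1 v).trans (h v)⟩

private theorem red92 {G : SimpleGraph V} (hG : GF G) {q r : ℕ} (hq : 1 ≤ q) (hr : 2 * q ≤ r) :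
    KFC K {m | MemP G q m} r ↔
      ∀ (W : Finset V) (i : ℕ), r + 1 - q ≤ i → Ex K (indC92 G W) i := by
  rw [kf_iff (M := {m | MemP G q m}) (fun m m' h hm => memP_mono92 h hm) (by omega : 1 ≤ r)]
  have h1 := bridge (K := K) (Pr := fun m => ¬ MemP G q m)
    (fun m m' h hm hm' => hm (memP_mono92 h hm')) hq (by
      intro m v hv hm hm'
      apply hm
      obtain ⟨u, hu, h1⟩ := hm'
      refine ⟨u, hu, fun w => ?_⟩
      by_cases hw : w = v
      · rw [hw]
        exact (entry_le92 hu v).trans hv
      · have h2 := h1 w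
        rwa [Function.update_of_ne hw] at h2) r
  exact h1.trans (main92 hG hq hr)

theorem reg_iff {G : SimpleGraph V} (hG : GF G) {q r : ℕ} (hq : 1 ≤ q) (hr : 2 * q ≤ r) :
    KFC K {m | MemP G q m} r ↔ KFC K {m | MemP G 1 m} (r + 1 - q) := by
  rw [red92 hG hq hr, red92 hG (le_refl 1) (by omega : 2 * 1 ≤ r + 1 - q)]
  have h1 : r + 1 - q + 1 - 1 = r + 1 - q := by omega
  rw [h1]

/-- the regularity of the powers in terms of the complexes of independent sets -/
theorem kfc_ind {G : SimpleGraph V} (hG : GF G) {q r : ℕ} (hq : 1 ≤ q) (hr : 2 * q ≤ r) :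
    KFC K {m | MemP G q m} r ↔
      ∀ (W : Finset V) (i : ℕ), r + 1 - q ≤ i → Ex K {F : Finset V | F ⊆ W ∧ Ind G F} i :=
  red92 hG hq hr

end Pool.Agent.LIN
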