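import Pool.Agent.Helper23.LIN.MV
import Pool.Agent.Helper75.LQ.Main

/-!
# Project LIN, block GAP: a linear resolution of a power forces the graph to be gapfree

If `ab`, `cd` are edges with no edge between `{a, b}` and `{c, d}` then `a, b, c, d` are distinct. Take `W = {a, b, c, d}`,
`b0 = (q - 1)(e_a + e_b)`, `i = 2`: `2 q ≤ 2 (q - 1) + 2`. `τ ⊆ W` is in the complex iff `τ` contains neither `{a, b}` nor
`{c, d}` (an element `u ∈ P G q` with `u ≤ b0 + 1_τ`: its `q` edges are `ab` or `cd`). The chain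
`z = cn c w - cn d w`, `w = cn a δ_∅ - cn b δ_∅` is a nonzero cycle with `2` elements (`bd_cn`), and there are no members with
`3` elements.
-/

set_option linter.unusedSectionVars false

namespace Pool.Agent.LIN

open Pool.Agent.LQ Pool.Agent.LQ.T1

variable {V : Type*} [Fintype V] [LinearOrder V] {K : Type*} [Field K]

private def e38 (K : Type*) [Field K] : Finset V → K := fun σ => if σ = ∅ then 1 else 0

private theorem bd_e38 : bd (e38 K : Finset V → K) = 0 := by
  funext τ
  unfold bd
  refine Finset.sum_eq_zero fun v _ => ?_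
  unfold e38
  rw [if_neg (Finset.insert_ne_empty v τ), mul_zero]

private theorem cn_e38 {x : V} {τ : Finset V} (h : cn x (e38 K) τ ≠ 0) : τ = {x} := by
  obtain ⟨h1, h2⟩ := cn_ne h
  unfold e38 at h2
  split_ifs at h2 with h3
  · rw [← Finset.insert_erase h1, h3]
    rfl
  · exact absurd rfl h2

private theorem cn_e38_self (x : V) : cn x (e38 K) {x} ≠ 0 := by
  unfold cn e38
  rw [if_pos (Finset.mem_singleton_self x), Finset.erase_singleton, if_pos rfl, mul_one]
  exact sg_ne_zero _ _

private theorem memX38 {G : SimpleGraph V} {q : ℕ} {a b c d : V} (h1 : ¬ G.Adj a c)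
    (h2 : ¬ G.Adj a d) (h3 : ¬ G.Adj b c) (h4 : ¬ G.Adj b d) (hab : G.Adj a b) (hcd : G.Adj c d)
    {τ : Finset V} (hτ : τ ⊆ {a, b, c, d}) (t1 : ¬ (a ∈ τ ∧ b ∈ τ)) (t2 : ¬ (c ∈ τ ∧ d ∈ τ)) (hq : 1 ≤ q) :
    ¬ MemP G q (fun v => (if v = a ∨ v = b then q - 1 else 0) + if v ∈ τ then 1 else 0) := by
  rintro ⟨u, hu, hle0⟩
  have hle : ∀ v, u v ≤ (if v = a ∨ v = b then q - 1 else 0) + if v ∈ τ then 1 else 0 := hle0
  have ac : a ≠ c := by rintro rfl; exact h2 hcd
  have ad : a ≠ d := by rintro rfl; exact h1 hcd.symm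
  have bc : b ≠ c := by rintro rfl; exact h4 hcd
  have bd : b ≠ d := by rintro rfl; exact h3 hcd.symm
  have nab := hab.ne
  have ncd := hcd.ne
  have hsup : ∀ v, 0 < u v → v = a ∨ v = b ∨ v = c ∨ v = d := by
    intro v hv
    have h5 := hle v
    by_cases h6 : v = a ∨ v = b
    · rcases h6 with h6 | h6
      · exact Or.inl h6
      · exact Or.inr (Or.inl h6)
    · rw [if_neg h6] at h5
      by_cases h7 : v ∈ τ
      · simpa using hτ h7
      · rw [if_neg h7] at h5
        omega
  obtain ⟨e1, e2⟩ := gap_aux h1 h2 h3 h4 hab hcd hu hsup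
  have hdeg := degree_of_mem_P hu
  rw [← ws_univ] at hdeg
  have hsum : ws u Finset.univ = ws u {a, b, c, d} := by
    symm
    refine Finset.sum_subset (Finset.subset_univ _) fun v _ hv => ?_
    by_contra h5
    apply hv
    have := hsup v (Nat.pos_of_ne_zero h5)
    simpa using this
  rw [hsum] at hdeg
  unfold ws at hdeg
  rw [Finset.sum_insert (by simp [nab, ac, ad]), Finset.sum_insert (by simp [bc, bd]),
    Finset.sum_insert (by simp [ncd]), Finset.sum_singleton] at hdeg
  have la := hle a
  have lb := hle b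
  have lc := hle c
  have ld := hle d
  rw [if_pos (Or.inl rfl)] at la
  rw [if_pos (Or.inr rfl)] at lb
  rw [if_neg (by rintro (h | h); exacts [ac h.symm, bc h.symm])] at lc
  rw [if_neg (by rintro (h | h); exacts [ad h.symm, bd h.symm])] at ld
  have k1 : u a ≤ q - 1 := by
    by_cases h5 : a ∈ τ
    · have h6 : b ∉ τ := fun h => t1 ⟨h5, h⟩
      rw [if_neg h6] at lb
      omega
    · rw [if_neg h5] at la
      omega
  have k2 : u c = 0 := by
    by_cases h5 : c ∈ τ
    · have h6 : d ∉ τ := fun h => t2 ⟨h5, h⟩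
      rw [if_neg h6] at ld
      omega
    · rw [if_neg h5] at lc
      omega
  omega

private theorem notX38 {G : SimpleGraph V} {q : ℕ} {a b c d : V} (hab : G.Adj a b) (hcd : G.Adj c d)
    {τ : Finset V} (hq : 1 ≤ q) (ac : a ≠ c) (ad : a ≠ d) (bc : b ≠ c) (bd : b ≠ d)
    (h : ¬ MemP G q (fun v => (if v = a ∨ v = b then q - 1 else 0) + if v ∈ τ then 1 else 0)) :
    ¬ (a ∈ τ ∧ b ∈ τ) ∧ ¬ (c ∈ τ ∧ d ∈ τ) := by
  have nab := hab.ne
  have ncd := hcd.ne
  refine ⟨fun ht => h ?_, fun ht => h ?_⟩
  · refine ⟨q • (δ a + δ b), smul_edge_mem hab q, fun v => ?_⟩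
    simp only [Finsupp.smul_apply, Finsupp.add_apply, smul_eq_mul]
    by_cases hva : v = a
    · subst hva
      rw [δ_self, δ_ne nab.symm, if_pos (Or.inl rfl), if_pos ht.1]
      omega
    · by_cases hvb : v = b
      · subst hvb
        rw [δ_self, δ_ne nab, if_pos (Or.inr rfl), if_pos ht.2]
        omega
      · rw [δ_ne (Ne.symm hva), δ_ne (Ne.symm hvb)]
        simp
  · obtain ⟨q', rfl⟩ : ∃ q', q = q' + 1 := ⟨q - 1, by omega⟩
    refine ⟨q' • (δ a + δ b) + δ c + δ d, add_edge (smul_edge_mem hab q') hcd rfl, fun v => ?_⟩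
    simp only [Finsupp.smul_apply, Finsupp.add_apply, smul_eq_mul, Nat.add_sub_cancel]
    by_cases hva : v = a
    · subst hva
      rw [δ_self, δ_ne nab.symm, δ_ne ac.symm, δ_ne ad.symm, if_pos (Or.inl rfl)]
      omega
    · by_cases hvb : v = b
      · subst hvb
        rw [δ_self, δ_ne nab, δ_ne bc.symm, δ_ne bd.symm, if_pos (Or.inr rfl)]
        omega
      · rw [δ_ne (Ne.symm hva), δ_ne (Ne.symm hvb)]
        by_cases hvc : v = c
        · subst hvc
          rw [δ_self, δ_ne ncd.symm, if_pos ht.1]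
          omega
        · by_cases hvd : v = d
          · subst hvd
            rw [δ_self, δ_ne ncd, if_pos ht.2]
            omega
          · rw [δ_ne (Ne.symm hvc), δ_ne (Ne.symm hvd)]
            omega

theorem gap {G : SimpleGraph V} {q : ℕ} (hq : 1 ≤ q)
    (h : StpC K (fun m => ¬ MemP G q m) 1 (2 * q)) : GF G := by
  intro a b c d hab hcd
  by_contra hcon
  push Not at hcon
  obtain ⟨h1, h2, h3, h4⟩ := hcon
  have ac : a ≠ c := by rintro rfl; exact h2 hcd
  have ad : a ≠ d := by rintro rfl; exact h1 hcd.symm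
  have bc : b ≠ c := by rintro rfl; exact h4 hcd
  have bd' : b ≠ d := by rintro rfl; exact h3 hcd.symm
  have nab := hab.ne
  have ncd := hcd.ne
  have hb0 : ∀ v, v ∉ ({a, b, c, d} : Finset V) → (if v = a ∨ v = b then q - 1 else 0) = 0 := by
    intro v hv
    refine if_neg fun h' => hv ?_
    rcases h' with h' | h' <;> simp [h']
  have hws : 2 * q ≤ ws (fun v => if v = a ∨ v = b then q - 1 else 0) ({a, b, c, d} : Finset V) + 2 := by
    unfold ws
    rw [Finset.sum_insert (by simp [nab, ac, ad]), Finset.sum_insert (by simp [bc, bd']),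
      Finset.sum_insert (by simp [ncd]), Finset.sum_singleton, if_pos (Or.inl rfl), if_pos (Or.inr rfl)]
    omega
  have hEx := h {a, b, c, d} (fun v => if v = a ∨ v = b then q - 1 else 0) hb0 2 hws
  set w : Finset V → K := cn a (e38 K) - cn b (e38 K) with hw
  have hbw : bd w = 0 := by
    rw [hw, bd_sub, bd_cn, bd_cn, bd_e38, cn_zero, cn_zero, sub_self]
  have hwne : ∀ τ, w τ ≠ 0 → τ = {a} ∨ τ = {b} := by
    intro τ hτ
    by_cases h5 : cn a (e38 K) τ = 0
    · right
      refine cn_e38 (K := K) fun h6 => hτ ?_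
      rw [hw, Pi.sub_apply, h5, h6, sub_zero]
    · exact Or.inl (cn_e38 h5)
  have hz := hEx (cn c w - cn d w) (by
    intro σ hσ
    have h5 : ∃ y, (y = c ∨ y = d) ∧ cn y w σ ≠ 0 := by
      by_cases h6 : cn c w σ = 0
      · refine ⟨d, Or.inr rfl, fun h7 => hσ ?_⟩
        rw [Pi.sub_apply, h6, h7, sub_zero]
      · exact ⟨c, Or.inl rfl, h6⟩
    obtain ⟨y, hy, h6⟩ := h5
    obtain ⟨h7, h8⟩ := cn_ne h6
    obtain ⟨x, hx, h9⟩ : ∃ x, (x = a ∨ x = b) ∧ σ.erase y = {x} := by
      rcases hwne _ h8 with h9 | h9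
      · exact ⟨a, Or.inl rfl, h9⟩
      · exact ⟨b, Or.inr rfl, h9⟩
    have hσe : σ = {y, x} := by
      rw [← Finset.insert_erase h7, h9]
    have hyx : y ≠ x := by
      rcases hy with rfl | rfl <;> rcases hx with rfl | rfl
      · exact ac.symm
      · exact bc.symm
      · exact ad.symm
      · exact bd'.symm
    refine ⟨⟨?_, ?_⟩, ?_⟩
    · rw [hσe]
      intro v hv
      rw [Finset.mem_insert, Finset.mem_singleton] at hv
      rcases hv with rfl | rfl
      · rcases hy with rfl | rfl <;> simp
      · rcases hx with rfl | rfl <;> simp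
    · refine memX38 h1 h2 h3 h4 hab hcd ?_ ?_ ?_ hq
      · rw [hσe]
        intro v hv
        rw [Finset.mem_insert, Finset.mem_singleton] at hv
        rcases hv with rfl | rfl
        · rcases hy with rfl | rfl <;> simp
        · rcases hx with rfl | rfl <;> simp
      · rintro ⟨g1, g2⟩
        rw [hσe, Finset.mem_insert, Finset.mem_singleton] at g1 g2
        have n1 : a ≠ y := by
          rcases hy with rfl | rfl
          · exact ac
          · exact ad
        have n2 : b ≠ y := by
          rcases hy with rfl | rfl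
          · exact bc
          · exact bd'
        exact nab ((g1.resolve_left n1).trans (g2.resolve_left n2).symm)
      · rintro ⟨g1, g2⟩
        rw [hσe, Finset.mem_insert, Finset.mem_singleton] at g1 g2
        have n1 : c ≠ x := by
          rcases hx with rfl | rfl
          · exact ac.symm
          · exact bc.symm
        have n2 : d ≠ x := by
          rcases hx with rfl | rfl
          · exact ad.symm
          · exact bd'.symm
        exact ncd ((g1.resolve_right n1).trans (g2.resolve_right n2).symm)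
    · rw [hσe, Finset.card_pair hyx]) (by
    rw [bd_sub, bd_cn, bd_cn, hbw, cn_zero, cn_zero, sub_self])
  obtain ⟨f, hf1, hf2⟩ := hz
  have hf0 : f = 0 := by
    funext τ
    by_contra hτ
    obtain ⟨⟨k1, k2⟩, k3⟩ := hf1 τ hτ
    obtain ⟨k4, k5⟩ := notX38 hab hcd hq ac ad bc bd' k2
    have hmem : ∀ v ∈ τ, v = a ∨ v = b ∨ v = c ∨ v = d := fun v hv => by simpa using k1 hv
    have hle2 : τ.card ≤ 2 := by
      have h5 : a ∉ τ ∨ b ∉ τ := by tauto
      have h6 : c ∉ τ ∨ d ∉ τ := by tauto
      rcases h5 with h5 | h5 <;> rcases h6 with h6 | h6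
      · refine (Finset.card_le_card (t := {b, d}) fun v hv => ?_).trans Finset.card_le_two
        rcases hmem v hv with rfl | rfl | rfl | rfl <;> simp_all
      · refine (Finset.card_le_card (t := {b, c}) fun v hv => ?_).trans Finset.card_le_two
        rcases hmem v hv with rfl | rfl | rfl | rfl <;> simp_all
      · refine (Finset.card_le_card (t := {a, d}) fun v hv => ?_).trans Finset.card_le_two
        rcases hmem v hv with rfl | rfl | rfl | rfl <;> simp_all
      · refine (Finset.card_le_card (t := {a, c}) fun v hv => ?_).trans Finset.card_le_two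
        rcases hmem v hv with rfl | rfl | rfl | rfl <;> simp_all
    omega
  rw [hf0, bd_zero] at hf2
  have h5 := congrFun hf2 {c, a}
  have h6 : cn d w {c, a} = 0 := by
    unfold cn
    refine if_neg ?_
    rw [Finset.mem_insert, Finset.mem_singleton]
    rintro (h | h)
    · exact ncd h.symm
    · exact ad h.symm
  have h7 : cn b (e38 K) ({a} : Finset V) = 0 := by
    unfold cn
    refine if_neg ?_
    rw [Finset.mem_singleton]
    exact nab.symm
  have h8 : ({c, a} : Finset V).erase c = {a} := by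
    rw [Finset.erase_insert]
    rw [Finset.mem_singleton]
    exact ac.symm
  have h9 : cn c w {c, a} = sg K c {a} * w {a} := by
    unfold cn
    rw [if_pos (Finset.mem_insert_self c {a}), h8]
  rw [Pi.zero_apply, Pi.sub_apply, h6, h9, sub_zero, hw, Pi.sub_apply, h7, sub_zero] at h5
  exact mul_ne_zero (sg_ne_zero _ _) (cn_e38_self a) h5.symm

end Pool.Agent.LIN
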