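import Pool.Agent.Helper23.LIN.MV

/-!
# Project LIN, block LQK: linear quotients give a linear resolution (Koszul version)

Induction along the list `u_1, …, u_r`: `E_k = {u_1, …, u_k}`, `M_k` the exponents divisible by some element of `E_k`.
`KF M_k c ⊆ KF M_{k+1} c`, both lower sets. A set `σ` is in the difference iff `u ≤ c - 1_σ` (`u = u_{k+1}`, and `σ ⊆ supp c`) and `c - 1_σ ∉ M_k`; by
the linear quotients property the latter means that `(c - 1_σ) v = u v` for all `v` in the set `T` of the `t` such that some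
`b' ∈ E_k` has `b' ≤ u + e_t`. If some `v ∉ T` has `u v < c v`: adding or removing `v` in `σ` does not change
the membership in the difference: `ex_rel` with this `v`. If not, then the difference has at most the element `σ = {v | u v < c v}`,
with `|c| - d` elements: for `j ≠ |c| - d` (as `d + j < |c|`) the chains with `j` elements are the same and `Ex` for the larger
complex follows from `Ex` for the smaller one.
-/

set_option linter.unusedSectionVars false

namespace Pool.Agent.LIN

open Pool.Agent.LQ Pool.Agent.LQ.T1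

variable {V : Type*} [Fintype V] [LinearOrder V] {K : Type*} [Field K]

/-- exponents divisible by an element of the list -/
private def Mu31 (l : List (V →₀ ℕ)) : Set (V → ℕ) := {m | ∃ u ∈ l, ∀ v, u v ≤ m v}

private theorem kf_lower31 (l : List (V →₀ ℕ)) (c : V → ℕ) : IsLowerSet (KF (Mu31 l) c) := by
  intro τ σ hστ hτ
  obtain ⟨h1, u, hu, h2⟩ := hτ
  refine ⟨fun v hv => h1 v (hστ hv), u, hu, fun v => (h2 v).trans ?_⟩
  show (c v - if v ∈ τ then 1 else 0) ≤ (c v - if v ∈ σ then 1 else 0)
  by_cases hv : v ∈ σ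
  · rw [if_pos hv, if_pos (hστ hv)]
  · rw [if_neg hv]
    exact Nat.sub_le_sub_left (Nat.zero_le _) _

private theorem step31 {l : List (V →₀ ℕ)} {u : V →₀ ℕ} {d : ℕ} (hu : u.degree = d)
    (hq : ∀ b ∈ l, ∃ t, u t < b t ∧ ∃ b' ∈ l, b' ≤ u + Finsupp.single t 1) {c : V → ℕ} {j : ℕ}
    (hcj : d + j < ws c Finset.univ) (h : Ex K (KF (Mu31 l) c) j) : Ex K (KF (Mu31 (l ++ [u])) c) j := by
  have hsub : KF (Mu31 l) c ⊆ KF (Mu31 (l ++ [u])) c := by
    rintro σ ⟨h1, b, hb, h2⟩
    exact ⟨h1, b, List.mem_append_left _ hb, h2⟩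
  -- the difference
  have hdiff : ∀ σ ∈ KF (Mu31 (l ++ [u])) c, σ ∉ KF (Mu31 l) c →
      ∀ v, u v ≤ c v - if v ∈ σ then 1 else 0 := by
    rintro σ ⟨h1, b, hb, h2⟩ hσ
    rcases List.mem_append.1 hb with hb | hb
    · exact absurd ⟨h1, b, hb, h2⟩ hσ
    · rw [List.mem_singleton.1 hb] at h2
      exact h2
  by_cases hcase : ∃ v, u v < c v ∧ ¬ ∃ b' ∈ l, b' ≤ u + Finsupp.single v 1
  · obtain ⟨v, hv1, hv2⟩ := hcase
    refine ex_rel v (kf_lower31 _ _) (kf_lower31 _ _) hsub ?_ h
    intro σ hσY hσX
    have hu' := hdiff σ hσY hσX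
    refine ⟨⟨?_, u, List.mem_append_right _ (List.mem_singleton.2 rfl), ?_⟩, ?_⟩
    · intro w hw
      rcases Finset.mem_insert.1 hw with hw | hw
      · rw [hw]
        omega
      · exact hσY.1 w hw
    · intro w
      show u w ≤ c w - if w ∈ insert v σ then 1 else 0
      by_cases hw : w = v
      · rw [hw, if_pos (Finset.mem_insert_self v σ)]
        omega
      · have h3 := hu' w
        by_cases hwσ : w ∈ σ
        · rw [if_pos hwσ] at h3
          rw [if_pos (Finset.mem_insert_of_mem hwσ)]
          exact h3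
        · rw [if_neg hwσ] at h3
          rw [if_neg fun h4 => (Finset.mem_insert.1 h4).elim hw hwσ]
          exact h3
    · rintro ⟨_, b, hb, h2⟩
      apply hσX
      obtain ⟨t, ht1, b', hb', ht2⟩ := hq b hb
      have htv : t ≠ v := by
        intro h3
        rw [h3] at ht2
        exact hv2 ⟨b', hb', ht2⟩
      refine ⟨hσY.1, b', hb', fun w => ?_⟩
      have h4 : b' w ≤ u w + (Finsupp.single t 1 : V →₀ ℕ) w := ht2 w
      show b' w ≤ c w - if w ∈ σ then 1 else 0
      by_cases hw : w = t
      · rw [hw] at h4 ⊢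
        rw [Finsupp.single_eq_same] at h4
        have h5 : b t ≤ c t - if t ∈ σ.erase v then 1 else 0 := h2 t
        have h6 : (t ∈ σ.erase v) ↔ t ∈ σ := by
          rw [Finset.mem_erase]
          exact ⟨fun h => h.2, fun h => ⟨htv, h⟩⟩
        by_cases h7 : t ∈ σ
        · rw [if_pos (h6.2 h7)] at h5
          rw [if_pos h7]
          omega
        · rw [if_neg fun h => h7 (h6.1 h)] at h5
          rw [if_neg h7]
          omega
      · rw [Finsupp.single_eq_of_ne hw] at h4
        have := hu' w
        omega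
  · push Not at hcase
    intro z hz hbd
    have hcard : ∀ σ ∈ KF (Mu31 (l ++ [u])) c, σ ∉ KF (Mu31 l) c → σ.card ≠ j := by
      intro σ hσY hσX hσj
      have hu' := hdiff σ hσY hσX
      have heq : ∀ v, c v = u v + if v ∈ σ then 1 else 0 := by
        intro v
        by_contra hne
        have h3 : u v < c v - if v ∈ σ then 1 else 0 := by
          have h4 := hu' v
          by_cases hv : v ∈ σ
          · rw [if_pos hv] at h4 hne ⊢
            have := hσY.1 v hv
            omega
          · rw [if_neg hv] at h4 hne ⊢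
            omega
        have h5 : u v < c v := lt_of_lt_of_le h3 (Nat.sub_le _ _)
        obtain ⟨b', hb', hle⟩ := hcase v h5
        apply hσX
        refine ⟨hσY.1, b', hb', fun w => ?_⟩
        have h6 : b' w ≤ u w + (Finsupp.single v 1 : V →₀ ℕ) w := hle w
        show b' w ≤ c w - if w ∈ σ then 1 else 0
        by_cases hw : w = v
        · rw [hw] at h6 ⊢
          rw [Finsupp.single_eq_same] at h6
          omega
        · rw [Finsupp.single_eq_of_ne hw] at h6
          have := hu' w
          omega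
      have hsum : ws c Finset.univ = d + σ.card := by
        unfold ws
        rw [Finset.sum_congr rfl fun v _ => heq v, Finset.sum_add_distrib, ← hu, Finsupp.degree_eq_sum,
          Finset.sum_boole]
        simp
      omega
    obtain ⟨w, hw1, hw2⟩ := h z (by
      intro σ hσ
      obtain ⟨k1, k2⟩ := hz σ hσ
      refine ⟨?_, k2⟩
      by_contra k3
      exact hcard σ k1 k3 k2) hbd
    exact ⟨w, hw1.mono hsub, hw2⟩

theorem clq_kfc {E : Set (V →₀ ℕ)} {d : ℕ} (hd : ∀ u ∈ E, u.degree = d) (h : CLQ E) :
    KFC K {m : V → ℕ | ∃ u ∈ E, ∀ v, u v ≤ m v} d := by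
  obtain ⟨l, _, hl, hq⟩ := h
  have key : ∀ k, k ≤ l.length → ∀ (c : V → ℕ) (j : ℕ), d + j < ws c Finset.univ →
      Ex K (KF (Mu31 (l.take k)) c) j := by
    intro k
    induction k with
    | zero =>
      intro _ c j _
      refine ex_of_card fun σ hσ => ?_
      obtain ⟨_, u, hu, _⟩ := hσ
      simp at hu
    | succ k ih =>
      intro hk c j hcj
      have hk' : k < l.length := hk
      rw [List.take_succ_eq_append_getElem hk']
      exact step31 (hd _ ((hl _).1 (List.getElem_mem hk'))) (hq k hk') hcj (ih hk'.le c j hcj)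
  intro c j hcj
  have h1 := key l.length le_rfl c j hcj
  rw [List.take_length] at h1
  have h2 : Mu31 l = {m : V → ℕ | ∃ u ∈ E, ∀ v, u v ≤ m v} := by
    ext m
    constructor
    · rintro ⟨u, hu, h3⟩
      exact ⟨u, (hl u).1 hu, h3⟩
    · rintro ⟨u, hu, h3⟩
      exact ⟨u, (hl u).2 hu, h3⟩
  rwa [h2] at h1

end Pool.Agent.LIN
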