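import Pool.Agent.Helper23.LIN.Step

/-!
# Project LIN, block RES: linear resolutions and Koszul homology

`linResM_iff`: `←`: iterate `step` (states: `n`, a graded submodule `N` of `Fin n → S` with `LinKos N 1`; the next state is given by
the generators `g' : Fin n' → (Fin n → S)` of `N`, the matrix is `A j k = g' k j` (so `A.mulVec v = ∑ v k • g' k`), and
`syz g'`). `→`: `grd_span`, `span_low`, and `LinKosAt` for all the syzygy modules (the submodules spanned by the columns of
`A i`) by induction on the Koszul index `i` with `conv`.
`linRes_iff_M`: `LinRes I d ↔ LinResM (ofIdeal I) d` (replace `g k` by `fun _ => g k`).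
-/

set_option linter.unusedSectionVars false

namespace Pool.Agent.LIN

open MvPolynomial Pool.Agent.LQ Pool.Agent.LQ.T1

variable {V : Type*} [Fintype V] [LinearOrder V] {K : Type*} [Field K] {ι : Type*} [Fintype ι]

/-- states of the iteration -/
private structure St (V : Type*) [Fintype V] [LinearOrder V] (K : Type*) [Field K] where
  n : ℕ
  N : Submodule (MvPolynomial V K) (Fin n → MvPolynomial V K)
  grd : Grd N
  kos : LinKos N 1

private theorem St.ex (s : St V K) : ∃ (n : ℕ) (g : Fin n → Fin s.n → MvPolynomial V K),
      (∀ k j, (g k j).IsHomogeneous 1) ∧ Submodule.span (MvPolynomial V K) (Set.range g) = s.N ∧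
      Grd (syz g) ∧ LinKos (syz g) 1 := step s.grd s.kos

/-- the number of generators -/
private noncomputable def St.m (s : St V K) : ℕ := s.ex.choose

/-- generators -/
private noncomputable def St.g (s : St V K) : Fin s.m → Fin s.n → MvPolynomial V K :=
  s.ex.choose_spec.choose

private theorem St.spec (s : St V K) : (∀ k j, (s.g k j).IsHomogeneous 1) ∧
    Submodule.span (MvPolynomial V K) (Set.range s.g) = s.N ∧ Grd (syz s.g) ∧ LinKos (syz s.g) 1 :=
  s.ex.choose_spec.choose_spec

/-- the next state -/
private noncomputable def St.next (s : St V K) : St V K where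
  n := s.m
  N := syz s.g
  grd := s.spec.2.2.1
  kos := s.spec.2.2.2

/-- the sequence of states -/
private noncomputable def St.seq (s : St V K) : ℕ → St V K
  | 0 => s
  | i + 1 => (St.seq s i).next

private theorem mulVec_eq {m n : ℕ} (g : Fin n → Fin m → MvPolynomial V K)
    (v : Fin n → MvPolynomial V K) :
    (Matrix.of fun j k => g k j).mulVec v = ∑ k, v k • g k := by
  funext j
  rw [Finset.sum_apply]
  unfold Matrix.mulVec dotProduct
  refine Finset.sum_congr rfl fun k _ => ?_
  exact mul_comm (g k j) (v k)

omit [Fintype ι] in
private theorem mem_span_range {n : ℕ} {g : Fin n → ι → MvPolynomial V K}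
    {f : ι → MvPolynomial V K} :
    f ∈ Submodule.span (MvPolynomial V K) (Set.range g) ↔ ∃ v : Fin n → MvPolynomial V K,
      ∑ k, v k • g k = f := by
  rw [Submodule.mem_span_range_iff_exists_fun]

theorem linResM_iff {M : Submodule (MvPolynomial V K) (ι → MvPolynomial V K)} {d : ℕ} :
    LinResM M d ↔ Grd M ∧ LinKos M d := by
  constructor
  · rintro ⟨β, g, A, hg, hM, hA, h0, h1⟩
    let G : ∀ i, Fin (β (i + 1)) → Fin (β i) → MvPolynomial V K := fun i k j => A i j k
    have hG : ∀ i k j, (G i k j).IsHomogeneous 1 := fun i k j => hA i j k
    have hGA : ∀ i v, (A i).mulVec v = ∑ k, v k • G i k := fun i v => mulVec_eq (G i) v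
    have hs0 : syz g = Submodule.span (MvPolynomial V K) (Set.range (G 0)) := by
      ext v
      rw [mem_syz, h0, mem_span_range]
      simp only [hGA]
    have hs1 : ∀ i, syz (G i) = Submodule.span (MvPolynomial V K) (Set.range (G (i + 1))) := by
      intro i
      ext v
      rw [mem_syz, ← hGA, h1, mem_span_range]
      simp only [hGA]
    have hP : ∀ j i, LinKosAt (Submodule.span (MvPolynomial V K) (Set.range (G i))) 1 j := by
      intro j
      induction j with
      | zero => exact fun i => conv (hG i) fun j hj => by omega
      | succ j ih =>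
        intro i
        refine conv (hG i) fun j' hj' => ?_
        have : j' = j := by omega
        subst this
        rw [hs1 i]
        exact ih (i + 1)
    refine ⟨hM ▸ grd_span hg, hM ▸ span_low hg, fun i => ?_⟩
    rw [← hM]
    refine conv hg fun j _ => ?_
    rw [hs0]
    exact hP j 0
  · rintro ⟨hG, hK⟩
    obtain ⟨n, g, hg1, hg2, hg3, hg4⟩ := step hG hK
    let s : St V K := ⟨n, syz g, hg3, hg4⟩
    refine ⟨fun i => (s.seq i).n, g, fun i => Matrix.of fun j k => (s.seq i).g k j, hg1, hg2,
      fun i j k => (s.seq i).spec.1 k j, fun v => ?_, fun i v => ?_⟩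
    · have h := (s.seq 0).spec.2.1
      have h' : v ∈ (s.seq 0).N ↔ ∑ k, v k • g k = 0 := mem_syz g v
      rw [← h', ← h, mem_span_range]
      refine exists_congr fun w => ?_
      exact Eq.congr_left (mulVec_eq (s.seq 0).g w).symm
    · have h := (s.seq (i + 1)).spec.2.1
      have h' : v ∈ (s.seq (i + 1)).N ↔ ∑ k, v k • (s.seq i).g k = 0 := mem_syz (s.seq i).g v
      have e1 : (Matrix.of fun j k => (s.seq i).g k j).mulVec v = ∑ k, v k • (s.seq i).g k :=
        mulVec_eq (s.seq i).g v
      refine Iff.trans (Eq.congr_left e1) ?_
      rw [← h', ← h, mem_span_range]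
      refine exists_congr fun w => ?_
      exact Eq.congr_left (mulVec_eq (s.seq (i + 1)).g w).symm

theorem linRes_iff_M {I : Ideal (MvPolynomial V K)} {d : ℕ} :
    LinRes I d ↔ LinResM (ofIdeal I) d := by
  constructor
  · rintro ⟨β, g, A, hg, hM, hA, h0, h1⟩
    refine ⟨β, fun k _ => g k, A, fun k _ => hg k, ?_, hA, fun v => ?_, h1⟩
    · ext f
      rw [mem_span_range, mem_ofIdeal, ← hM, Ideal.span, Submodule.mem_span_range_iff_exists_fun]
      refine exists_congr fun v => ?_
      constructor
      · intro h
        have := congrFun h ()
        rw [Finset.sum_apply] at this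
        exact this
      · intro h
        funext u
        rw [Finset.sum_apply]
        exact h
    · rw [← h0]
      constructor
      · intro h
        have := congrFun h ()
        rw [Finset.sum_apply] at this
        exact this
      · intro h
        funext u
        rw [Finset.sum_apply]
        exact h
  · rintro ⟨β, g, A, hg, hM, hA, h0, h1⟩
    refine ⟨β, fun k => g k (), A, fun k => hg k (), ?_, hA, fun v => ?_, h1⟩
    · ext f
      have hf : f ∈ I ↔ (fun _ => f) ∈ ofIdeal I := Iff.rfl
      rw [hf, ← hM, mem_span_range, Ideal.span, Submodule.mem_span_range_iff_exists_fun]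
      refine exists_congr fun v => ?_
      constructor
      · intro h
        funext u
        rw [Finset.sum_apply]
        exact h
      · intro h
        have := congrFun h ()
        rw [Finset.sum_apply] at this
        exact this
    · rw [← h0]
      constructor
      · intro h
        funext u
        rw [Finset.sum_apply]
        exact h
      · intro h
        have := congrFun h ()
        rw [Finset.sum_apply] at this
        exact this

end Pool.Agent.LIN
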