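import Pool.Agent.Helper23.LIN.Kf
import Pool.Agent.Helper23.LIN.Bridge
import Pool.Agent.Helper23.LIN.LQK
import Pool.Agent.Helper23.LIN.Gap
import Pool.Agent.Helper23.LIN.Res

/-!
# Project LIN, block FIN2: linear resolutions of powers and the conditions `KFC`

`regLE_iff`: `linRes_iff_M`, `linResM_iff`; `edgeIdeal K G ^ q` is the monomial ideal with exponents `{m | MemP G q m}` (`pow_edgeIdeal`,
`mem_ideal_span_monomial_image`), `Ideal.span (Set.range X) ^ r` consists of the polynomials all whose monomials have degree `≥ r`. The intersection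
has no elements of degree `< r`, and in the degrees `≥ r` it agrees with `I^q`, so `LinKosAt` for it and for `I^q` is the same: `strand`.
`linRes_iff`: `I^q ≤ 𝔪^(2q)`, so it is `regLE_iff` with `r = 2 q`.
`linRes_degree`: `(x_a x_b)^q ∈ I^q` has degree `2 q` and is in the span of forms of degree `d`, so `d ≤ 2 q`; a nonzero generator of degree `d`
is in `𝔪^(2q)`, so `2 q ≤ d`.
`gap'`: `kf_iff` and `gap`.
-/

set_option linter.unusedSectionVars false

namespace Pool.Agent.LIN

open MvPolynomial Pool.Agent.LQ Pool.Agent.LQ.T1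

variable {V : Type*} [Fintype V] [LinearOrder V] {K : Type*} [Field K]

private lemma mem_pow_iff {G : SimpleGraph V} {q : ℕ} (f : MvPolynomial V K) :
    f ∈ edgeIdeal K G ^ q ↔ ∀ m ∈ f.support, (⇑m) ∈ {m : V → ℕ | MemP G q m} := by
  rw [pow_edgeIdeal, mem_ideal_span_monomial_image]
  rfl

private lemma mem_max_iff {r : ℕ} (f : MvPolynomial V K) :
    f ∈ (Ideal.span (Set.range X) : Ideal (MvPolynomial V K)) ^ r ↔ ∀ m ∈ f.support, r ≤ m.degree :=
  mem_pow_idealOfVars_iff r f

private lemma deg_of_hom {e : ℕ} {f : MvPolynomial V K} (hf : f.IsHomogeneous e) {m : V →₀ ℕ}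
    (hm : coeff m f ≠ 0) : m.degree = e := by
  have h1 := hf hm
  rw [← h1, Finsupp.degree_eq_weight_one (R := ℕ)]
  rfl

private lemma hom_mem_max {r e : ℕ} (hr : r ≤ e) {f : MvPolynomial V K} (hf : f.IsHomogeneous e) :
    f ∈ (Ideal.span (Set.range X) : Ideal (MvPolynomial V K)) ^ r := by
  rw [mem_max_iff]
  intro m hm
  rw [MvPolynomial.mem_support_iff] at hm
  have h1 := deg_of_hom hf hm
  omega

private lemma linKosAt_inf {I : Ideal (MvPolynomial V K)} {r i : ℕ} :
    LinKosAt (ofIdeal (I ⊓ Ideal.span (Set.range X) ^ r)) r i ↔ LinKosAt (ofIdeal I) r i := by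
  have key : ∀ (i e : ℕ) (z : Finset V → Unit → MvPolynomial V K), r ≤ e →
      (KCh (ofIdeal (I ⊓ Ideal.span (Set.range X) ^ r)) i e z ↔ KCh (ofIdeal I) i e z) := by
    intro i e z hre
    constructor
    · intro h σ
      exact ⟨(h σ).1, (Submodule.mem_inf.1 ((mem_ofIdeal _ _).1 (h σ).2.1)).1, (h σ).2.2⟩
    · intro h σ
      refine ⟨(h σ).1, ?_, (h σ).2.2⟩
      rw [mem_ofIdeal, Submodule.mem_inf]
      exact ⟨(h σ).2.1, hom_mem_max hre ((h σ).2.2 ())⟩
  unfold LinKosAt
  constructor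
  · intro h e he z hz hz0
    obtain ⟨w, hw, hw2⟩ := h e he z ((key i (e + 1) z (by omega)).2 hz) hz0
    exact ⟨w, (key (i + 1) e w he).1 hw, hw2⟩
  · intro h e he z hz hz0
    obtain ⟨w, hw, hw2⟩ := h e he z ((key i (e + 1) z (by omega)).1 hz) hz0
    exact ⟨w, (key (i + 1) e w he).2 hw, hw2⟩

private lemma homComp_support {f : MvPolynomial V K} {e : ℕ} {m : V →₀ ℕ}
    (hm : m ∈ (homogeneousComponent e f).support) : m ∈ f.support := by
  rw [MvPolynomial.mem_support_iff, coeff_homogeneousComponent] at hm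
  rw [MvPolynomial.mem_support_iff]
  intro h
  apply hm
  rw [h]
  split_ifs <;> rfl

/-- regularity at most `r`, for the powers of the edge ideal -/
theorem regLE_iff {G : SimpleGraph V} {q r : ℕ} :
    LinRes (edgeIdeal K G ^ q ⊓ Ideal.span (Set.range X) ^ r) r ↔ KFC K {m | MemP G q m} r := by
  rw [linRes_iff_M, linResM_iff, strand (I := edgeIdeal K G ^ q) mem_pow_iff r]
  constructor
  · rintro ⟨_, _, h⟩ i
    exact linKosAt_inf.1 (h i)
  · intro h
    refine ⟨?_, ?_, fun i => linKosAt_inf.2 (h i)⟩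
    · intro f hf e
      rw [mem_ofIdeal, Submodule.mem_inf] at hf ⊢
      rw [mem_pow_iff, mem_max_iff] at hf ⊢
      exact ⟨fun m hm => hf.1 m (homComp_support hm), fun m hm => hf.2 m (homComp_support hm)⟩
    · intro e he f hf hf2
      funext k
      rw [mem_ofIdeal, Submodule.mem_inf, mem_max_iff] at hf
      by_contra hne
      obtain ⟨m, hm⟩ := MvPolynomial.ne_zero_iff.1 hne
      have h1 := hf.2 m (MvPolynomial.mem_support_iff.2 hm)
      have h2 := deg_of_hom (hf2 k) hm
      omega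

private lemma pow_le_max {G : SimpleGraph V} {q : ℕ} :
    edgeIdeal K G ^ q ≤ (Ideal.span (Set.range X) : Ideal (MvPolynomial V K)) ^ (2 * q) := by
  intro f hf
  rw [mem_pow_iff] at hf
  rw [mem_max_iff]
  intro m hm
  obtain ⟨u, hu, hum⟩ := hf m hm
  have h1 := degree_of_mem_P hu
  rw [← h1]
  exact Finsupp.degree_mono hum

theorem linRes_iff {G : SimpleGraph V} {q : ℕ} :
    LinRes (edgeIdeal K G ^ q) (2 * q) ↔ KFC K {m | MemP G q m} (2 * q) := by
  rw [← regLE_iff, inf_eq_left.2 pow_le_max]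

theorem linRes_degree {G : SimpleGraph V} (hE : ∃ a b, G.Adj a b) {q d : ℕ}
    (h : LinRes (edgeIdeal K G ^ q) d) : d = 2 * q := by
  obtain ⟨β, g, A, hg, hspan, -⟩ := h
  obtain ⟨a, b, hab⟩ := hE
  have hle : edgeIdeal K G ^ q ≤ (Ideal.span (Set.range X) : Ideal (MvPolynomial V K)) ^ d := by
    rw [← hspan, Ideal.span_le]
    rintro _ ⟨k, rfl⟩
    exact hom_mem_max le_rfl (hg k)
  have hmem : (X a * X b : MvPolynomial V K) ^ q ∈ edgeIdeal K G ^ q :=
    Ideal.pow_mem_pow (show (X a * X b : MvPolynomial V K) ∈ edgeIdeal K G from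
      Ideal.subset_span ⟨a, b, hab, rfl⟩) q
  have hne : (X a * X b : MvPolynomial V K) ^ q ≠ 0 :=
    pow_ne_zero _ (mul_ne_zero (X_ne_zero a) (X_ne_zero b))
  have hhom : ((X a * X b : MvPolynomial V K) ^ q).IsHomogeneous (2 * q) := by
    have := ((isHomogeneous_X K a).mul (isHomogeneous_X K b)).pow q
    simpa using this
  obtain ⟨m, hm⟩ := MvPolynomial.ne_zero_iff.1 hne
  have h1 := deg_of_hom hhom hm
  have h2 := (mem_max_iff _).1 (hle hmem) m (MvPolynomial.mem_support_iff.2 hm)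
  -- some generator is nonzero
  have hk : ∃ k, g k ≠ 0 := by
    by_contra hcon
    push Not at hcon
    have h3 : edgeIdeal K G ^ q = ⊥ := by
      rw [← hspan, Ideal.span_eq_bot]
      rintro _ ⟨k, rfl⟩
      exact hcon k
    rw [h3] at hmem
    exact hne hmem
  obtain ⟨k, hk⟩ := hk
  have h4 : g k ∈ edgeIdeal K G ^ q := by
    rw [← hspan]
    exact Ideal.subset_span ⟨k, rfl⟩
  obtain ⟨m', hm'⟩ := MvPolynomial.ne_zero_iff.1 hk
  have h5 := deg_of_hom (hg k) hm'
  have h6 := (mem_max_iff _).1 (pow_le_max h4) m' (MvPolynomial.mem_support_iff.2 hm')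
  omega

theorem gap' {G : SimpleGraph V} {q : ℕ} (hq : 1 ≤ q) (h : KFC K {m | MemP G q m} (2 * q)) :
    GF G := by
  refine gap (K := K) hq ?_
  refine (kf_iff (M := {m | MemP G q m}) ?_ (by omega)).1 h
  rintro m m' hmm ⟨u, hu, hum⟩
  exact ⟨u, hu, fun v => (hum v).trans (hmm v)⟩

end Pool.Agent.LIN
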