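import Pool.Agent.Helper23.LIN.Defs

/-!
# Project LIN, block HALL: membership in `I(G)^q` for gapfree graphs

`hall2`. Easy direction: `hall_easy` for `u ∈ P G q`, `u ≤ m` (and `u(nb T) ≤ m(nb T)`, `u(V \ T) ≤ m(V \ T)`, `|u| = 2q`).
Hard direction: let `w = |m| - 2 q` (`T = ∅` gives `w ≥ 0`), and let `G'` be the graph on `Option V` with
`some a ~ some b` iff `G.Adj a b` and `none ~ some a` for all `a`. `G'` is gapfree. By `hall_hard` the vector `m'`
(`m' none = w`, `m' (some a) = m a`) is in `P G' (|m| - q)`: an independent set of `G'` is `{none}` or `∅` or an independent set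
of `G`. From an element `m'` of `P G' Q` one gets (induction on `Q`) `u ∈ P G (Q - m' none)` with `u ≤ m' ∘ some` and
`m' none ≤ Q`.
-/

set_option linter.unusedSectionVars false

namespace Pool.Agent.LIN

open Pool.Agent.LQ Pool.Agent.LQ.T1

variable {V : Type*} [Fintype V] [LinearOrder V]

/-- the cone over `G` -/
private def cone21 (G : SimpleGraph V) : SimpleGraph (Option V) where
  Adj
    | none, none => False
    | none, some _ => True
    | some _, none => True
    | some a, some b => G.Adj a b
  symm := by
    constructor
    rintro (_ | a) (_ | b) h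
    · exact h
    · trivial
    · trivial
    · exact SimpleGraph.Adj.symm (G := G) h
  loopless := by
    constructor
    rintro (_ | a) h
    · exact h
    · exact G.loopless.irrefl a h

private theorem cone21_gf {G : SimpleGraph V} (hG : GF G) : GF (cone21 G) := by
  rintro (_ | a) (_ | b) (_ | c) (_ | d) h1 h2
  · exact h1.elim
  · exact h1.elim
  · exact h1.elim
  · exact h1.elim
  · exact h2.elim
  · right; left; trivial
  · left; trivial
  · left; trivial
  · exact h2.elim
  · right; right; right; trivial
  · right; right; left; trivial
  · right; right; left; trivial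
  · exact h2.elim
  · left; trivial
  · right; left; trivial
  · exact hG a b c d h1 h2

private theorem cone21_desc {G : SimpleGraph V} : ∀ {Q : ℕ} {m' : Option V →₀ ℕ}, m' ∈ P (cone21 G) Q →
    m' none ≤ Q ∧ ∃ u ∈ P G (Q - m' none), ∀ v, u v ≤ m' (some v)
  | 0, m', h => by
      have : m' = 0 := h
      subst this
      exact ⟨by simp, 0, by simp [P_zero], fun v => by simp⟩
  | Q + 1, m', h => by
      obtain ⟨Y, hY, a, b, hab, rfl⟩ := h
      obtain ⟨h1, u, hu, hle⟩ := cone21_desc hY
      rcases a with _ | a <;> rcases b with _ | b
      · exact hab.elim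
      · have e1 : (Y + ev none (some b)) none = Y none + 1 := by
          simp [ev, Finsupp.add_apply]
        rw [e1]
        refine ⟨by omega, u, by rwa [Nat.add_sub_add_right], fun v => (hle v).trans ?_⟩
        rw [Finsupp.add_apply]
        exact Nat.le_add_right _ _
      · have e1 : (Y + ev (some a) none) none = Y none + 1 := by
          simp [ev, Finsupp.add_apply]
        rw [e1]
        refine ⟨by omega, u, by rwa [Nat.add_sub_add_right], fun v => (hle v).trans ?_⟩
        rw [Finsupp.add_apply]
        exact Nat.le_add_right _ _
      · have e1 : (Y + ev (some a) (some b)) none = Y none := by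
          simp [ev, Finsupp.add_apply]
        rw [e1]
        refine ⟨by omega, u + ev a b, ?_, fun v => ?_⟩
        · rw [show Q + 1 - Y none = (Q - Y none) + 1 by omega]
          exact ⟨u, hu, a, b, hab, rfl⟩
        · rw [Finsupp.add_apply, Finsupp.add_apply]
          refine Nat.add_le_add (hle v) (le_of_eq ?_)
          simp [ev, Finsupp.single_apply]

/-- the vector on the cone -/
private noncomputable def vec21 (w : ℕ) (m : V → ℕ) : Option V →₀ ℕ :=
  Finsupp.equivFunOnFinite.symm fun o => o.elim w m

private theorem vec21_none (w : ℕ) (m : V → ℕ) : vec21 w m none = w := rfl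

private theorem vec21_some (w : ℕ) (m : V → ℕ) (v : V) : vec21 w m (some v) = m v := rfl

private theorem ws21 (w : ℕ) (m : V → ℕ) (T : Finset V) :
    ws (vec21 w m) (T.map Function.Embedding.some) = ws m T := by
  unfold ws
  rw [Finset.sum_map]
  rfl

theorem hall2 {G : SimpleGraph V} (hG : GF G) (q : ℕ) (m : V → ℕ) :
    MemP G q m ↔ ∀ T, Ind G T → ws m T + 2 * q ≤ ws m Finset.univ + ws m (nb G T) := by
  have hsplit : ∀ (f : V → ℕ) (T : Finset V), ws f Finset.univ = ws f T + ws f Tᶜ := by
    intro f T
    unfold ws
    rw [Finset.sum_add_sum_compl]
  constructor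
  · rintro ⟨u, hu, hle⟩ T hT
    have h1 := hall_easy hT hu
    have h2 : ws u Finset.univ = 2 * q := by
      rw [← degree_of_mem_P hu]
      unfold ws
      rw [Finsupp.degree_eq_sum]
    have h3 := hsplit u T
    have h4 := hsplit m T
    have h5 : ws u (nb G T) ≤ ws m (nb G T) := ws_mono fun v _ => hle v
    have h6 : ws u Tᶜ ≤ ws m Tᶜ := ws_mono fun v _ => hle v
    omega
  · intro h
    have h0 := h ∅ (ind_empty G)
    have hw0 : ws m ∅ = 0 := by simp [ws]
    have hn0 : ws m (nb G ∅) = 0 := by rw [nb_empty]; exact hw0
    rw [hw0, hn0] at h0
    set w := ws m Finset.univ - 2 * q with hw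
    have hdeg : (vec21 w m).degree = 2 * (ws m Finset.univ - q) := by
      rw [Finsupp.degree_eq_sum, Fintype.sum_option, vec21_none]
      have : ∑ v : V, vec21 w m (some v) = ws m Finset.univ := rfl
      rw [this]
      omega
    have hall : ∀ T', Ind (cone21 G) T' → ws (vec21 w m) T' ≤ ws (vec21 w m) (nb (cone21 G) T') := by
      intro T' hT'
      by_cases hn : none ∈ T'
      · have e1 : T' = {none} := by
          refine Finset.eq_singleton_iff_unique_mem.mpr ⟨hn, fun x hx => ?_⟩
          rcases x with _ | x
          · rfl
          · exact absurd (show (cone21 G).Adj none (some x) from trivial) (hT' none hn (some x) hx)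
        have e2 : (Finset.univ : Finset V).map Function.Embedding.some ⊆ nb (cone21 G) T' := by
          intro x hx
          obtain ⟨v, -, rfl⟩ := Finset.mem_map.mp hx
          exact mem_nb.2 ⟨none, hn, trivial⟩
        have e3 := ws_mono_set (vec21 w m) e2
        rw [ws21] at e3
        refine le_trans ?_ e3
        rw [e1]
        have e4 : ws (vec21 w m) {none} = w := by
          unfold ws
          rw [Finset.sum_singleton, vec21_none]
        rw [e4]
        omega
      · set T : Finset V := Finset.univ.filter fun v => some v ∈ T' with hTdef
        have e1 : T' = T.map Function.Embedding.some := by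
          ext x
          rcases x with _ | x
          · simp [hn]
          · simp [hTdef]
        have hT : Ind G T := by
          intro x hx y hy hxy
          rw [hTdef, Finset.mem_filter] at hx hy
          exact hT' (some x) hx.2 (some y) hy.2 hxy
        rcases T.eq_empty_or_nonempty with hTe | ⟨t, ht⟩
        · rw [e1, hTe]
          simp [ws]
        · have e2 : insert none ((nb G T).map Function.Embedding.some) ⊆ nb (cone21 G) T' := by
            intro x hx
            have ht' : some t ∈ T' := by
              rw [hTdef, Finset.mem_filter] at ht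
              exact ht.2
            rcases Finset.mem_insert.mp hx with rfl | hx
            · exact mem_nb.2 ⟨some t, ht', trivial⟩
            · obtain ⟨v, hv, rfl⟩ := Finset.mem_map.mp hx
              obtain ⟨s, hs, hsv⟩ := mem_nb.1 hv
              rw [hTdef, Finset.mem_filter] at hs
              exact mem_nb.2 ⟨some s, hs.2, hsv⟩
          have e3 := ws_mono_set (vec21 w m) e2
          have e4 : ws (vec21 w m) (insert none ((nb G T).map Function.Embedding.some)) = w + ws m (nb G T) := by
            unfold ws
            rw [Finset.sum_insert (by simp), vec21_none]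
            congr 1
            exact ws21 w m (nb G T)
          rw [e4] at e3
          refine le_trans ?_ e3
          rw [e1, ws21]
          have := h T hT
          omega
    obtain ⟨h1, u, hu, hle⟩ := cone21_desc (hall_hard (cone21_gf hG) hdeg hall)
    rw [vec21_none] at hu
    refine ⟨u, ?_, fun v => hle v⟩
    rw [show q = ws m Finset.univ - q - w by omega]
    exact hu

end Pool.Agent.LIN
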