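import Pool.Agent.Helper23.LIN.Strand

/-!
# Project LIN, block KOSZ: the Koszul complex is exact

`kosz_exact`: the Koszul complex of `ι → S` is exact: apply `strand` componentwise with `M = univ`, `ρ = 0`: `KF univ c` is the
simplex on the support of `c ≠ 0`: `ex_cone`. `kosz_zero`: coefficients: `kbd z τ = ∑ sg v τ * X v * z (insert v τ)` with constants
`z σ`; look at the coefficient of `X v`.

`kbd_kbd`: `sg_anti`.
-/

set_option linter.unusedSectionVars false

namespace Pool.Agent.LIN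

open MvPolynomial Pool.Agent.LQ Pool.Agent.LQ.T1

variable {V : Type*} [Fintype V] [LinearOrder V] {K : Type*} [Field K] {ι : Type*}

private theorem kfc_univ56 : KFC K (Set.univ : Set (V → ℕ)) 0 := by
  intro c j hj
  have h1 : 0 < ws c Finset.univ := by omega
  obtain ⟨v, hv⟩ : ∃ v, 1 ≤ c v := by
    by_contra hcon
    push Not at hcon
    have : ws c Finset.univ = 0 := by
      unfold ws
      refine Finset.sum_eq_zero fun v _ => ?_
      have := hcon v
      omega
    omega
  refine ex_cone v ?_ j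
  rintro σ ⟨h2, -⟩
  refine ⟨fun u hu => ?_, Set.mem_univ _⟩
  rcases Finset.mem_insert.1 hu with rfl | hu
  · exact hv
  · exact h2 u hu

theorem kosz_exact {i e : ℕ} {z : Finset V → ι → MvPolynomial V K} (hz : KCh ⊤ i (e + 1) z)
    (h : kbd z = 0) : ∃ w, KCh ⊤ (i + 1) e w ∧ kbd w = z := by
  have hL : LinKosAt (ofIdeal (⊤ : Ideal (MvPolynomial V K))) 0 i :=
    (strand (M := Set.univ) (I := ⊤)
      (fun f => ⟨fun _ _ _ => Set.mem_univ _, fun _ => Submodule.mem_top⟩) 0).1 kfc_univ56 i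
  have h1 : ∀ k : ι, ∃ w : Finset V → Unit → MvPolynomial V K,
      KCh (ofIdeal (⊤ : Ideal (MvPolynomial V K))) (i + 1) e w ∧
        kbd w = fun σ _ => z σ k := by
    intro k
    refine hL e (Nat.zero_le _) (fun σ _ => z σ k) (fun σ => ⟨fun hσ => ?_, trivial, fun _ => ?_⟩) ?_
    · funext _
      exact congrFun ((hz σ).1 hσ) k
    · exact (hz σ).2.2 k
    · funext τ _
      exact congrFun (congrFun h τ) k
  choose w hw1 hw2 using h1
  refine ⟨fun σ k => w k σ (), fun σ => ⟨fun hσ => ?_, trivial, fun k => (hw1 k σ).2.2 ()⟩, ?_⟩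
  · funext k
    exact congrFun ((hw1 k σ).1 hσ) ()
  · funext τ k
    exact congrFun (congrFun (hw2 k) τ) ()

theorem kosz_zero {i : ℕ} {z : Finset V → ι → MvPolynomial V K} (hz : KCh ⊤ (i + 1) 0 z)
    (h : kbd z = 0) : z = 0 := by
  funext σ k
  by_cases hσ : σ.card = i + 1
  · obtain ⟨v, hv⟩ : σ.Nonempty := by
      rw [← Finset.card_pos]
      omega
    have h1 : kbd z (σ.erase v) k = 0 := congrFun (congrFun h (σ.erase v)) k
    have h2 : coeff (Finsupp.single v 1) (kbd z (σ.erase v) k) =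
        sg K v (σ.erase v) * coeff 0 (z σ k) := by
      unfold kbd
      rw [coeff_sum, Finset.sum_eq_single v]
      · rw [mul_assoc, coeff_C_mul, coeff_X_mul', if_pos (by simp), tsub_self,
          Finset.insert_erase hv]
      · intro u _ huv
        rw [mul_assoc, coeff_C_mul, coeff_X_mul', if_neg, mul_zero]
        rw [Finsupp.mem_support_iff, Finsupp.single_apply]
        simp [huv.symm]
      · intro h3
        exact absurd (Finset.mem_compl.2 (Finset.notMem_erase v σ)) h3
    rw [h1, coeff_zero] at h2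
    have h3 : coeff 0 (z σ k) = 0 :=
      (mul_eq_zero.1 h2.symm).resolve_left (sg_ne_zero _ _)
    ext m
    by_cases hm : m = 0
    · rw [hm, h3]
      rfl
    · refine ((hz σ).2.2 k).coeff_eq_zero fun hd => hm ?_
      exact (Finsupp.degree_eq_zero_iff m).1 hd
  · rw [(hz σ).1 hσ]
    rfl

theorem kbd_kbd (z : Finset V → ι → MvPolynomial V K) : kbd (kbd z) = 0 := by
  funext τ k
  change (∑ v ∈ τᶜ, C (sg K v τ) * X v *
    ∑ w ∈ (insert v τ)ᶜ, C (sg K w (insert v τ)) * X w * z (insert w (insert v τ)) k) = 0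
  simp only [Finset.mul_sum]
  rw [Finset.sum_sigma']
  have hm : ∀ a : (_ : V) × V, a ∈ (τᶜ.sigma fun v => (insert v τ)ᶜ) ↔
      a.1 ∉ τ ∧ a.2 ≠ a.1 ∧ a.2 ∉ τ := by
    rintro ⟨v, w⟩
    rw [Finset.mem_sigma, Finset.mem_compl, Finset.mem_compl, Finset.mem_insert, not_or]
  refine Finset.sum_involution (fun a _ => ⟨a.2, a.1⟩) ?_ ?_ ?_ ?_
  · rintro ⟨v, w⟩ ha
    obtain ⟨h1, h2, h3⟩ := (hm _).1 ha
    have h4 := sg_anti (K := K) (v := v) (w := w) (Ne.symm h2) h1 h3
    have h5 : insert w (insert v τ) = insert v (insert w τ) := Finset.insert_comm _ _ _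
    simp only
    rw [← h5]
    have h6 : (C (sg K v τ) : MvPolynomial V K) * C (sg K w (insert v τ)) =
        -(C (sg K w τ) * C (sg K v (insert w τ))) := by
      rw [← C_mul, h4, C_neg, C_mul]
    linear_combination (X v * X w * z (insert w (insert v τ)) k) * h6
  · rintro ⟨v, w⟩ ha _ he
    obtain ⟨h1, h2, h3⟩ := (hm _).1 ha
    simp only [Sigma.mk.injEq] at he
    exact h2 he.1
  · rintro ⟨v, w⟩ ha
    obtain ⟨h1, h2, h3⟩ := (hm _).1 ha
    exact (hm _).2 ⟨h3, Ne.symm h2, h1⟩
  · rintro ⟨v, w⟩ _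
    rfl

end Pool.Agent.LIN
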