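import Pool.Agent.Helper75.LQ.Defs

/-!
# MP_e2a5d3_al : linear resolutions and regularity of ideals
-/

namespace Pool.Agent.LR

open MvPolynomial

variable {V : Type*} {K : Type*} [Field K]

/-- Let `S = K[x_v : v ∈ V]`. The ideal `I` is generated by forms `g 0, …, g (β 0 - 1)` of degree `d` and has
a linear free resolution `⋯ → S^(β 2) → S^(β 1) → S^(β 0) → I → 0`: the first map sends `v` to `∑ v k * g k`, the
others are given by matrices `A i` all whose entries are linear forms, and the sequence is exact. -/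
def LinearResolutionFrom (I : Ideal (MvPolynomial V K)) (d : ℕ) : Prop :=
  ∃ (β : ℕ → ℕ) (g : Fin (β 0) → MvPolynomial V K)
    (A : ∀ i, Matrix (Fin (β i)) (Fin (β (i + 1))) (MvPolynomial V K)),
    (∀ k, (g k).IsHomogeneous d) ∧ Ideal.span (Set.range g) = I ∧
    (∀ i j k, (A i j k).IsHomogeneous 1) ∧
    (∀ v : Fin (β 0) → MvPolynomial V K, ∑ k, v k * g k = 0 ↔ ∃ w, (A 0).mulVec w = v) ∧
    ∀ i (v : Fin (β (i + 1)) → MvPolynomial V K), (A i).mulVec v = 0 ↔ ∃ w, (A (i + 1)).mulVec w = v

/-- The ideal `I` has a linear resolution. -/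
def HasLinearResolution (I : Ideal (MvPolynomial V K)) : Prop :=
  ∃ d, LinearResolutionFrom I d

/-- The ideal `I` has Castelnuovo-Mumford regularity at most `r`: its truncation `I ∩ 𝔪^r`, where `𝔪` is generated by
the variables, has a linear resolution, generated in degree `r` (Eisenbud-Goto). -/
def RegularityLE (I : Ideal (MvPolynomial V K)) (r : ℕ) : Prop :=
  LinearResolutionFrom (I ⊓ Ideal.span (Set.range X) ^ r) r

end Pool.Agent.LR
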