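import Pool.Agent.Helper23.LIN.Fin
import Pool.Agent.Helper23.LIN.Fin2
import Pool.Agent.Helper23.LIN.LR

/-!
# Project LIN, main theorems: linear resolutions of the powers of edge ideals

`I(G)^q` has a linear resolution if and only if `G` is gapfree and `reg I(G) ≤ q + 1`; for gapfree `G`
`reg I(G)^q ≤ r` if and only if `2 q ≤ r` and `reg I(G) ≤ r + 1 - q`.
-/

set_option linter.unusedSectionVars false

namespace Pool.Agent.LIN

open MvPolynomial Pool.Agent.LQ Pool.Agent.LQ.T1 Pool.Agent.LR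

variable {V : Type*}

theorem lrf_iff {K : Type*} [Field K] {I : Ideal (MvPolynomial V K)} {d : ℕ} :
    LinearResolutionFrom I d ↔ LinRes I d := Iff.rfl

theorem kfc_mono {K : Type*} [Field K] [Fintype V] [LinearOrder V] {M : Set (V → ℕ)} {r s : ℕ}
    (h : r ≤ s) (hr : KFC K M r) : KFC K M s := fun c j hcj => hr c j (by omega)

theorem pow_le_m {K : Type*} [Field K] (G : SimpleGraph V) {q r : ℕ} (h : r ≤ 2 * q) :
    edgeIdeal K G ^ q ≤ Ideal.span (Set.range (X : V → MvPolynomial V K)) ^ r := by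
  have h1 : edgeIdeal K G ≤ Ideal.span (Set.range (X : V → MvPolynomial V K)) ^ 2 := by
    unfold edgeIdeal
    rw [Ideal.span_le]
    rintro _ ⟨a, b, _, rfl⟩
    rw [pow_two]
    exact Ideal.mul_mem_mul (Ideal.subset_span ⟨a, rfl⟩) (Ideal.subset_span ⟨b, rfl⟩)
  calc edgeIdeal K G ^ q ≤ (Ideal.span (Set.range (X : V → MvPolynomial V K)) ^ 2) ^ q :=
        Ideal.pow_right_mono h1 q
    _ = Ideal.span (Set.range (X : V → MvPolynomial V K)) ^ (2 * q) := by rw [← pow_mul]
    _ ≤ _ := Ideal.pow_le_pow_right h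

theorem hlr_iff_kfc {K : Type*} [Field K] [Fintype V] [LinearOrder V] {G : SimpleGraph V}
    (hE : ∃ a b, G.Adj a b) {q : ℕ} :
    HasLinearResolution (edgeIdeal K G ^ q) ↔ KFC K {m | MemP G q m} (2 * q) := by
  constructor
  · rintro ⟨d, hd⟩
    have := linRes_degree hE hd
    subst this
    exact linRes_iff.1 hd
  · exact fun h => ⟨2 * q, linRes_iff.2 h⟩

theorem kfc_of_noedge {K : Type*} [Field K] [Fintype V] [LinearOrder V] {G : SimpleGraph V}
    (hE : ¬ ∃ a b, G.Adj a b) {q : ℕ} (hq : 1 ≤ q) (r : ℕ) : KFC K {m | MemP G q m} r := by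
  intro c j _
  refine ex_of_card fun σ hσ _ => ?_
  obtain ⟨u, hu, _⟩ := hσ.2
  obtain ⟨q', rfl⟩ : ∃ q', q = q' + 1 := ⟨q - 1, by omega⟩
  obtain ⟨_, _, a, b, hab, _⟩ := hu
  exact hE ⟨a, b, hab⟩

theorem regLE_kfc {K : Type*} [Field K] [Fintype V] [LinearOrder V] {G : SimpleGraph V} {q r : ℕ} :
    RegularityLE (edgeIdeal K G ^ q) r ↔ KFC K {m | MemP G q m} r := regLE_iff

/-- `I(G)^q` has a linear resolution iff `G` is gapfree and `reg I(G) ≤ q + 1` -/
theorem hlr_iff (K : Type*) [Field K] [Fintype V] (G : SimpleGraph V) {q : ℕ} (hq : 1 ≤ q) :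
    HasLinearResolution (edgeIdeal K G ^ q) ↔
      (∀ a b c d, G.Adj a b → G.Adj c d → G.Adj a c ∨ G.Adj a d ∨ G.Adj b c ∨ G.Adj b d) ∧
        RegularityLE (edgeIdeal K G) (q + 1) := by
  classical
  let _ : LinearOrder V := LinearOrder.lift' (Fintype.equivFin V) (Fintype.equivFin V).injective
  have e1 : RegularityLE (edgeIdeal K G) (q + 1) ↔ KFC K {m | MemP G 1 m} (q + 1) := by
    have := regLE_kfc (K := K) (G := G) (q := 1) (r := q + 1)
    rwa [pow_one] at this
  have e2 : 2 * q + 1 - q = q + 1 := by omega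
  rw [e1]
  by_cases hE : ∃ a b, G.Adj a b
  · rw [hlr_iff_kfc hE]
    constructor
    · intro h
      have hG : GF G := gap' hq h
      refine ⟨hG, ?_⟩
      have := (reg_iff (K := K) hG hq (r := 2 * q) le_rfl).1 h
      rwa [e2] at this
    · rintro ⟨hG, h⟩
      refine (reg_iff (K := K) hG hq (r := 2 * q) le_rfl).2 ?_
      rwa [e2]
  · constructor
    · intro _
      exact ⟨fun a b c d hab => absurd ⟨a, b, hab⟩ hE, kfc_of_noedge hE le_rfl _⟩
    · intro _
      exact ⟨2 * q, linRes_iff.2 (kfc_of_noedge hE hq _)⟩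

/-- persistence of linear resolutions -/
theorem hlr_persist (K : Type*) [Field K] [Fintype V] (G : SimpleGraph V) {q s : ℕ} (hq : 1 ≤ q)
    (hs : q ≤ s) (h : HasLinearResolution (edgeIdeal K G ^ q)) :
    HasLinearResolution (edgeIdeal K G ^ s) := by
  classical
  let _ : LinearOrder V := LinearOrder.lift' (Fintype.equivFin V) (Fintype.equivFin V).injective
  have e1 : ∀ r, RegularityLE (edgeIdeal K G) r ↔ KFC K {m | MemP G 1 m} r := by
    intro r
    have := regLE_kfc (K := K) (G := G) (q := 1) (r := r)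
    rwa [pow_one] at this
  obtain ⟨h1, h2⟩ := (hlr_iff K G hq).1 h
  refine (hlr_iff K G (hq.trans hs)).2 ⟨h1, ?_⟩
  rw [e1] at h2 ⊢
  exact kfc_mono (by omega) h2

/-- linear quotients of one power give linear resolutions of all higher powers -/
theorem lq_hlr (K : Type*) [Field K] (K' : Type*) [Field K'] [Fintype V] (G : SimpleGraph V)
    {q s : ℕ} (hq : 1 ≤ q) (hs : q ≤ s) (h : HasLinearQuotients (edgeIdeal K' G ^ q)) :
    HasLinearResolution (edgeIdeal K G ^ s) := by
  classical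
  let _ : LinearOrder V := LinearOrder.lift' (Fintype.equivFin V) (Fintype.equivFin V).injective
  rw [hasLinearQuotients_iff] at h
  refine hlr_persist K G hq hs ⟨2 * q, linRes_iff.2 ?_⟩
  exact clq_kfc (fun u hu => degree_of_mem_P hu) h

/-- the regularity of the powers -/
theorem reg_pow (K : Type*) [Field K] [Fintype V] (G : SimpleGraph V) (hG : GF G)
    (hE : ∃ a b, G.Adj a b) {q : ℕ} (hq : 1 ≤ q) (r : ℕ) :
    RegularityLE (edgeIdeal K G ^ q) r ↔ 2 * q ≤ r ∧ RegularityLE (edgeIdeal K G) (r + 1 - q) := by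
  classical
  let _ : LinearOrder V := LinearOrder.lift' (Fintype.equivFin V) (Fintype.equivFin V).injective
  have e1 : RegularityLE (edgeIdeal K G) (r + 1 - q) ↔ KFC K {m | MemP G 1 m} (r + 1 - q) := by
    have := regLE_kfc (K := K) (G := G) (q := 1) (r := r + 1 - q)
    rwa [pow_one] at this
  rw [e1]
  constructor
  · intro h
    have hr : 2 * q ≤ r := by
      by_contra hr
      push Not at hr
      unfold RegularityLE at h
      rw [inf_eq_left.2 (pow_le_m G hr.le), lrf_iff] at h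
      have := linRes_degree hE h
      omega
    exact ⟨hr, (reg_iff hG hq hr).1 (regLE_kfc.1 h)⟩
  · rintro ⟨hr, h⟩
    exact regLE_kfc.2 ((reg_iff hG hq hr).2 h)

end Pool.Agent.LIN
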