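import Pool.Agent.Helper75.LQ.Defs

/-!
# Castelnuovo-Mumford regularity of ideals of a polynomial ring
-/

namespace Pool.Agent.LR

open MvPolynomial

variable {V : Type*} {K : Type*} [Field K]

/-- `reg J ≤ r`: there is a graded free resolution
`⋯ → S^(b 2) → S^(b 1) → S^(b 0) → J → 0` of the ideal `J` of `S = K[x_v : v ∈ V]`, in which the basis elements of the
`i`-th module have degrees `deg i k ≤ r + i`: the first map sends `v` to `∑ v k * g k`, `g k` is a form of degree
`deg 0 k`, and the other maps are given by the matrices `d i`, whose entries `d i s c` are forms of degree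
`deg (i + 1) c - deg i s` (zero if this is negative). -/
def RegLE (J : Ideal (MvPolynomial V K)) (r : ℕ) : Prop :=
  ∃ (b : ℕ → ℕ) (deg : ∀ i : ℕ, Fin (b i) → ℕ) (g : Fin (b 0) → MvPolynomial V K)
    (d : ∀ i : ℕ, Matrix (Fin (b i)) (Fin (b (i + 1))) (MvPolynomial V K)),
    Ideal.span (Set.range g) = J ∧
    (∀ k : Fin (b 0), (g k).IsHomogeneous (deg 0 k)) ∧
    (∀ (i : ℕ) (s : Fin (b i)) (c : Fin (b (i + 1))),
      d i s c = 0 ∨ (deg i s ≤ deg (i + 1) c ∧ (d i s c).IsHomogeneous (deg (i + 1) c - deg i s))) ∧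
    (∀ v : Fin (b 0) → MvPolynomial V K, (∑ k, g k * v k = 0) ↔ ∃ w, Matrix.mulVec (d 0) w = v) ∧
    (∀ (i : ℕ) (v : Fin (b (i + 1)) → MvPolynomial V K),
      Matrix.mulVec (d i) v = 0 ↔ ∃ w, Matrix.mulVec (d (i + 1)) w = v) ∧
    (∀ (i : ℕ) (k : Fin (b i)), deg i k ≤ r + i)

/-- The Castelnuovo-Mumford regularity of a (nonzero homogeneous) ideal: the least `r` such that `J` has a graded
free resolution in which the `i`-th module is generated in degrees `≤ r + i`. -/
noncomputable def reg (J : Ideal (MvPolynomial V K)) : ℕ := sInf {r | RegLE J r}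

end Pool.Agent.LR
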