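import Pool.Agent.Helper23.LIN.MV

/-!
# Project LIN, block STRAND: multigraded strands of the Koszul complex

`I` is the monomial ideal with exponents `M`. For a Koszul chain `z` and `c : V → ℕ` let `z_c σ = coeff (c - 1_σ) (z σ ())`
if `σ ⊆ supp c` and `0` otherwise. Then `(kbd z)_c = bd (z_c)` (if `c v = 0`, `v ∉ τ`, both contributions of `v` vanish).
`z_c` is supported on `KF M c`. Conversely for `w_c` supported on `KF M c` for the (finitely many) `c` with `|c| = i + 1 + e` put
`w σ = ∑_c w_c σ x^(c - σ)`.
For the direction from `KFC` note `|c| = i + e + 1 > ρ + i`. For the other one a chain of the strand `c` is the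
Koszul chain `z σ = z_c σ x^(c - σ)`, homogeneous of degree `|c| - i = e + 1`, `e ≥ ρ`.
-/

set_option linter.unusedSectionVars false

namespace Pool.Agent.LIN

open MvPolynomial Pool.Agent.LQ Pool.Agent.LQ.T1

variable {V : Type*} [Fintype V] [LinearOrder V] {K : Type*} [Field K] {ι : Type*}

/-- the exponent `c - 1_σ` -/
private noncomputable def xe (c : V → ℕ) (σ : Finset V) : V →₀ ℕ :=
  Finsupp.equivFunOnFinite.symm (fun v => c v - if v ∈ σ then 1 else 0)

private theorem xe_apply (c : V → ℕ) (σ : Finset V) (v : V) :
    xe c σ v = c v - if v ∈ σ then 1 else 0 := rfl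

private theorem xe_coe (c : V → ℕ) (σ : Finset V) :
    ⇑(xe c σ) = fun v => c v - if v ∈ σ then 1 else 0 := rfl

private theorem xe_degree {c : V → ℕ} {σ : Finset V} (h : ∀ v ∈ σ, 1 ≤ c v) :
    (xe c σ).degree + σ.card = ws c Finset.univ := by
  rw [Finsupp.degree_eq_sum, ws, Finset.card_eq_sum_ones]
  have h1 : ∑ v ∈ σ, 1 = ∑ v, if v ∈ σ then 1 else 0 := by
    rw [Finset.sum_ite_mem, Finset.univ_inter]
  rw [h1, ← Finset.sum_add_distrib]
  refine Finset.sum_congr rfl fun v _ => ?_
  rw [xe_apply]
  split_ifs with hv
  · have := h v hv
    omega
  · omega

/-- the strand `c` of a chain -/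
private noncomputable def strd (c : V → ℕ) (z : Finset V → Unit → MvPolynomial V K) : Finset V → K :=
  fun σ => if (∀ v ∈ σ, 1 ≤ c v) then coeff (xe c σ) (z σ ()) else 0

private theorem coeff_kbd (z : Finset V → Unit → MvPolynomial V K) (τ : Finset V) (m : V →₀ ℕ) :
    coeff m (kbd z τ ()) = ∑ v ∈ τᶜ, if m v = 0 then 0 else
      sg K v τ * coeff (m - Finsupp.single v 1) (z (insert v τ) ()) := by
  unfold kbd
  rw [coeff_sum]
  refine Finset.sum_congr rfl fun v _ => ?_
  rw [mul_assoc, coeff_C_mul, coeff_X_mul']
  by_cases hv : m v = 0
  · rw [if_neg (by rw [Finsupp.mem_support_iff]; exact fun h => h hv), if_pos hv, mul_zero]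
  · rw [if_pos (Finsupp.mem_support_iff.2 hv), if_neg hv]

private theorem strd_kbd (c : V → ℕ) (z : Finset V → Unit → MvPolynomial V K) :
    bd (strd c z) = strd c (kbd z) := by
  funext τ
  unfold bd
  by_cases hτ : ∀ v ∈ τ, 1 ≤ c v
  · have h1 : strd c (kbd z) τ = coeff (xe c τ) (kbd z τ ()) := if_pos hτ
    rw [h1, coeff_kbd]
    refine Finset.sum_congr rfl fun v hv => ?_
    have hv' : v ∉ τ := Finset.mem_compl.1 hv
    have h2 : xe c τ v = c v := by rw [xe_apply, if_neg hv', Nat.sub_zero]
    rw [h2]
    by_cases h3 : c v = 0
    · rw [if_pos h3]
      have h4 : strd c z (insert v τ) = 0 := if_neg fun h => by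
        have := h v (Finset.mem_insert_self v τ)
        omega
      rw [h4, mul_zero]
    · rw [if_neg h3]
      have h4 : strd c z (insert v τ) = coeff (xe c (insert v τ)) (z (insert v τ) ()) :=
        if_pos fun u hu => by
          rcases Finset.mem_insert.1 hu with rfl | hu
          · omega
          · exact hτ u hu
      have h5 : xe c (insert v τ) = xe c τ - Finsupp.single v 1 := by
        ext u
        rw [Finsupp.tsub_apply, xe_apply, xe_apply]
        by_cases hu : u = v
        · subst hu
          rw [if_pos (Finset.mem_insert_self _ _), if_neg hv', Finsupp.single_eq_same]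
          rfl
        · rw [Finsupp.single_eq_of_ne hu]
          simp only [Finset.mem_insert, hu, false_or, Nat.sub_zero]
      rw [h4, h5]
  · have h1 : strd c (kbd z) τ = 0 := if_neg hτ
    rw [h1]
    refine Finset.sum_eq_zero fun v _ => ?_
    have h4 : strd c z (insert v τ) = 0 := if_neg fun h => hτ fun u hu =>
      h u (Finset.mem_insert_of_mem hu)
    rw [h4, mul_zero]

private theorem strd_isCh {M : Set (V → ℕ)} {I : Ideal (MvPolynomial V K)}
    (hI : ∀ f : MvPolynomial V K, f ∈ I ↔ ∀ m ∈ f.support, (⇑m) ∈ M) {i e : ℕ}
    {z : Finset V → Unit → MvPolynomial V K} (hz : KCh (ofIdeal I) i e z) (c : V → ℕ) :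
    IsCh (KF M c) i (strd c z) := by
  intro σ hσ
  have h1 : ∀ v ∈ σ, 1 ≤ c v := by
    by_contra h
    exact hσ (if_neg h)
  have h2 : coeff (xe c σ) (z σ ()) ≠ 0 := by
    intro h
    apply hσ
    unfold strd
    rw [if_pos h1, h]
  obtain ⟨hc, hm, _⟩ := hz σ
  refine ⟨⟨h1, ?_⟩, ?_⟩
  · exact (hI _).1 ((mem_ofIdeal I _).1 hm) (xe c σ) (mem_support_iff.2 h2)
  · by_contra h
    apply h2
    rw [hc h]
    rfl

theorem strand {M : Set (V → ℕ)} {I : Ideal (MvPolynomial V K)}
    (hI : ∀ f : MvPolynomial V K, f ∈ I ↔ ∀ m ∈ f.support, (⇑m) ∈ M) (ρ : ℕ) :
    KFC K M ρ ↔ ∀ i, LinKosAt (ofIdeal I) ρ i := by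
  constructor
  · intro hK i e he z hz hk
    have hex : ∀ c : V → ℕ, ∃ d, IsCh (KF M c) (i + 1) d ∧ bd d = strd c z := by
      intro c
      by_cases hc : ws c Finset.univ = i + e + 1
      · refine hK c i (by omega) (strd c z) (strd_isCh hI hz c) ?_
        rw [strd_kbd, hk]
        funext σ
        unfold strd
        split_ifs
        · exact coeff_zero _
        · rfl
      · refine ⟨0, isCh_zero _ _, ?_⟩
        rw [bd_zero]
        funext σ
        symm
        by_contra h
        have h1 := strd_isCh hI hz c σ h
        have h2 : coeff (xe c σ) (z σ ()) ≠ 0 := by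
          intro h'
          apply h
          unfold strd
          rw [if_pos h1.1.1, h']
          rfl
        have h3 : (xe c σ).degree = e + 1 := by
          by_contra h'
          exact h2 (((hz σ).2.2 ()).coeff_eq_zero h')
        have h4 := xe_degree h1.1.1
        rw [h3, h1.2] at h4
        exact hc (by omega)
    choose d hd1 hd2 using hex
    obtain ⟨w, hw⟩ : ∃ w : Finset V → Unit → MvPolynomial V K, w = fun σ _ =>
        ∑ m ∈ Finset.finsuppAntidiag Finset.univ e,
          monomial m (d (fun v => m v + if v ∈ σ then 1 else 0) σ) := ⟨_, rfl⟩
    have hco : ∀ σ (m : V →₀ ℕ), coeff m (w σ ()) =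
        if m.degree = e then d (fun v => m v + if v ∈ σ then 1 else 0) σ else 0 := by
      intro σ m
      rw [hw]
      simp only [coeff_sum, coeff_monomial]
      rw [Finset.sum_ite_eq']
      have h1 : m ∈ Finset.finsuppAntidiag Finset.univ e ↔ m.degree = e := by
        rw [Finset.mem_finsuppAntidiag, Finsupp.degree_eq_sum]
        exact ⟨fun h => h.1, fun h => ⟨h, Finset.subset_univ _⟩⟩
      by_cases h2 : m.degree = e
      · rw [if_pos h2, if_pos (h1.2 h2)]
      · rw [if_neg h2, if_neg (fun h => h2 (h1.1 h))]
    refine ⟨w, fun σ => ⟨fun hc => ?_, ?_, fun u => ?_⟩, ?_⟩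
    · funext u
      ext m
      have hu : u = () := rfl
      subst hu
      rw [hco]
      have : coeff m ((0 : Unit → MvPolynomial V K) ()) = 0 := coeff_zero m
      rw [this]
      split_ifs with h1
      · by_contra h2
        exact hc (hd1 _ σ h2).2
      · rfl
    · rw [mem_ofIdeal, hI]
      intro m hm
      rw [mem_support_iff, hco] at hm
      have h1 : m.degree = e := by
        by_contra h
        exact hm (if_neg h)
      rw [if_pos h1] at hm
      have h2 := (hd1 _ σ hm).1.2
      have h3 : (fun v => (m v + if v ∈ σ then 1 else 0) - if v ∈ σ then 1 else 0) = ⇑m := by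
        funext v
        exact Nat.add_sub_cancel _ _
      rw [h3] at h2
      exact h2
    · have hu : u = () := rfl
      subst hu
      intro m hm
      rw [hco] at hm
      have h1 : m.degree = e := by
        by_contra h
        exact hm (if_neg h)
      rw [← h1]
      exact (Finsupp.degree_eq_weight_one (R := ℕ) ▸ rfl : Finsupp.weight 1 m = m.degree)
    · funext τ u
      have hu : u = () := rfl
      subst hu
      ext m
      rw [coeff_kbd]
      by_cases hm : m.degree = e + 1
      · obtain ⟨c, hc⟩ : ∃ c : V → ℕ, c = fun v => m v + if v ∈ τ then 1 else 0 := ⟨_, rfl⟩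
        have hcτ : ∀ v ∈ τ, 1 ≤ c v := by
          intro v hv
          rw [hc]
          simp only [if_pos hv]
          omega
        have h1 : ∑ v ∈ τᶜ, (if m v = 0 then 0 else
            sg K v τ * coeff (m - Finsupp.single v 1) (w (insert v τ) ())) = bd (d c) τ := by
          unfold bd
          refine Finset.sum_congr rfl fun v hv => ?_
          have hv' : v ∉ τ := Finset.mem_compl.1 hv
          by_cases h2 : m v = 0
          · rw [if_pos h2]
            have h3 : d c (insert v τ) = 0 := by
              by_contra h4
              have h5 := (hd1 c _ h4).1.1 v (Finset.mem_insert_self v τ)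
              rw [hc] at h5
              simp only [if_neg hv', h2] at h5
              omega
            rw [h3, mul_zero]
          · rw [if_neg h2, hco]
            have h3 : (m - Finsupp.single v 1).degree = e := by
              have h4 : m - Finsupp.single v 1 + Finsupp.single v 1 = m := by
                refine tsub_add_cancel_of_le ?_
                rw [Finsupp.single_le_iff]
                omega
              have h5 := congrArg Finsupp.degree h4
              rw [map_add, Finsupp.degree_single, hm] at h5
              omega
            have h6 : (fun u => (m - Finsupp.single v 1 : V →₀ ℕ) u + if u ∈ insert v τ then 1 else 0) = c := by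
              rw [hc]
              funext u
              rw [Finsupp.tsub_apply]
              by_cases hu : u = v
              · subst hu
                rw [if_pos (Finset.mem_insert_self _ _), if_neg hv', Finsupp.single_eq_same]
                omega
              · rw [Finsupp.single_eq_of_ne hu]
                simp only [Finset.mem_insert, hu, false_or, Nat.sub_zero]
            rw [if_pos h3, h6]
        rw [h1, hd2]
        have h7 : strd c z τ = coeff (xe c τ) (z τ ()) := if_pos hcτ
        have h8 : xe c τ = m := by
          ext u
          rw [xe_apply, hc]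
          exact Nat.add_sub_cancel _ _
        rw [h7, h8]
      · rw [((hz τ).2.2 ()).coeff_eq_zero hm]
        refine Finset.sum_eq_zero fun v _ => ?_
        by_cases h2 : m v = 0
        · rw [if_pos h2]
        · rw [if_neg h2, hco, if_neg, mul_zero]
          intro h3
          have h4 : m - Finsupp.single v 1 + Finsupp.single v 1 = m := by
            refine tsub_add_cancel_of_le ?_
            rw [Finsupp.single_le_iff]
            omega
          have h5 := congrArg Finsupp.degree h4
          rw [map_add, Finsupp.degree_single, h3] at h5
          exact hm h5.symm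
  · intro hL c j hj a ha hba
    obtain ⟨e, he⟩ : ∃ e, e = ws c Finset.univ - j - 1 := ⟨_, rfl⟩
    obtain ⟨z, hzdef⟩ : ∃ z : Finset V → Unit → MvPolynomial V K, z = fun σ _ =>
        monomial (xe c σ) (a σ) := ⟨_, rfl⟩
    have hz : KCh (ofIdeal I) j (e + 1) z := by
      intro σ
      refine ⟨fun hc => ?_, ?_, fun u => ?_⟩
      · have : a σ = 0 := by
          by_contra h
          exact hc (ha σ h).2
        rw [hzdef]
        funext u
        simp only [this, map_zero]
        rfl
      · rw [mem_ofIdeal, hI, hzdef]
        intro m hm
        have h1 : a σ ≠ 0 := by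
          rintro h
          simp only [h, map_zero, support_zero] at hm
          exact absurd hm (Finset.notMem_empty _)
        have h2 : m = xe c σ := by
          rw [mem_support_iff, coeff_monomial] at hm
          by_contra h
          exact hm (if_neg fun h' => h h'.symm)
        rw [h2]
        exact (ha σ h1).1.2
      · rw [hzdef]
        by_cases h1 : a σ = 0
        · simp only [h1, map_zero]
          exact isHomogeneous_zero _ _ _
        · refine isHomogeneous_monomial _ ?_
          have h2 := ha σ h1
          have h3 := xe_degree h2.1.1
          rw [h2.2] at h3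
          omega
    have hk : kbd z = 0 := by
      funext τ u
      have hu : u = () := rfl
      subst hu
      ext m
      have h0 : coeff m ((0 : Finset V → Unit → MvPolynomial V K) τ ()) = 0 := coeff_zero m
      rw [coeff_kbd, h0]
      by_cases h1 : ∀ v ∈ τ, 1 ≤ c v
      · by_cases h2 : m = xe c τ
        · have h3 := congrFun hba τ
          have h3' : (0 : Finset V → K) τ = 0 := rfl
          rw [h3'] at h3
          refine Eq.trans ?_ h3
          unfold bd
          refine Finset.sum_congr rfl fun v hv => ?_
          have hv' : v ∉ τ := Finset.mem_compl.1 hv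
          have h4 : m v = c v := by rw [h2, xe_apply, if_neg hv', Nat.sub_zero]
          by_cases h5 : c v = 0
          · rw [h4, if_pos h5]
            have h6 : a (insert v τ) = 0 := by
              by_contra h7
              have h8 := (ha _ h7).1.1 v (Finset.mem_insert_self v τ)
              omega
            rw [h6, mul_zero]
          · rw [h4, if_neg h5]
            have h6 : xe c (insert v τ) = m - Finsupp.single v 1 := by
              rw [h2]
              ext u
              rw [Finsupp.tsub_apply, xe_apply, xe_apply]
              by_cases hu : u = v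
              · subst hu
                rw [if_pos (Finset.mem_insert_self _ _), if_neg hv', Finsupp.single_eq_same]
                rfl
              · rw [Finsupp.single_eq_of_ne hu]
                simp only [Finset.mem_insert, hu, false_or, Nat.sub_zero]
            rw [hzdef]
            simp only [coeff_monomial]
            rw [if_pos h6]
        · refine Finset.sum_eq_zero fun v hv => ?_
          have hv' : v ∉ τ := Finset.mem_compl.1 hv
          by_cases h5 : m v = 0
          · rw [if_pos h5]
          · rw [if_neg h5, hzdef]
            simp only [coeff_monomial]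
            by_cases h6 : xe c (insert v τ) = m - Finsupp.single v 1
            · rw [if_pos h6]
              have h7 : a (insert v τ) = 0 := by
                by_contra h8
                have h9 := (ha _ h8).1.1 v (Finset.mem_insert_self v τ)
                apply h2
                ext u
                have h10 := DFunLike.congr_fun h6 u
                rw [Finsupp.tsub_apply, xe_apply] at h10
                rw [xe_apply]
                by_cases hu : u = v
                · subst hu
                  rw [if_pos (Finset.mem_insert_self _ _), Finsupp.single_eq_same] at h10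
                  rw [if_neg hv']
                  omega
                · rw [Finsupp.single_eq_of_ne hu] at h10
                  simp only [Finset.mem_insert, hu, false_or, Nat.sub_zero] at h10
                  exact h10.symm
              rw [h7, mul_zero]
            · rw [if_neg h6, mul_zero]
      · refine Finset.sum_eq_zero fun v _ => ?_
        have h7 : a (insert v τ) = 0 := by
          by_contra h8
          exact h1 fun u hu => (ha _ h8).1.1 u (Finset.mem_insert_of_mem hu)
        split_ifs
        · rfl
        · rw [hzdef]
          simp only [h7, map_zero, coeff_zero, mul_zero]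
    obtain ⟨w, hw, hwz⟩ := hL j e (by omega) z hz hk
    refine ⟨strd c w, strd_isCh hI hw c, ?_⟩
    rw [strd_kbd, hwz]
    funext σ
    unfold strd
    rw [hzdef]
    simp only [coeff_monomial, if_true]
    split_ifs with h1
    · rfl
    · by_contra h2
      exact h1 (ha σ (Ne.symm h2)).1.1

end Pool.Agent.LIN
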