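import Pool.Agent.Helper23.LIN.RegStep
import Pool.Agent.Helper23.LIN.Main
import Pool.Agent.Helper75.RG.Rs
import Pool.Agent.Helper75.RG.Core

/-!
# Project LIN: the regularity of the powers of the edge ideal of a gapfree graph

`reg I(G)^q = max (2 q, reg I(G) + q - 1)`.
-/

set_option linter.unusedSectionVars false

namespace Pool.Agent.LIN

open MvPolynomial Pool.Agent.LQ Pool.Agent.LQ.T1 Pool.Agent.LR

section

variable {V : Type*} [Fintype V] [LinearOrder V] {K : Type*} [Field K]

theorem grdS_pow (G : SimpleGraph V) (q : ℕ) :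
    GrdS (ofIdeal (edgeIdeal K G ^ q)) (fun _ => 0) := by
  intro f hf e
  rw [mem_ofIdeal] at hf ⊢
  unfold cmp
  rw [if_pos (Nat.zero_le e), Nat.sub_zero]
  rw [Pool.Agent.RG.mem_pow_iff] at hf ⊢
  intro m hm
  rw [support_homogeneousComponent, Finset.mem_filter] at hm
  exact hf m hm.1

theorem homS_zero_iff {ι : Type*} {e : ℕ} {f : ι → MvPolynomial V K} :
    HomS (fun _ => 0) e f ↔ ∀ k, (f k).IsHomogeneous e := by
  constructor
  · intro h k
    exact (h k).1 (Nat.zero_le e)
  · intro h k
    exact ⟨fun _ => h k, fun h' => absurd h' (Nat.not_lt_zero e)⟩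

theorem lks_iff {J : Ideal (MvPolynomial V K)} {r : ℕ} :
    LKS (ofIdeal J) (fun _ => 0) r ↔ ∀ i, LinKosAt (ofIdeal J) r i := by
  have key : ∀ i e (z : Finset V → Unit → MvPolynomial V K),
      KChS (ofIdeal J) (fun _ => 0) i e z ↔ KCh (ofIdeal J) i e z := by
    intro i e z
    unfold KChS KCh
    simp only [homS_zero_iff]
  unfold LKS LinKosAt
  simp only [key]

/-- the regularity of `I(G)^q` in terms of the upper Koszul complexes -/
theorem regLE_pow_iff {G : SimpleGraph V} {q r : ℕ} :
    RegLE (edgeIdeal K G ^ q) r ↔ KFC K {m | MemP G q m} r := by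
  rw [strand (M := {m | MemP G q m}) (I := edgeIdeal K G ^ q) (Pool.Agent.RG.mem_pow_iff (q := q)) r]
  constructor
  · rintro ⟨b, deg, g, d, hJ, hg, hd, h0, h1, hdeg⟩
    exact Pool.Agent.RG.kos_of_res b deg g d hJ hg hd h0 h1 hdeg
  · intro h
    exact regLE_of_lks (grdS_pow G q) (lks_iff.2 h)

theorem kfc_large {G : SimpleGraph V} (hG : GF G) :
    KFC K {m | MemP G 1 m} (Fintype.card V + 2) := by
  rw [kfc_ind hG le_rfl (by omega)]
  intro W i hi
  refine ex_of_card fun σ _ hσ => ?_
  have := Finset.card_le_univ σ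
  omega

end

/-- the regularity of the powers of the edge ideal of a gapfree graph -/
theorem reg_pow_eq (K : Type*) [Field K] {V : Type*} [Fintype V] (G : SimpleGraph V) (hG : GF G)
    (hE : ∃ a b, G.Adj a b) {q : ℕ} (hq : 1 ≤ q) :
    reg (edgeIdeal K G ^ q) = max (2 * q) (reg (edgeIdeal K G) + q - 1) := by
  classical
  let _ : LinearOrder V := LinearOrder.lift' (Fintype.equivFin V) (Fintype.equivFin V).injective
  have e1 : ∀ r, RegLE (edgeIdeal K G) r ↔ KFC K {m | MemP G 1 m} r := by
    intro r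
    have := regLE_pow_iff (K := K) (G := G) (q := 1) (r := r)
    rwa [pow_one] at this
  set n := reg (edgeIdeal K G) with hn
  have hne : {r | RegLE (edgeIdeal K G) r}.Nonempty := ⟨_, (e1 _).2 (kfc_large hG)⟩
  have hmem : RegLE (edgeIdeal K G) n := Nat.sInf_mem hne
  have hiff : ∀ r, KFC K {m | MemP G 1 m} r ↔ n ≤ r := by
    intro r
    constructor
    · intro h
      exact Nat.sInf_le ((e1 r).2 h)
    · intro h
      exact kfc_mono h ((e1 n).1 hmem)
  have hset : {r | RegLE (edgeIdeal K G ^ q) r} = {r | 2 * q ≤ r ∧ n ≤ r + 1 - q} := by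
    ext r
    show RegLE (edgeIdeal K G ^ q) r ↔ 2 * q ≤ r ∧ n ≤ r + 1 - q
    rw [regLE_pow_iff]
    constructor
    · intro h
      have hr := Pool.Agent.RG.kfc_low hE h
      exact ⟨hr, (hiff _).1 ((reg_iff hG hq hr).1 h)⟩
    · rintro ⟨hr, h⟩
      exact (reg_iff hG hq hr).2 ((hiff _).2 h)
  unfold reg
  rw [hset]
  apply le_antisymm
  · apply Nat.sInf_le
    show 2 * q ≤ max (2 * q) (n + q - 1) ∧ n ≤ max (2 * q) (n + q - 1) + 1 - q
    refine ⟨le_max_left _ _, ?_⟩
    have := le_max_right (2 * q) (n + q - 1)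
    omega
  · have hne' : {r | 2 * q ≤ r ∧ n ≤ r + 1 - q}.Nonempty :=
      ⟨2 * q + n + q, by omega, by omega⟩
    obtain ⟨h1, h2⟩ := Nat.sInf_mem hne'
    refine max_le h1 ?_
    omega

/-- `I(G)^q` has a linear resolution iff `reg I(G)^q = 2 q` -/
theorem hlr_iff_reg (K : Type*) [Field K] {V : Type*} [Fintype V] (G : SimpleGraph V)
    (hE : ∃ a b, G.Adj a b) {q : ℕ} :
    HasLinearResolution (edgeIdeal K G ^ q) ↔ reg (edgeIdeal K G ^ q) = 2 * q := by
  classical
  let _ : LinearOrder V := LinearOrder.lift' (Fintype.equivFin V) (Fintype.equivFin V).injective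
  rw [hlr_iff_kfc hE]
  constructor
  · intro h
    apply le_antisymm
    · exact Nat.sInf_le (regLE_pow_iff.2 h)
    · have hne : {r | RegLE (edgeIdeal K G ^ q) r}.Nonempty := ⟨_, regLE_pow_iff.2 h⟩
      exact Pool.Agent.RG.kfc_low hE (regLE_pow_iff.1 (Nat.sInf_mem hne))
  · intro h
    rcases Set.eq_empty_or_nonempty {r | RegLE (edgeIdeal K G ^ q) r} with h1 | h1
    · unfold reg at h
      rw [h1, Nat.sInf_empty] at h
      have hq : q = 0 := by omega
      subst hq
      intro c j hc
      have e2 : KF {m : V → ℕ | MemP G 0 m} c = {σ | ∀ v ∈ σ, 1 ≤ c v} := by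
        ext σ
        constructor
        · exact fun h => h.1
        · exact fun h => ⟨h, 0, rfl, fun v => Nat.zero_le _⟩
      rw [e2]
      have : ∃ v, 1 ≤ c v := by
        by_contra hcon
        push Not at hcon
        have : ws c Finset.univ = 0 := Finset.sum_eq_zero fun v _ => by
          have := hcon v
          omega
        omega
      obtain ⟨v, hv⟩ := this
      refine ex_cone (X := {σ : Finset V | ∀ v ∈ σ, 1 ≤ c v}) v ?_ j
      intro σ hσ u hu
      rcases Finset.mem_insert.1 hu with rfl | hu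
      · exact hv
      · exact hσ u hu
    · have := Nat.sInf_mem h1
      have h2 : sInf {r | RegLE (edgeIdeal K G ^ q) r} = 2 * q := h
      rw [h2] at this
      exact regLE_pow_iff.1 this

end Pool.Agent.LIN
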