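import Pool.Agent.Helper23.LIN.Kosz
import Pool.Agent.Helper23.LIN.Reg

/-!
# Project LIN, block REGSTEP: graded free resolutions from Koszul homology

`ι → S` is graded with shifts `δ : ι → ℕ`: `f` is homogeneous of degree `e` if `f k` is homogeneous of degree
`e - δ k` (zero if `e < δ k`). If the Koszul homology of a graded submodule vanishes in the coefficient
degrees `> r`, it is generated in degrees `≤ r` and its syzygies have the same property for `r + 1`. Iteration gives
a graded free resolution.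
-/

set_option linter.unusedSectionVars false

namespace Pool.Agent.LIN

open MvPolynomial Pool.Agent.LQ Pool.Agent.LQ.T1 Pool.Agent.LR

section defs

variable {V : Type*} {K : Type*} [Field K] {ι : Type*}

/-- `f` is homogeneous of degree `e` for the shifts `δ` -/
def HomS (δ : ι → ℕ) (e : ℕ) (f : ι → MvPolynomial V K) : Prop :=
  ∀ k, (δ k ≤ e → (f k).IsHomogeneous (e - δ k)) ∧ (e < δ k → f k = 0)

/-- homogeneous component for the shifts `δ` -/
noncomputable def cmp (δ : ι → ℕ) (e : ℕ) (f : ι → MvPolynomial V K) : ι → MvPolynomial V K :=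
  fun k => if δ k ≤ e then homogeneousComponent (e - δ k) (f k) else 0

/-- graded submodules for the shifts `δ` -/
def GrdS (M : Submodule (MvPolynomial V K) (ι → MvPolynomial V K)) (δ : ι → ℕ) : Prop :=
  ∀ f ∈ M, ∀ e, cmp δ e f ∈ M

variable [Fintype V] [LinearOrder V]

/-- homogeneous Koszul chains for the shifts `δ` -/
def KChS (M : Submodule (MvPolynomial V K) (ι → MvPolynomial V K)) (δ : ι → ℕ) (i e : ℕ)
    (z : Finset V → ι → MvPolynomial V K) : Prop :=
  ∀ σ, (σ.card ≠ i → z σ = 0) ∧ z σ ∈ M ∧ HomS δ e (z σ)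

/-- the Koszul homology vanishes in the coefficient degrees `> r` -/
def LKS (M : Submodule (MvPolynomial V K) (ι → MvPolynomial V K)) (δ : ι → ℕ) (r : ℕ) : Prop :=
  ∀ i e, r ≤ e → ∀ z, KChS M δ i (e + 1) z → kbd z = 0 → ∃ w, KChS M δ (i + 1) e w ∧ kbd w = z

end defs

variable {V : Type*} [Fintype V] [LinearOrder V] {K : Type*} [Field K] {ι : Type*}

private theorem kbd_eq' (z : Finset V → ι → MvPolynomial V K) (τ : Finset V) :
    kbd z τ = ∑ v ∈ τᶜ, (C (sg K v τ) * X v) • z (insert v τ) := by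
  funext k
  unfold kbd
  rw [Finset.sum_apply]
  rfl

private theorem kbd_map' {κ : Type*}
    (φ : (ι → MvPolynomial V K) →ₗ[MvPolynomial V K] (κ → MvPolynomial V K))
    (z : Finset V → ι → MvPolynomial V K) :
    kbd (fun σ => φ (z σ)) = fun τ => φ (kbd z τ) := by
  funext τ
  rw [kbd_eq', kbd_eq', map_sum]
  refine Finset.sum_congr rfl fun v _ => ?_
  rw [map_smul]

private theorem kbd_sub'' (z w : Finset V → ι → MvPolynomial V K) :
    kbd (z - w) = kbd z - kbd w := by
  funext τ
  rw [Pi.sub_apply, kbd_eq', kbd_eq', kbd_eq', ← Finset.sum_sub_distrib]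
  refine Finset.sum_congr rfl fun v _ => ?_
  rw [Pi.sub_apply, smul_sub]

private theorem hc_mulS {p q : MvPolynomial V K} {d : ℕ} (hq : q.IsHomogeneous d) (e : ℕ) :
    homogeneousComponent (e + d) (p * q) = homogeneousComponent e p * q := by
  have h1 : ∀ i, homogeneousComponent (e + d) (homogeneousComponent i p * q)
      = if i = e then homogeneousComponent i p * q else 0 := by
    intro i
    have h2 : (homogeneousComponent i p * q).IsHomogeneous (i + d) :=
      (homogeneousComponent_isHomogeneous i p).mul hq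
    rw [homogeneousComponent_of_mem h2]
    by_cases h : i = e
    · subst h
      rw [if_pos rfl, if_pos rfl]
    · rw [if_neg h, if_neg (fun h' => h (by omega))]
  have h3 : homogeneousComponent (e + d) (p * q)
      = ∑ i ∈ Finset.range (p.totalDegree + 1),
        homogeneousComponent (e + d) (homogeneousComponent i p * q) := by
    rw [← map_sum, ← Finset.sum_mul, sum_homogeneousComponent]
  rw [h3, Finset.sum_congr rfl fun i _ => h1 i, Finset.sum_ite_eq']
  split_ifs with h
  · rfl
  · rw [homogeneousComponent_eq_zero, zero_mul]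
    rw [Finset.mem_range] at h
    omega

private theorem hc_mul_lowS {p q : MvPolynomial V K} {d : ℕ} (hq : q.IsHomogeneous d) {e : ℕ}
    (he : e < d) : homogeneousComponent e (p * q) = 0 := by
  have h1 : ∀ i, homogeneousComponent e (homogeneousComponent i p * q) = 0 := by
    intro i
    have h2 : (homogeneousComponent i p * q).IsHomogeneous (i + d) :=
      (homogeneousComponent_isHomogeneous i p).mul hq
    rw [homogeneousComponent_of_mem h2, if_neg (by omega)]
  have h3 : homogeneousComponent e (p * q)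
      = ∑ i ∈ Finset.range (p.totalDegree + 1),
        homogeneousComponent e (homogeneousComponent i p * q) := by
    rw [← map_sum, ← Finset.sum_mul, sum_homogeneousComponent]
  rw [h3, Finset.sum_congr rfl fun i _ => h1 i, Finset.sum_const_zero]

theorem HomS.zero (δ : ι → ℕ) (e : ℕ) : HomS δ e (0 : ι → MvPolynomial V K) :=
  fun _ => ⟨fun _ => isHomogeneous_zero _ _ _, fun _ => rfl⟩

theorem HomS.add {δ : ι → ℕ} {e : ℕ} {f g : ι → MvPolynomial V K} (hf : HomS δ e f)
    (hg : HomS δ e g) : HomS δ e (f + g) := by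
  intro k
  refine ⟨fun h => ((hf k).1 h).add ((hg k).1 h), fun h => ?_⟩
  rw [Pi.add_apply, (hf k).2 h, (hg k).2 h, add_zero]

theorem HomS.sub {δ : ι → ℕ} {e : ℕ} {f g : ι → MvPolynomial V K} (hf : HomS δ e f)
    (hg : HomS δ e g) : HomS δ e (f - g) := by
  intro k
  refine ⟨fun h => ((hf k).1 h).sub ((hg k).1 h), fun h => ?_⟩
  rw [Pi.sub_apply, (hf k).2 h, (hg k).2 h, sub_zero]

theorem HomS.sum {δ : ι → ℕ} {e : ℕ} {α : Type*} (s : Finset α) {f : α → ι → MvPolynomial V K}
    (hf : ∀ x ∈ s, HomS δ e (f x)) : HomS δ e (∑ x ∈ s, f x) := by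
  classical
  induction s using Finset.induction_on with
  | empty =>
    rw [Finset.sum_empty]
    exact HomS.zero δ e
  | insert a s ha ih =>
    rw [Finset.sum_insert ha]
    exact (hf a (Finset.mem_insert_self _ _)).add
      (ih (fun x hx => hf x (Finset.mem_insert_of_mem hx)))

theorem HomS.mul {δ : ι → ℕ} {e d : ℕ} {p : MvPolynomial V K} (hp : p.IsHomogeneous d)
    {f : ι → MvPolynomial V K} (hf : HomS δ e f) : HomS δ (e + d) (p • f) := by
  intro k
  rw [Pi.smul_apply, smul_eq_mul]
  by_cases h : δ k ≤ e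
  · refine ⟨fun _ => ?_, fun h' => absurd h' (by omega)⟩
    have := hp.mul ((hf k).1 h)
    have e1 : d + (e - δ k) = e + d - δ k := by omega
    rwa [e1] at this
  · rw [(hf k).2 (by omega), mul_zero]
    exact ⟨fun _ => isHomogeneous_zero _ _ _, fun _ => rfl⟩

theorem homS_cmp (δ : ι → ℕ) (e : ℕ) (f : ι → MvPolynomial V K) : HomS δ e (cmp δ e f) := by
  intro k
  unfold cmp
  refine ⟨fun h => ?_, fun h => ?_⟩
  · rw [if_pos h]
    exact homogeneousComponent_isHomogeneous _ _
  · rw [if_neg (by omega)]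

theorem cmp_eq {δ : ι → ℕ} {e : ℕ} {f : ι → MvPolynomial V K} (hf : HomS δ e f) : cmp δ e f = f := by
  funext k
  unfold cmp
  split_ifs with h
  · exact homogeneousComponent_eq_self ((hf k).1 h)
  · exact ((hf k).2 (by omega)).symm

/-- homogeneous components of a combination of homogeneous elements -/
theorem cmp_comb {n : ℕ} {δ : ι → ℕ} {g : Fin n → ι → MvPolynomial V K} {dg : Fin n → ℕ}
    (hg : ∀ k, HomS δ (dg k) (g k)) (e : ℕ) (v : Fin n → MvPolynomial V K) :
    cmp δ e (∑ k, v k • g k) = ∑ k, cmp dg e v k • g k := by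
  funext j
  rw [Finset.sum_apply]
  unfold cmp
  have h0 : (∑ k, v k • g k) j = ∑ k, v k * g k j := by
    rw [Finset.sum_apply]
    rfl
  rw [h0]
  split_ifs with h
  · rw [map_sum]
    refine Finset.sum_congr rfl fun k _ => ?_
    rw [Pi.smul_apply, smul_eq_mul]
    by_cases h1 : δ j ≤ dg k
    · have h2 := (hg k j).1 h1
      split_ifs with h3
      · have e1 : e - δ j = (e - dg k) + (dg k - δ j) := by omega
        rw [e1, hc_mulS h2]
      · rw [hc_mul_lowS h2 (by omega), zero_mul]
    · rw [(hg k j).2 (by omega), mul_zero, mul_zero, map_zero]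
  · symm
    refine Finset.sum_eq_zero fun k _ => ?_
    rw [Pi.smul_apply, smul_eq_mul]
    by_cases h1 : δ j ≤ dg k
    · rw [if_neg (by omega), zero_mul]
    · rw [(hg k j).2 (by omega), mul_zero]

theorem homS_comb {n : ℕ} {δ : ι → ℕ} {g : Fin n → ι → MvPolynomial V K} {dg : Fin n → ℕ}
    (hg : ∀ k, HomS δ (dg k) (g k)) {e : ℕ} {v : Fin n → MvPolynomial V K} (hv : HomS dg e v) :
    HomS δ e (∑ k, v k • g k) := by
  refine HomS.sum _ fun k _ => ?_
  by_cases h : dg k ≤ e
  · have := HomS.mul ((hv k).1 h) (hg k)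
    have e1 : dg k + (e - dg k) = e := by omega
    rwa [e1] at this
  · rw [(hv k).2 (by omega), zero_smul]
    exact HomS.zero _ _

theorem homS_kbd {δ : ι → ℕ} {e : ℕ} {z : Finset V → ι → MvPolynomial V K}
    (hz : ∀ σ, HomS δ e (z σ)) (τ : Finset V) : HomS δ (e + 1) (kbd z τ) := by
  rw [kbd_eq']
  refine HomS.sum _ fun v _ => ?_
  exact HomS.mul (isHomogeneous_C_mul_X _ _) (hz _)

theorem sum_cmp [Fintype ι] (δ : ι → ℕ) (f : ι → MvPolynomial V K) :
    ∃ N : ℕ, ∑ e ∈ Finset.range N, cmp δ e f = f := by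
  classical
  refine ⟨Finset.univ.sup (fun k => (f k).totalDegree + δ k) + 1, ?_⟩
  funext k
  rw [Finset.sum_apply]
  set N := Finset.univ.sup (fun k => (f k).totalDegree + δ k) + 1 with hN
  have hle : (f k).totalDegree + δ k + 1 ≤ N := by
    have : (f k).totalDegree + δ k ≤ Finset.univ.sup (fun k => (f k).totalDegree + δ k) :=
      Finset.le_sup (f := fun k => (f k).totalDegree + δ k) (Finset.mem_univ k)
    omega
  have h1 := sum_homogeneousComponent (f k)
  obtain ⟨m, hm⟩ : ∃ m, N = δ k + m := ⟨N - δ k, by omega⟩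
  rw [hm, Finset.sum_range_add]
  have h2 : ∑ e ∈ Finset.range (δ k), cmp δ e f k = 0 := by
    refine Finset.sum_eq_zero fun e he => ?_
    rw [Finset.mem_range] at he
    unfold cmp
    rw [if_neg (by omega)]
  rw [h2, zero_add]
  have h3 : ∀ e, cmp δ (δ k + e) f k = homogeneousComponent e (f k) := by
    intro e
    unfold cmp
    rw [if_pos (by omega), Nat.add_sub_cancel_left]
  rw [Finset.sum_congr rfl fun e _ => h3 e]
  conv_rhs => rw [← h1]
  symm
  refine Finset.sum_subset ?_ ?_
  · intro e he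
    rw [Finset.mem_range] at he ⊢
    omega
  · intro e _ he
    rw [Finset.mem_range, not_lt] at he
    exact homogeneousComponent_eq_zero _ _ (by omega)

/-- the Koszul complex of a free module with shifts is exact in high degrees -/
theorem kosz_exactS [Fintype ι] {δ : ι → ℕ} {i e : ℕ} (hδ : ∀ k, δ k ≤ e)
    {z : Finset V → ι → MvPolynomial V K} (hz : KChS ⊤ δ i (e + 1) z) (h : kbd z = 0) :
    ∃ w, KChS ⊤ δ (i + 1) e w ∧ kbd w = z := by
  have key : ∀ k : ι, ∃ w : Finset V → Unit → MvPolynomial V K, KCh ⊤ (i + 1) (e - δ k) w ∧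
      kbd w = fun σ _ => z σ k := by
    intro k
    refine kosz_exact ?_ ?_
    · intro σ
      refine ⟨fun hσ => ?_, Submodule.mem_top, fun _ => ?_⟩
      · funext _
        show z σ k = 0
        rw [(hz σ).1 hσ]
        rfl
      · have h1 := hδ k
        have := ((hz σ).2.2 k).1 (by omega)
        have e1 : e + 1 - δ k = e - δ k + 1 := by omega
        rwa [e1] at this
    · funext τ u
      have := congrFun (congrFun h τ) k
      exact this
  choose w hw1 hw2 using key
  refine ⟨fun σ k => w k σ (), ?_, ?_⟩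
  · intro σ
    refine ⟨fun hσ => ?_, Submodule.mem_top, fun k => ⟨fun _ => (hw1 k σ).2.2 (), fun hk => ?_⟩⟩
    · funext k
      show w k σ () = 0
      rw [(hw1 k σ).1 hσ]
      rfl
    · have := hδ k
      omega
  · funext τ k
    have := congrFun (congrFun (hw2 k) τ) ()
    exact this

/-- the homogeneous elements of degree `d` -/
def HdS (M : Submodule (MvPolynomial V K) (ι → MvPolynomial V K)) (δ : ι → ℕ) (d : ℕ) :
    Submodule K (ι → MvPolynomial V K) where
  carrier := {f | f ∈ M ∧ HomS δ d f}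
  add_mem' := by
    rintro f g ⟨hf1, hf2⟩ ⟨hg1, hg2⟩
    exact ⟨M.add_mem hf1 hg1, hf2.add hg2⟩
  zero_mem' := ⟨M.zero_mem, HomS.zero _ _⟩
  smul_mem' := by
    rintro c f ⟨hf1, hf2⟩
    have e1 : c • f = (C c : MvPolynomial V K) • f := by
      funext k
      rw [Pi.smul_apply, Pi.smul_apply, smul_eq_mul, MvPolynomial.smul_eq_C_mul]
    rw [e1]
    refine ⟨M.smul_mem _ hf1, ?_⟩
    have := HomS.mul (isHomogeneous_C V c) hf2
    rwa [add_zero] at this

theorem finite_HdS [Fintype ι] (M : Submodule (MvPolynomial V K) (ι → MvPolynomial V K))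
    (δ : ι → ℕ) (d : ℕ) : Module.Finite K (HdS M δ d) := by
  have : ∀ e, Module.Finite K (homogeneousSubmodule V K e) := fun e =>
    Module.Finite.iff_fg.2 (homogeneousSubmodule_fg V K e)
  let L : HdS M δ d →ₗ[K] (∀ k : ι, homogeneousSubmodule V K (d - δ k)) :=
    { toFun := fun f k => ⟨f.1 k, by
        rw [mem_homogeneousSubmodule]
        by_cases h : δ k ≤ d
        · exact (f.2.2 k).1 h
        · rw [(f.2.2 k).2 (by omega)]
          exact isHomogeneous_zero _ _ _⟩
      map_add' := fun f g => rfl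
      map_smul' := fun c f => rfl }
  have hL : Function.Injective L := by
    intro f g h
    apply Subtype.ext
    funext k
    have := congrFun h k
    exact congrArg Subtype.val this
  exact Module.Finite.of_injective L hL

theorem genS {M : Submodule (MvPolynomial V K) (ι → MvPolynomial V K)} {δ : ι → ℕ} {r : ℕ}
    (h : LKS M δ r) {n : ℕ} {g : Fin n → ι → MvPolynomial V K} {dg : Fin n → ℕ}
    (hg : ∀ e ≤ r, ∀ f ∈ M, HomS δ e f → ∃ v : Fin n → MvPolynomial V K,
      HomS dg e v ∧ ∑ k, v k • g k = f) :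
    ∀ (e : ℕ) (f : ι → MvPolynomial V K), f ∈ M → HomS δ e f →
      ∃ v : Fin n → MvPolynomial V K, HomS dg e v ∧ ∑ k, v k • g k = f := by
  intro e
  induction e with
  | zero => exact fun f hf hf' => hg 0 (Nat.zero_le _) f hf hf'
  | succ e ih =>
    intro f hf hf'
    by_cases her : e + 1 ≤ r
    · exact hg (e + 1) her f hf hf'
    classical
    obtain ⟨w, hw1, hw2⟩ := h 0 e (by omega)
      (fun σ => if σ = ∅ then f else 0) (by
        intro σ
        refine ⟨fun hσ => ?_, ?_, ?_⟩
        · exact if_neg (fun h0 => hσ (by rw [h0]; exact Finset.card_empty))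
        · show (if σ = ∅ then f else 0) ∈ M
          split_ifs
          · exact hf
          · exact M.zero_mem
        · show HomS δ (e + 1) (if σ = ∅ then f else 0)
          split_ifs
          · exact hf'
          · exact HomS.zero _ _) (by
        funext τ
        rw [kbd_eq']
        refine Finset.sum_eq_zero fun v _ => ?_
        rw [if_neg (Finset.insert_ne_empty v τ), smul_zero])
    have h1 : ∑ v ∈ (∅ : Finset V)ᶜ, (C (sg K v ∅) * X v) • w (insert v ∅) = f := by
      rw [← kbd_eq', hw2]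
      exact if_pos rfl
    choose u hu1 hu2 using fun v : V => ih (w (insert v ∅)) (hw1 _).2.1 (hw1 _).2.2
    refine ⟨∑ v ∈ (∅ : Finset V)ᶜ, (C (sg K v ∅) * X v : MvPolynomial V K) • u v, ?_, ?_⟩
    · exact HomS.sum _ fun v _ => HomS.mul (isHomogeneous_C_mul_X _ _) (hu1 v)
    · rw [← h1]
      simp only [Finset.sum_apply, Pi.smul_apply, Finset.sum_smul]
      rw [Finset.sum_comm]
      refine Finset.sum_congr rfl fun v _ => ?_
      rw [← hu2 v, Finset.smul_sum]
      refine Finset.sum_congr rfl fun k _ => ?_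
      rw [smul_eq_mul, smul_smul]

/-- one step of the resolution -/
theorem stepS [Fintype ι] {M : Submodule (MvPolynomial V K) (ι → MvPolynomial V K)} {δ : ι → ℕ}
    {r : ℕ} (hM : GrdS M δ) (h : LKS M δ r) :
    ∃ (n : ℕ) (g : Fin n → ι → MvPolynomial V K) (dg : Fin n → ℕ),
      (∀ k, dg k ≤ r) ∧ (∀ k, HomS δ (dg k) (g k)) ∧
      Submodule.span (MvPolynomial V K) (Set.range g) = M ∧ GrdS (syz g) dg ∧
      LKS (syz g) dg (r + 1) := by
  classical
  have := fun e => finite_HdS M δ e
  let J := Σ e : Fin (r + 1), Fin (Module.finrank K (HdS M δ e))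
  let b := fun e : Fin (r + 1) => Module.finBasis K (HdS M δ e)
  let n := Fintype.card J
  let eqv : J ≃ Fin n := Fintype.equivFin J
  let g : Fin n → ι → MvPolynomial V K := fun k => (b (eqv.symm k).1 (eqv.symm k).2).1
  let dg : Fin n → ℕ := fun k => (eqv.symm k).1
  have hdg : ∀ k, dg k ≤ r := fun k => Nat.lt_succ_iff.1 (eqv.symm k).1.2
  have hgH : ∀ k, HomS δ (dg k) (g k) := fun k => (b (eqv.symm k).1 (eqv.symm k).2).2.2
  have hgM : ∀ k, g k ∈ M := fun k => (b (eqv.symm k).1 (eqv.symm k).2).2.1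
  have hCsmul : ∀ (c : K) (f : ι → MvPolynomial V K), (C c : MvPolynomial V K) • f = c • f := by
    intro c f
    funext k
    rw [Pi.smul_apply, Pi.smul_apply, smul_eq_mul, MvPolynomial.smul_eq_C_mul]
  have hgJ : ∀ x : J, g (eqv x) = (b x.1 x.2).1 := by
    intro x
    show (b (eqv.symm (eqv x)).1 (eqv.symm (eqv x)).2).1 = _
    rw [Equiv.symm_apply_apply]
  have hdJ : ∀ x : J, dg (eqv x) = x.1 := by
    intro x
    show (((eqv.symm (eqv x)).1 : Fin (r + 1)) : ℕ) = _
    rw [Equiv.symm_apply_apply]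
  have hgen0 : ∀ e ≤ r, ∀ f ∈ M, HomS δ e f → ∃ v : Fin n → MvPolynomial V K,
      HomS dg e v ∧ ∑ k, v k • g k = f := by
    intro e he f hf hf'
    let e' : Fin (r + 1) := ⟨e, Nat.lt_succ_iff.2 he⟩
    let f' : HdS M δ e' := ⟨f, hf, hf'⟩
    refine ⟨∑ j, Pi.single (eqv ⟨e', j⟩) (C ((b e').repr f' j)), ?_, ?_⟩
    · refine HomS.sum _ fun j _ => ?_
      intro k
      by_cases hk : k = eqv ⟨e', j⟩
      · subst hk
        rw [Pi.single_eq_same, hdJ]
        refine ⟨fun _ => ?_, fun h' => absurd h' (lt_irrefl e)⟩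
        have e1 : e - ((⟨e', j⟩ : J).1 : ℕ) = 0 := Nat.sub_self e
        rw [e1]
        exact isHomogeneous_C _ _
      · rw [Pi.single_eq_of_ne hk]
        exact ⟨fun _ => isHomogeneous_zero _ _ _, fun _ => rfl⟩
    · have h1 := (b e').sum_repr f'
      have h2 := congrArg Subtype.val h1
      rw [Submodule.coe_sum] at h2
      refine Eq.trans ?_ h2
      simp only [Finset.sum_apply, Finset.sum_smul]
      rw [Finset.sum_comm]
      refine Finset.sum_congr rfl fun j _ => ?_
      rw [Finset.sum_eq_single (eqv ⟨e', j⟩)]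
      · rw [Pi.single_eq_same, hCsmul, hgJ, Submodule.coe_smul]
      · intro k _ hk
        rw [Pi.single_eq_of_ne hk, zero_smul]
      · exact fun h' => absurd (Finset.mem_univ _) h'
  have hgen := genS h hgen0
  have hφM : ∀ v : Fin n → MvPolynomial V K, ∑ k, v k • g k ∈ M := fun v =>
    M.sum_mem fun k _ => M.smul_mem _ (hgM k)
  refine ⟨n, g, dg, hdg, hgH, ?_, ?_, ?_⟩
  · apply le_antisymm
    · rw [Submodule.span_le]
      rintro _ ⟨k, rfl⟩
      exact hgM k
    · intro f hf
      obtain ⟨N, hN⟩ := sum_cmp δ f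
      rw [← hN]
      refine Submodule.sum_mem _ fun e _ => ?_
      obtain ⟨v, _, hv⟩ := hgen e _ (hM f hf e) (homS_cmp δ e f)
      rw [← hv]
      exact Submodule.sum_mem _ fun k _ =>
        Submodule.smul_mem _ _ (Submodule.subset_span ⟨k, rfl⟩)
  · intro v hv e
    rw [mem_syz] at hv ⊢
    rw [← cmp_comb hgH e v, hv]
    funext k
    unfold cmp
    split_ifs
    · exact map_zero _
    · rfl
  · intro i e he z hz hkz
    obtain ⟨e', rfl⟩ : ∃ e', e = e' + 1 := ⟨e - 1, by omega⟩
    let φ : (Fin n → MvPolynomial V K) →ₗ[MvPolynomial V K] (ι → MvPolynomial V K) :=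
      Fintype.linearCombination (MvPolynomial V K) g
    have hφ : ∀ v, φ v = ∑ k, v k • g k := fun v => Fintype.linearCombination_apply _ _ _
    obtain ⟨w, hw1, hw2⟩ := kosz_exactS (δ := dg) (e := e' + 1)
      (fun k => (hdg k).trans (by omega)) (z := z)
      (fun σ => ⟨(hz σ).1, Submodule.mem_top, (hz σ).2.2⟩) hkz
    obtain ⟨y, hy1, hy2⟩ := h (i + 1) e' (by omega) (fun σ => φ (w σ)) (by
      intro σ
      refine ⟨fun hσ => ?_, ?_, ?_⟩
      · show φ (w σ) = 0
        rw [(hw1 σ).1 hσ, map_zero]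
      · show φ (w σ) ∈ M
        rw [hφ]
        exact hφM _
      · show HomS δ (e' + 1) (φ (w σ))
        rw [hφ]
        exact homS_comb hgH (hw1 σ).2.2) (by
      rw [kbd_map', hw2]
      funext τ
      have := (hz τ).2.1
      rw [mem_syz] at this
      rw [hφ, this]
      rfl)
    choose y' hy'1 hy'2 using fun σ : Finset V => hgen e' (y σ) (hy1 σ).2.1 (hy1 σ).2.2
    let y'' : Finset V → Fin n → MvPolynomial V K := fun σ =>
      if σ.card = i + 1 + 1 then y' σ else 0
    have hy''1 : ∀ σ, HomS dg e' (y'' σ) := by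
      intro σ
      show HomS dg e' (if σ.card = i + 1 + 1 then y' σ else 0)
      split_ifs
      · exact hy'1 σ
      · exact HomS.zero _ _
    have hy''2 : ∀ σ, φ (y'' σ) = y σ := by
      intro σ
      show φ (if σ.card = i + 1 + 1 then y' σ else 0) = y σ
      split_ifs with hσ
      · rw [hφ, hy'2]
      · rw [map_zero, (hy1 σ).1 hσ]
    have hφk : ∀ τ, φ (kbd y'' τ) = φ (w τ) := by
      intro τ
      have h1 := congrFun (kbd_map' φ y'') τ
      have h2 : (fun σ => φ (y'' σ)) = y := funext hy''2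
      rw [h2, hy2] at h1
      exact h1.symm
    refine ⟨w - kbd y'', ?_, ?_⟩
    · intro σ
      refine ⟨fun hσ => ?_, ?_, ?_⟩
      · rw [Pi.sub_apply, (hw1 σ).1 hσ, zero_sub, neg_eq_zero, kbd_eq']
        refine Finset.sum_eq_zero fun v hv => ?_
        have : y'' (insert v σ) = 0 := by
          show (if (insert v σ).card = i + 1 + 1 then y' (insert v σ) else 0) = 0
          rw [if_neg]
          rw [Finset.card_insert_of_notMem (Finset.mem_compl.1 hv)]
          omega
        rw [this, smul_zero]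
      · rw [mem_syz, ← hφ, Pi.sub_apply, map_sub, hφk, sub_self]
      · rw [Pi.sub_apply]
        exact (hw1 σ).2.2.sub (homS_kbd hy''1 σ)
    · rw [kbd_sub'', kbd_kbd, sub_zero, hw2]

/-- a state of the iteration -/
structure St (V : Type*) [Fintype V] [LinearOrder V] (K : Type*) [Field K] (r i : ℕ) where
  /-- rank -/
  n : ℕ
  /-- shifts -/
  δ : Fin n → ℕ
  /-- syzygy module -/
  M : Submodule (MvPolynomial V K) (Fin n → MvPolynomial V K)
  hδ : ∀ k, δ k ≤ r + i
  hg : GrdS M δ
  hl : LKS M δ (r + i + 1)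

theorem exists_next {r i : ℕ} (s : St V K r i) :
    ∃ (t : St V K r (i + 1)) (A : Matrix (Fin s.n) (Fin t.n) (MvPolynomial V K)),
      (∀ j k, A j k = 0 ∨ (s.δ j ≤ t.δ k ∧ (A j k).IsHomogeneous (t.δ k - s.δ j))) ∧
      (∀ v, v ∈ s.M ↔ ∃ w, A.mulVec w = v) ∧ ∀ w, w ∈ t.M ↔ A.mulVec w = 0 := by
  obtain ⟨n, g, dg, h1, h2, h3, h4, h5⟩ := stepS s.hg s.hl
  have hA : ∀ w : Fin n → MvPolynomial V K,
      (Matrix.of fun j k => g k j : Matrix (Fin s.n) (Fin n) (MvPolynomial V K)).mulVec w =
        ∑ k, w k • g k := by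
    intro w
    funext j
    rw [Finset.sum_apply]
    unfold Matrix.mulVec dotProduct
    refine Finset.sum_congr rfl fun k _ => ?_
    exact mul_comm _ _
  refine ⟨⟨n, dg, syz g, fun k => (h1 k).trans (by omega), h4, by
    have e1 : r + (i + 1) + 1 = r + i + 1 + 1 := by omega
    rw [e1]
    exact h5⟩, Matrix.of fun j k => g k j, ?_, ?_, ?_⟩
  · intro j k
    rw [Matrix.of_apply]
    by_cases h : s.δ j ≤ dg k
    · exact Or.inr ⟨h, (h2 k j).1 h⟩
    · exact Or.inl ((h2 k j).2 (by omega))
  · intro v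
    rw [← h3, Submodule.mem_span_range_iff_exists_fun]
    constructor
    · rintro ⟨w, hw⟩
      exact ⟨w, by rw [hA, hw]⟩
    · rintro ⟨w, hw⟩
      exact ⟨w, by rw [← hw, hA]⟩
  · intro w
    rw [hA]
    exact mem_syz g w

/-- the states -/
noncomputable def sq {r : ℕ} (s0 : St V K r 0) : ∀ i, St V K r i
  | 0 => s0
  | i + 1 => (exists_next (sq s0 i)).choose

theorem sq_succ {r : ℕ} (s0 : St V K r 0) (i : ℕ) :
    sq s0 (i + 1) = (exists_next (sq s0 i)).choose := rfl

/-- a graded free resolution from the vanishing of the Koszul homology -/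
theorem regLE_of_lks {J : Ideal (MvPolynomial V K)} {r : ℕ} (hJ : GrdS (ofIdeal J) (fun _ => 0))
    (h : LKS (ofIdeal J) (fun _ => 0) r) : RegLE J r := by
  classical
  obtain ⟨n, g, dg, h1, h2, h3, h4, h5⟩ := stepS hJ h
  let s0 : St V K r 0 := ⟨n, dg, syz g, h1, h4, h5⟩
  have hA := fun i => (exists_next (sq s0 i)).choose_spec
  choose A hA1 hA2 hA3 using hA
  refine ⟨fun i => (sq s0 i).n, fun i => (sq s0 i).δ, fun k => g k (), A, ?_, ?_, ?_, ?_, ?_, ?_⟩
  · apply le_antisymm
    · rw [Ideal.span_le]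
      rintro _ ⟨k, rfl⟩
      have : g k ∈ ofIdeal J := by
        rw [← h3]
        exact Submodule.subset_span ⟨k, rfl⟩
      exact this
    · intro f hf
      have h6 : (fun _ : Unit => f) ∈ ofIdeal J := hf
      rw [← h3, Submodule.mem_span_range_iff_exists_fun] at h6
      obtain ⟨c, hc⟩ := h6
      have h7 := congrFun hc ()
      rw [Finset.sum_apply] at h7
      rw [← h7]
      refine Ideal.sum_mem _ fun k _ => ?_
      exact Ideal.mul_mem_left _ _ (Ideal.subset_span ⟨k, rfl⟩)
  · intro k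
    have := (h2 k ()).1 (Nat.zero_le _)
    exact this
  · exact hA1
  · intro v
    refine Iff.trans ?_ (hA2 0 v)
    refine Iff.trans ?_ (mem_syz g v).symm
    constructor
    · intro h6
      funext u
      rw [Finset.sum_apply]
      refine Eq.trans (Finset.sum_congr rfl fun k _ => ?_) h6
      rw [Pi.smul_apply, smul_eq_mul, mul_comm]
    · intro h6
      have h7 := congrFun h6 ()
      rw [Finset.sum_apply] at h7
      refine Eq.trans (Finset.sum_congr rfl fun k _ => ?_) h7
      rw [Pi.smul_apply, smul_eq_mul, mul_comm]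
  · intro i v
    exact (hA3 i v).symm.trans (hA2 (i + 1) v)
  · intro i k
    exact (sq s0 i).hδ k

end Pool.Agent.LIN
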