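import Pool.Agent.Helper23.LIN.Dl
import Pool.Agent.Helper23.LIN.MV

/-!
# Project LIN, block REM: removing vertices

`QQ K G a W` is the statement proved by induction on `W`.
`qq_of_pp`: induction on `S`: for `S = insert y S'` use `mv2` (`X = dv Y S'`, vertex `y`) with the induction
hypothesis for `S'` and `QQ` for `W_y = W \ insert y (nb {y})` with the set `S' ∩ W_y` and the bound
`m - dl G a W {y}` (`dl_insert`).
`pp_of_rem`: induction on `S` with `mv1`: for `S = insert y S'` the link of `y` in `dv Y S'` has by `QQ` for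
`W_y`, the set `S' ∩ W_y` and the bound `-1 - dl G a W {y} ≥ 0`, no homology at the indices
`≥ 1 - (t - dl {y}) + (-1 - dl {y}) = -t`.
-/

set_option linter.unusedSectionVars false

namespace Pool.Agent.LIN

open Pool.Agent.LQ Pool.Agent.LQ.T1

variable {V : Type*} [Fintype V] [LinearOrder V] {K : Type*} [Field K]

/-- the statement without deletions -/
def PP (K : Type*) [Field K] (G : SimpleGraph V) (a : V → ℕ) (W : Finset V) : Prop :=
  ∀ t : ℤ, Odd (t + ws a W) → ∀ i : ℕ, 1 - t ≤ i → Ex K (Y G a W t) i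

/-- the statement with deletions -/
def QQ (K : Type*) [Field K] (G : SimpleGraph V) (a : V → ℕ) (W : Finset V) : Prop :=
  ∀ t : ℤ, Odd (t + ws a W) → ∀ S ⊆ W, ∀ m : ℤ, (∀ U ⊆ S, Ind G U → dl G a W U ≤ m) →
    ∀ i : ℕ, 1 - t + m ≤ i → Ex K (dv (Y G a W t) S) i

theorem link_ssubset {G : SimpleGraph V} {W : Finset V} {y : V} (hy : y ∈ W) :
    W \ insert y (nb G {y}) ⊂ W := by
  rw [Finset.ssubset_iff_of_subset Finset.sdiff_subset]
  exact ⟨y, hy, fun h => (mem_link.1 h).2.1 rfl⟩

theorem link_parity {G : SimpleGraph V} {a : V → ℕ} {W : Finset V} {y : V} (hy : y ∈ W) {t : ℤ}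
    (ht : Odd (t + ws a W)) :
    Odd (t - dl G a W {y} + ws a (W \ insert y (nb G {y}))) := by
  rw [ws_link hy, dl_single]
  obtain ⟨k, hk⟩ := ht
  refine ⟨k - a y, ?_⟩
  linarith

/-- the homology of the links -/
theorem link_ex {G : SimpleGraph V} {a : V → ℕ} {W : Finset V} (ih : ∀ W' ⊂ W, QQ K G a W')
    {t : ℤ} (ht : Odd (t + ws a W)) {S : Finset V} (hS : S ⊆ W) {y : V} (hy : y ∈ W) (hyS : y ∉ S)
    {m : ℤ} (hm : ∀ U ⊆ S, y ∉ U → Ind G (insert y U) → dl G a W (insert y U) ≤ m) {i : ℕ}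
    (hi : 1 - t + m ≤ i) : Ex K (lk (dv (Y G a W t) S) y) i := by
  have _ := hS
  rw [lk_dv_Y hy t hyS]
  refine ih _ (link_ssubset hy) _ (link_parity hy ht) _ Finset.inter_subset_right
    (m - dl G a W {y}) ?_ i (by linarith)
  intro U hU hUi
  have h1 : U ⊆ W \ insert y (nb G {y}) := hU.trans Finset.inter_subset_right
  have h2 := dl_insert (a := a) hy h1 hUi
  have h3 := hm U (hU.trans Finset.inter_subset_left) (fun h => (sub_link_y h1 h).2.1 rfl)
    (ind_insert h1 hUi)
  linarith

theorem qq_of_pp {G : SimpleGraph V} {a : V → ℕ} {W : Finset V} (ih : ∀ W' ⊂ W, QQ K G a W')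
    (h : PP K G a W) : QQ K G a W := by
  intro t ht S
  induction S using Finset.induction_on with
  | empty =>
    intro _ m hm i hi
    have h0 := hm ∅ (Finset.Subset.refl _) (ind_empty G)
    rw [dl_empty] at h0
    rw [dv_empty]
    exact h t ht i (by linarith)
  | insert y S' hy ihS =>
    intro hS m hm i hi
    have hyW : y ∈ W := hS (Finset.mem_insert_self _ _)
    have hS' : S' ⊆ W := (Finset.subset_insert _ _).trans hS
    rw [← del_dv]
    refine mv2 (dv_lower (Y_lower G a W t) S') y ?_ ?_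
    · exact ihS hS' m (fun U hU hUi => hm U (hU.trans (Finset.subset_insert _ _)) hUi) i hi
    · refine link_ex ih ht hS' hyW hy (m := m) (fun U hU _ hUi => ?_) hi
      exact hm _ (Finset.insert_subset_insert _ hU) hUi

theorem pp_of_rem {G : SimpleGraph V} {a : V → ℕ} {W : Finset V} (ih : ∀ W' ⊂ W, QQ K G a W')
    {t : ℤ} (ht : Odd (t + ws a W)) {S : Finset V} (hS : S ⊆ W)
    (hm : ∀ U ⊆ S, U.Nonempty → Ind G U → dl G a W U ≤ -1)
    (h : ∀ i : ℕ, 1 - t ≤ i → Ex K (dv (Y G a W t) S) i) :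
    ∀ i : ℕ, 1 - t ≤ i → Ex K (Y G a W t) i := by
  induction S using Finset.induction_on with
  | empty =>
    rw [dv_empty] at h
    exact h
  | insert y S' hy ihS =>
    have hyW : y ∈ W := hS (Finset.mem_insert_self _ _)
    have hS' : S' ⊆ W := (Finset.subset_insert _ _).trans hS
    refine ihS hS' (fun U hU => hm U (hU.trans (Finset.subset_insert _ _))) ?_
    intro i hi
    refine mv1 (dv_lower (Y_lower G a W t) S') y ?_ ?_
    · rw [del_dv]
      exact h i hi
    · intro j hj
      refine link_ex ih ht hS' hyW hy (m := -1) (fun U hU _ hUi => ?_) ?_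
      · exact hm _ (Finset.insert_subset_insert _ hU) (Finset.insert_nonempty _ _) hUi
      · have : ((j : ℤ) + 1) = i := by exact_mod_cast hj
        linarith

end Pool.Agent.LIN
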