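import Pool.Agent.Helper23.LIN.Step2

/-!
# Project LIN, block STEP: one step of the linear resolution

`step`: `M_{e+1} = ∑ X_v M_e` for `e ≥ d` (`LinKosAt M d 0`: an element `f ∈ M` of degree `e + 1` is the `0`-chain at `∅`,
`kbd = 0`; `kbd w ∅ = ∑ v, ± X v * w {v}`). Let `g` be a `K`-basis of the space of the homogeneous elements of degree `d`
of `M` (finite dimensional). By induction on the degree, every homogeneous element of `M` is in the span of
`g`, with homogeneous coefficients; `M` is graded, so `span g = M`. Let `N = syz g`: it is graded. It has no nonzero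
element of degree `0` (linear independence). `LinKosAt N 1 i`: let `z` be a Koszul `i`-cycle of `N` of degree `e + 1`, `e ≥ 1`. By
`kosz_exact` `z = kbd w`, `w` a chain of `Fin n → S` of degree `e`. `φ w` (`φ v = ∑ v k • g k`) is a cycle of `M` of degree
`d + e = (d + e - 1) + 1`, so `φ w = kbd y`, `y` of degree `d + e - 1 = d + (e - 1)`, `y = φ y'` with `y'` homogeneous of degree
`e - 1`, and `w - kbd y'` is a chain of `N` with boundary `z`.
-/

set_option linter.unusedSectionVars false

namespace Pool.Agent.LIN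

open MvPolynomial Pool.Agent.LQ Pool.Agent.LQ.T1

variable {V : Type*} [Fintype V] [LinearOrder V] {K : Type*} [Field K] {ι : Type*} [Fintype ι]

omit [Fintype ι] in
private theorem kbd_eq (z : Finset V → ι → MvPolynomial V K) (τ : Finset V) :
    kbd z τ = ∑ v ∈ τᶜ, (C (sg K v τ) * X v) • z (insert v τ) := by
  funext k
  unfold kbd
  rw [Finset.sum_apply]
  rfl

omit [Fintype ι] in
private theorem kbd_map {κ : Type*}
    (φ : (ι → MvPolynomial V K) →ₗ[MvPolynomial V K] (κ → MvPolynomial V K))
    (z : Finset V → ι → MvPolynomial V K) :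
    kbd (fun σ => φ (z σ)) = fun τ => φ (kbd z τ) := by
  funext τ
  rw [kbd_eq, kbd_eq, map_sum]
  refine Finset.sum_congr rfl fun v _ => ?_
  rw [map_smul]

omit [Fintype ι] in
private theorem kbd_sub' (z w : Finset V → ι → MvPolynomial V K) :
    kbd (z - w) = kbd z - kbd w := by
  funext τ
  rw [Pi.sub_apply, kbd_eq, kbd_eq, kbd_eq, ← Finset.sum_sub_distrib]
  refine Finset.sum_congr rfl fun v _ => ?_
  rw [Pi.sub_apply, smul_sub]

private theorem hom_lin {n : ℕ} {g : Fin n → ι → MvPolynomial V K} {d : ℕ}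
    (hg : ∀ k j, (g k j).IsHomogeneous d) {v : Fin n → MvPolynomial V K} {e : ℕ}
    (hv : ∀ k, (v k).IsHomogeneous e) (j : ι) :
    ((∑ k, v k • g k) j).IsHomogeneous (d + e) := by
  rw [Finset.sum_apply]
  refine IsHomogeneous.sum _ _ _ fun k _ => ?_
  rw [Pi.smul_apply, smul_eq_mul, add_comm]
  exact (hv k).mul (hg k j)

private theorem hom_kbd {z : Finset V → ι → MvPolynomial V K} {e : ℕ}
    (hz : ∀ σ k, (z σ k).IsHomogeneous e) (τ : Finset V) (k : ι) :
    (kbd z τ k).IsHomogeneous (e + 1) := by
  unfold kbd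
  refine IsHomogeneous.sum _ _ _ fun v _ => ?_
  have h1 := ((isHomogeneous_C_mul_X (sg K v τ) v).mul (hz (insert v τ) k))
  rwa [add_comm] at h1

/-- the homogeneous elements of degree `d` -/
private def Hd (M : Submodule (MvPolynomial V K) (ι → MvPolynomial V K)) (d : ℕ) :
    Submodule K (ι → MvPolynomial V K) where
  carrier := {f | f ∈ M ∧ ∀ k, (f k).IsHomogeneous d}
  add_mem' := by
    rintro f g ⟨hf1, hf2⟩ ⟨hg1, hg2⟩
    exact ⟨M.add_mem hf1 hg1, fun k => (hf2 k).add (hg2 k)⟩
  zero_mem' := ⟨M.zero_mem, fun k => isHomogeneous_zero _ _ _⟩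
  smul_mem' := by
    rintro c f ⟨hf1, hf2⟩
    refine ⟨?_, fun k => ?_⟩
    · have : c • f = (C c : MvPolynomial V K) • f := by
        funext k
        rw [Pi.smul_apply, Pi.smul_apply, smul_eq_mul, MvPolynomial.smul_eq_C_mul]
      rw [this]
      exact M.smul_mem _ hf1
    · rw [Pi.smul_apply, MvPolynomial.smul_eq_C_mul]
      exact (hf2 k).C_mul c

private theorem mem_Hd {M : Submodule (MvPolynomial V K) (ι → MvPolynomial V K)} {d : ℕ}
    {f : ι → MvPolynomial V K} : f ∈ Hd M d ↔ f ∈ M ∧ ∀ k, (f k).IsHomogeneous d := Iff.rfl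

private theorem finite_Hd (M : Submodule (MvPolynomial V K) (ι → MvPolynomial V K)) (d : ℕ) :
    Module.Finite K (Hd M d) := by
  have : Module.Finite K (homogeneousSubmodule V K d) :=
    Module.Finite.iff_fg.2 (homogeneousSubmodule_fg V K d)
  let L : Hd M d →ₗ[K] (ι → homogeneousSubmodule V K d) :=
    { toFun := fun f k => ⟨f.1 k, (mem_homogeneousSubmodule _ _).2 (f.2.2 k)⟩
      map_add' := fun f g => rfl
      map_smul' := fun c f => rfl }
  have hL : Function.Injective L := by
    intro f g h
    apply Subtype.ext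
    funext k
    have := congrFun h k
    exact congrArg Subtype.val this
  exact Module.Finite.of_injective L hL

/-- every homogeneous element is a combination of the elements of degree `d` -/
private theorem gen {M : Submodule (MvPolynomial V K) (ι → MvPolynomial V K)} {d : ℕ}
    (h : LinKosAt M d 0) {n : ℕ} {g : Fin n → ι → MvPolynomial V K}
    (hg : ∀ f ∈ Hd M d, ∃ c : Fin n → K, ∑ k, (C (c k) : MvPolynomial V K) • g k = f) :
    ∀ (e : ℕ) (f : ι → MvPolynomial V K), f ∈ M → (∀ k, (f k).IsHomogeneous (d + e)) →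
      ∃ v : Fin n → MvPolynomial V K, (∀ k, (v k).IsHomogeneous e) ∧ ∑ k, v k • g k = f := by
  intro e
  induction e with
  | zero =>
    intro f hf hf'
    obtain ⟨c, hc⟩ := hg f ⟨hf, hf'⟩
    exact ⟨fun k => C (c k), fun k => isHomogeneous_C _ _, hc⟩
  | succ e ih =>
    intro f hf hf'
    classical
    obtain ⟨w, hw1, hw2⟩ := h (d + e) (Nat.le_add_right d e)
      (fun σ => if σ = ∅ then f else 0) (by
        intro σ
        refine ⟨fun hσ => ?_, ?_, fun k => ?_⟩
        · exact if_neg (fun h0 => hσ (by rw [h0]; exact Finset.card_empty))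
        · show (if σ = ∅ then f else 0) ∈ M
          split_ifs
          · exact hf
          · exact M.zero_mem
        · show ((if σ = ∅ then f else 0) k).IsHomogeneous _
          split_ifs
          · exact hf' k
          · exact isHomogeneous_zero _ _ _) (by
        funext τ
        rw [kbd_eq]
        refine Finset.sum_eq_zero fun v _ => ?_
        rw [if_neg (Finset.insert_ne_empty v τ), smul_zero])
    have h1 : ∑ v ∈ (∅ : Finset V)ᶜ, (C (sg K v ∅) * X v) • w (insert v ∅) = f := by
      rw [← kbd_eq, hw2]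
      exact if_pos rfl
    choose u hu1 hu2 using fun v : V => ih (w (insert v ∅)) (hw1 _).2.1 (hw1 _).2.2
    refine ⟨fun k => ∑ v ∈ (∅ : Finset V)ᶜ, (C (sg K v ∅) * X v) * u v k, fun k => ?_, ?_⟩
    · refine IsHomogeneous.sum _ _ _ fun v _ => ?_
      have := (isHomogeneous_C_mul_X (sg K v ∅) v).mul (hu1 v k)
      rwa [add_comm] at this
    · rw [← h1]
      simp only [Finset.sum_smul]
      rw [Finset.sum_comm]
      refine Finset.sum_congr rfl fun v _ => ?_
      rw [← hu2 v, Finset.smul_sum]
      refine Finset.sum_congr rfl fun k _ => ?_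
      rw [smul_smul]

private theorem sum_comp (f : ι → MvPolynomial V K) :
    ∃ N : ℕ, ∑ e ∈ Finset.range N, (fun k => homogeneousComponent e (f k)) = f := by
  classical
  refine ⟨Finset.univ.sup (fun k => (f k).totalDegree) + 1, ?_⟩
  funext k
  rw [Finset.sum_apply]
  have h1 := sum_homogeneousComponent (f k)
  conv_rhs => rw [← h1]
  symm
  refine Finset.sum_subset ?_ ?_
  · intro e he
    rw [Finset.mem_range] at he ⊢
    have : (f k).totalDegree ≤ Finset.univ.sup (fun k => (f k).totalDegree) :=
      Finset.le_sup (f := fun k => (f k).totalDegree) (Finset.mem_univ k)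
    omega
  · intro e _ he
    rw [Finset.mem_range, not_lt] at he
    exact homogeneousComponent_eq_zero _ _ (by omega)

theorem step {M : Submodule (MvPolynomial V K) (ι → MvPolynomial V K)} {d : ℕ} (hg : Grd M)
    (h : LinKos M d) : ∃ (n : ℕ) (g : Fin n → ι → MvPolynomial V K),
      (∀ k j, (g k j).IsHomogeneous d) ∧ Submodule.span (MvPolynomial V K) (Set.range g) = M ∧
      Grd (syz g) ∧ LinKos (syz g) 1 := by
  classical
  have := finite_Hd M d
  set n := Module.finrank K (Hd M d) with hn
  let b := Module.finBasis K (Hd M d)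
  let g : Fin n → ι → MvPolynomial V K := fun k => (b k).1
  have hgH : ∀ k j, (g k j).IsHomogeneous d := fun k j => (b k).2.2 j
  have hgM : ∀ k, g k ∈ M := fun k => (b k).2.1
  have hCsmul : ∀ (c : K) (f : ι → MvPolynomial V K), (C c : MvPolynomial V K) • f = c • f := by
    intro c f
    funext k
    rw [Pi.smul_apply, Pi.smul_apply, smul_eq_mul, MvPolynomial.smul_eq_C_mul]
  have hgen0 : ∀ f ∈ Hd M d, ∃ c : Fin n → K, ∑ k, (C (c k) : MvPolynomial V K) • g k = f := by
    intro f hf
    refine ⟨fun k => b.repr ⟨f, hf⟩ k, ?_⟩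
    have h1 := b.sum_repr ⟨f, hf⟩
    have h2 := congrArg Subtype.val h1
    rw [Submodule.coe_sum] at h2
    refine Eq.trans ?_ h2
    refine Finset.sum_congr rfl fun k _ => ?_
    rw [hCsmul, Submodule.coe_smul]
  have hgen := gen (h.2 0) hgen0
  have hlin : ∀ c : Fin n → K, ∑ k, (C (c k) : MvPolynomial V K) • g k = 0 → ∀ k, c k = 0 := by
    intro c hc
    have h1 : ∑ k, c k • b k = 0 := by
      apply Subtype.ext
      rw [Submodule.coe_sum]
      show _ = (0 : ι → MvPolynomial V K)
      rw [← hc]
      refine Finset.sum_congr rfl fun k _ => ?_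
      rw [hCsmul, Submodule.coe_smul]
    exact fun k => Fintype.linearIndependent_iff.1 b.linearIndependent c h1 k
  have hφM : ∀ v : Fin n → MvPolynomial V K, ∑ k, v k • g k ∈ M := fun v =>
    M.sum_mem fun k _ => M.smul_mem _ (hgM k)
  refine ⟨n, g, hgH, ?_, grd_syz hgH, ?_, ?_⟩
  · apply le_antisymm
    · rw [Submodule.span_le]
      rintro _ ⟨k, rfl⟩
      exact hgM k
    · intro f hf
      obtain ⟨N, hN⟩ := sum_comp f
      rw [← hN]
      refine Submodule.sum_mem _ fun e _ => ?_
      have hfe := hg f hf e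
      have hfe' : ∀ k, (homogeneousComponent e (f k)).IsHomogeneous e := fun k =>
        homogeneousComponent_isHomogeneous _ _
      by_cases he : e < d
      · have := h.1 e he _ hfe hfe'
        rw [this]
        exact Submodule.zero_mem _
      · obtain ⟨e', rfl⟩ := Nat.exists_eq_add_of_le (not_lt.1 he)
        obtain ⟨v, _, hv⟩ := hgen e' _ hfe hfe'
        rw [← hv]
        exact Submodule.sum_mem _ fun k _ =>
          Submodule.smul_mem _ _ (Submodule.subset_span ⟨k, rfl⟩)
  · intro e he v hv hv'
    have he0 : e = 0 := by omega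
    subst he0
    rw [mem_syz] at hv
    have hvC : ∀ k, v k = C (coeff 0 (v k)) := by
      intro k
      have := homogeneousComponent_eq_self (hv' k)
      rw [homogeneousComponent_zero] at this
      exact this.symm
    have := hlin (fun k => coeff 0 (v k)) (by
      rw [← hv]
      refine Finset.sum_congr rfl fun k _ => ?_
      rw [← hvC k])
    funext k
    rw [hvC k, this k, C_0]
    rfl
  · intro i e he z hz hkz
    obtain ⟨e', rfl⟩ : ∃ e', e = e' + 1 := ⟨e - 1, by omega⟩
    let φ : (Fin n → MvPolynomial V K) →ₗ[MvPolynomial V K] (ι → MvPolynomial V K) :=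
      Fintype.linearCombination (MvPolynomial V K) g
    have hφ : ∀ v, φ v = ∑ k, v k • g k := fun v => Fintype.linearCombination_apply _ _ _
    obtain ⟨w, hw1, hw2⟩ := kosz_exact (z := z) (fun σ => ⟨(hz σ).1, Submodule.mem_top, (hz σ).2.2⟩)
      hkz
    obtain ⟨y, hy1, hy2⟩ := h.2 (i + 1) (d + e') (Nat.le_add_right _ _) (fun σ => φ (w σ)) (by
      intro σ
      refine ⟨fun hσ => ?_, ?_, fun j => ?_⟩
      · show φ (w σ) = 0
        rw [(hw1 σ).1 hσ, map_zero]
      · show φ (w σ) ∈ M
        rw [hφ]
        exact hφM _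
      · show (φ (w σ) j).IsHomogeneous _
        rw [hφ]
        exact hom_lin hgH (hw1 σ).2.2 j) (by
      rw [kbd_map, hw2]
      funext τ
      have := (hz τ).2.1
      rw [mem_syz] at this
      rw [hφ, this]
      rfl)
    choose y' hy'1 hy'2 using fun σ : Finset V => hgen e' (y σ) (hy1 σ).2.1 (hy1 σ).2.2
    let y'' : Finset V → Fin n → MvPolynomial V K := fun σ =>
      if σ.card = i + 1 + 1 then y' σ else 0
    have hy''1 : ∀ σ k, (y'' σ k).IsHomogeneous e' := by
      intro σ k
      show ((if σ.card = i + 1 + 1 then y' σ else 0) k).IsHomogeneous e'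
      split_ifs
      · exact hy'1 σ k
      · exact isHomogeneous_zero _ _ _
    have hy''2 : ∀ σ, φ (y'' σ) = y σ := by
      intro σ
      show φ (if σ.card = i + 1 + 1 then y' σ else 0) = y σ
      split_ifs with hσ
      · rw [hφ, hy'2]
      · rw [map_zero, (hy1 σ).1 hσ]
    have hφk : ∀ τ, φ (kbd y'' τ) = φ (w τ) := by
      intro τ
      have h1 := congrFun (kbd_map φ y'') τ
      have h2 : (fun σ => φ (y'' σ)) = y := funext hy''2
      rw [h2, hy2] at h1
      exact h1.symm
    refine ⟨w - kbd y'', ?_, ?_⟩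
    · intro σ
      refine ⟨fun hσ => ?_, ?_, fun k => ?_⟩
      · rw [Pi.sub_apply, (hw1 σ).1 hσ, zero_sub, neg_eq_zero, kbd_eq]
        refine Finset.sum_eq_zero fun v hv => ?_
        have : y'' (insert v σ) = 0 := by
          show (if (insert v σ).card = i + 1 + 1 then y' (insert v σ) else 0) = 0
          rw [if_neg]
          rw [Finset.card_insert_of_notMem (Finset.mem_compl.1 hv)]
          omega
        rw [this, smul_zero]
      · rw [mem_syz, ← hφ, Pi.sub_apply, map_sub, hφk, sub_self]
      · rw [Pi.sub_apply, Pi.sub_apply]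
        exact ((hw1 σ).2.2 k).sub (hom_kbd hy''1 σ k)
    · rw [kbd_sub', kbd_kbd, sub_zero, hw2]

end Pool.Agent.LIN
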