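import Pool.Agent.Helper23.LIN.Kosz

/-!
# Project LIN, block STEP2: graded submodules, and from resolutions to Koszul homology

`grd_syz`, `grd_span`, `span_low`: homogeneous components of `∑ k, v k • g k`.

`conv`: let `M = span g`, `z` a Koszul `i`-cycle of `M` of degree `e + 1 = d + (e - d + 1)`. Lift `z = φ z'`, `z'` homogeneous of degree
`e - d + 1 ≥ 1` (homogeneous component of any lift). `kbd z'` is an `(i-1)`-cycle of `syz g` of degree `(e - d + 1) + 1` (if `i = 0` it is
zero). By hypothesis it is `kbd w`, `w` an `i`-chain of `syz g`; `z' - w` is a cycle of `Fin n → S` of degree `≥ 1`, so it is `kbd y`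
(`kosz_exact`) and `z = φ (z' - w) = kbd (φ y)`.
-/

set_option linter.unusedSectionVars false

namespace Pool.Agent.LIN

open MvPolynomial Pool.Agent.LQ Pool.Agent.LQ.T1

variable {V : Type*} [Fintype V] [LinearOrder V] {K : Type*} [Field K] {ι : Type*} [Fintype ι]

private lemma hc_mul {p q : MvPolynomial V K} {d : ℕ} (hq : q.IsHomogeneous d) (e : ℕ) :
    homogeneousComponent (e + d) (p * q) = homogeneousComponent e p * q := by
  have h1 : ∀ i, homogeneousComponent (e + d) (homogeneousComponent i p * q)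
      = if i = e then homogeneousComponent i p * q else 0 := by
    intro i
    have h2 : (homogeneousComponent i p * q).IsHomogeneous (i + d) :=
      (homogeneousComponent_isHomogeneous i p).mul hq
    rw [homogeneousComponent_of_mem h2]
    by_cases h : i = e
    · subst h
      rw [if_pos rfl, if_pos rfl]
    · rw [if_neg h, if_neg (fun h' => h (by omega))]
  have h3 : homogeneousComponent (e + d) (p * q)
      = ∑ i ∈ Finset.range (p.totalDegree + 1),
        homogeneousComponent (e + d) (homogeneousComponent i p * q) := by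
    rw [← map_sum, ← Finset.sum_mul, sum_homogeneousComponent]
  rw [h3, Finset.sum_congr rfl fun i _ => h1 i, Finset.sum_ite_eq']
  split_ifs with h
  · rfl
  · rw [homogeneousComponent_eq_zero, zero_mul]
    rw [Finset.mem_range] at h
    omega

private lemma hc_mul_low {p q : MvPolynomial V K} {d : ℕ} (hq : q.IsHomogeneous d) {e : ℕ}
    (he : e < d) : homogeneousComponent e (p * q) = 0 := by
  have h1 : ∀ i, homogeneousComponent e (homogeneousComponent i p * q) = 0 := by
    intro i
    have h2 : (homogeneousComponent i p * q).IsHomogeneous (i + d) :=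
      (homogeneousComponent_isHomogeneous i p).mul hq
    rw [homogeneousComponent_of_mem h2, if_neg (by omega)]
  have h3 : homogeneousComponent e (p * q)
      = ∑ i ∈ Finset.range (p.totalDegree + 1),
        homogeneousComponent e (homogeneousComponent i p * q) := by
    rw [← map_sum, ← Finset.sum_mul, sum_homogeneousComponent]
  rw [h3, Finset.sum_congr rfl fun i _ => h1 i, Finset.sum_const_zero]

private lemma mem_span_iff {n : ℕ} {g : Fin n → ι → MvPolynomial V K}
    {f : ι → MvPolynomial V K} :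
    f ∈ Submodule.span (MvPolynomial V K) (Set.range g) ↔ ∃ v : Fin n → MvPolynomial V K,
      ∑ k, v k • g k = f := by
  rw [Submodule.mem_span_range_iff_exists_fun]

private lemma comb_apply {n : ℕ} (g : Fin n → ι → MvPolynomial V K)
    (v : Fin n → MvPolynomial V K) (j : ι) : (∑ k, v k • g k) j = ∑ k, v k * g k j := by
  rw [Finset.sum_apply]
  rfl

private lemma hc_comb {n : ℕ} {g : Fin n → ι → MvPolynomial V K} {d : ℕ}
    (hg : ∀ k j, (g k j).IsHomogeneous d) (v : Fin n → MvPolynomial V K) (e : ℕ) (j : ι) :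
    homogeneousComponent (e + d) ((∑ k, v k • g k) j)
      = (∑ k, homogeneousComponent e (v k) • g k) j := by
  rw [comb_apply, map_sum, Finset.sum_apply]
  exact Finset.sum_congr rfl fun k _ => hc_mul (hg k j) e

private lemma hc_comb_low {n : ℕ} {g : Fin n → ι → MvPolynomial V K} {d : ℕ}
    (hg : ∀ k j, (g k j).IsHomogeneous d) (v : Fin n → MvPolynomial V K) {e : ℕ} (he : e < d)
    (j : ι) : homogeneousComponent e ((∑ k, v k • g k) j) = 0 := by
  rw [comb_apply, map_sum]
  exact Finset.sum_eq_zero fun k _ => hc_mul_low (hg k j) he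

theorem grd_syz {n : ℕ} {g : Fin n → ι → MvPolynomial V K} {d : ℕ}
    (hg : ∀ k j, (g k j).IsHomogeneous d) : Grd (syz g) := by
  intro f hf e
  rw [mem_syz] at hf ⊢
  funext j
  have h := hc_comb hg f e j
  rw [hf, Pi.zero_apply, map_zero] at h
  exact h.symm

theorem grd_span {n : ℕ} {g : Fin n → ι → MvPolynomial V K} {d : ℕ}
    (hg : ∀ k j, (g k j).IsHomogeneous d) : Grd (Submodule.span (MvPolynomial V K) (Set.range g)) := by
  intro f hf e
  rw [mem_span_iff] at hf
  obtain ⟨v, rfl⟩ := hf
  by_cases he : e < d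
  · have h : (fun k => homogeneousComponent e ((∑ k, v k • g k) k)) = 0 := by
      funext j
      exact hc_comb_low hg v he j
    rw [h]
    exact Submodule.zero_mem _
  · obtain ⟨e', rfl⟩ : ∃ e', e = e' + d := ⟨e - d, by omega⟩
    rw [mem_span_iff]
    refine ⟨fun k => homogeneousComponent e' (v k), ?_⟩
    funext j
    exact (hc_comb hg v e' j).symm

theorem span_low {n : ℕ} {g : Fin n → ι → MvPolynomial V K} {d : ℕ}
    (hg : ∀ k j, (g k j).IsHomogeneous d) : ∀ e < d,
      ∀ f ∈ Submodule.span (MvPolynomial V K) (Set.range g), (∀ k, (f k).IsHomogeneous e) → f = 0 := by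
  intro e he f hf hfe
  rw [mem_span_iff] at hf
  obtain ⟨v, rfl⟩ := hf
  funext j
  have h1 := hc_comb_low hg v he j
  rw [homogeneousComponent_eq_self (hfe j)] at h1
  exact h1

private lemma kbd_comb {n : ℕ} (g : Fin n → ι → MvPolynomial V K)
    (y : Finset V → Fin n → MvPolynomial V K) (τ : Finset V) :
    kbd (fun σ => ∑ k, y σ k • g k) τ = ∑ k, kbd y τ k • g k := by
  funext j
  rw [comb_apply]
  simp only [kbd, comb_apply, Finset.mul_sum, Finset.sum_mul]
  rw [Finset.sum_comm]
  refine Finset.sum_congr rfl fun k _ => Finset.sum_congr rfl fun v _ => ?_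
  ring

private lemma kbd_sub (y z : Finset V → ι → MvPolynomial V K) : kbd (y - z) = kbd y - kbd z := by
  funext τ k
  simp only [kbd, Pi.sub_apply, ← Finset.sum_sub_distrib, mul_sub]

private lemma kbd_isHom {y : Finset V → ι → MvPolynomial V K} {e : ℕ}
    (hy : ∀ σ k, (y σ k).IsHomogeneous e) (τ : Finset V) (k : ι) :
    (kbd y τ k).IsHomogeneous (e + 1) := by
  unfold kbd
  refine IsHomogeneous.sum _ _ _ fun v _ => ?_
  have h1 : (C (sg K v τ) * X v : MvPolynomial V K).IsHomogeneous (0 + 1) :=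
    (isHomogeneous_C _ _).mul (isHomogeneous_X _ _)
  have h2 := h1.mul (hy (insert v τ) k)
  rwa [zero_add, add_comm 1 e] at h2

theorem conv {n : ℕ} {g : Fin n → ι → MvPolynomial V K} {d : ℕ}
    (hg : ∀ k j, (g k j).IsHomogeneous d) {i : ℕ} (h : ∀ j, j + 1 = i → LinKosAt (syz g) 1 j) :
    LinKosAt (Submodule.span (MvPolynomial V K) (Set.range g)) d i := by
  intro e he z hz hkz
  obtain ⟨e1, rfl⟩ : ∃ e1, e = e1 + d := ⟨e - d, by omega⟩
  -- the lift
  have hlift : ∀ σ, ∃ y : Fin n → MvPolynomial V K, (σ.card ≠ i → y = 0) ∧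
      (∀ k, (y k).IsHomogeneous (e1 + 1)) ∧ ∑ k, y k • g k = z σ := by
    intro σ
    by_cases hσ : σ.card = i
    · obtain ⟨v, hv⟩ := mem_span_iff.1 (hz σ).2.1
      refine ⟨fun k => homogeneousComponent (e1 + 1) (v k), fun h => absurd hσ h,
        fun k => homogeneousComponent_isHomogeneous _ _, ?_⟩
      funext j
      have h1 := hc_comb hg v (e1 + 1) j
      rw [hv, show e1 + 1 + d = e1 + d + 1 by ring,
        homogeneousComponent_eq_self ((hz σ).2.2 j)] at h1
      exact h1.symm
    · refine ⟨0, fun _ => rfl, fun k => isHomogeneous_zero _ _ _, ?_⟩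
      rw [(hz σ).1 hσ]
      simp
  choose z' hz1 hz2 hz3 using hlift
  have hz'z : (fun σ => ∑ k, z' σ k • g k) = z := funext hz3
  have hzero : ∀ τ, ∑ k, kbd z' τ k • g k = 0 := by
    intro τ
    rw [← kbd_comb, hz'z, hkz]
    rfl
  have hcard : ∀ τ : Finset V, τ.card + 1 ≠ i → kbd z' τ = 0 := by
    intro τ hτ
    funext k
    unfold kbd
    refine Finset.sum_eq_zero fun v hv => ?_
    rw [Finset.mem_compl] at hv
    rw [hz1 (insert v τ) (by rw [Finset.card_insert_of_notMem hv]; exact hτ), Pi.zero_apply,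
      mul_zero]
  -- correction
  obtain ⟨w, hw1, hw2⟩ : ∃ w, KCh (syz g) i (e1 + 1) w ∧ kbd w = kbd z' := by
    rcases Nat.eq_zero_or_pos i with hi | hi
    · refine ⟨0, fun σ => ⟨fun _ => rfl, Submodule.zero_mem _, fun k => isHomogeneous_zero _ _ _⟩, ?_⟩
      have h1 : kbd z' = 0 := by
        funext τ
        exact hcard τ (by omega)
      rw [h1]
      funext τ k
      simp [kbd]
    · obtain ⟨j, rfl⟩ : ∃ j, i = j + 1 := ⟨i - 1, by omega⟩
      refine h j rfl (e1 + 1) (by omega) (kbd z') ?_ (kbd_kbd z')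
      intro τ
      refine ⟨fun hτ => hcard τ (by omega), ?_, fun k => kbd_isHom (fun σ k => hz2 σ k) τ k⟩
      rw [mem_syz]
      exact hzero τ
  have hch : KCh (⊤ : Submodule (MvPolynomial V K) (Fin n → MvPolynomial V K)) i (e1 + 1)
      (z' - w) := by
    intro σ
    refine ⟨fun hσ => ?_, Submodule.mem_top, fun k => ?_⟩
    · rw [Pi.sub_apply, hz1 σ hσ, (hw1 σ).1 hσ, sub_zero]
    · exact (hz2 σ k).sub ((hw1 σ).2.2 k)
  have hcy : kbd (z' - w) = 0 := by
    rw [kbd_sub, hw2, sub_self]
  obtain ⟨y, hy1, hy2⟩ := kosz_exact hch hcy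
  refine ⟨fun σ => ∑ k, y σ k • g k, ?_, ?_⟩
  · intro σ
    refine ⟨fun hσ => ?_, mem_span_iff.2 ⟨y σ, rfl⟩, fun j => ?_⟩
    · show ∑ k, y σ k • g k = 0
      rw [(hy1 σ).1 hσ]
      simp
    · show ((∑ k, y σ k • g k) j).IsHomogeneous (e1 + d)
      rw [comb_apply]
      exact IsHomogeneous.sum _ _ _ fun k _ => ((hy1 σ).2.2 k).mul (hg k j)
  · funext τ
    rw [kbd_comb, hy2]
    have h1 : ∑ k, w τ k • g k = 0 := (mem_syz g (w τ)).1 (hw1 τ).2.1
    rw [← hz3 τ]
    simp only [Pi.sub_apply, sub_smul, Finset.sum_sub_distrib, h1, sub_zero]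

end Pool.Agent.LIN
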