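import Pool.Agent.Helper23.LIN.CAm

/-!
# Project LIN, block TQ: the main theorem on the complexes `Y`

`qq`: strong induction on `W`; `qq_of_pp` reduces to `PP`. If some `x ∈ W` has no neighbour in `W`: `cone_of_iso`. Otherwise `caseA`
or `caseB`.
`tgen`: induction on `W` (cardinality): if all weights on `W` are `≥ 1` use `pp`. If some `x ∈ W` has `a x = 0` and
`ws a (nb G {x} ∩ W) ≥ 1`: `mv1` with `del (Y G a W t) x = Y G a (W.erase x) t` and `lk_Y`. Otherwise all the zero vertices
have no neighbour of positive weight. If two zero vertices of `W` are adjacent, then no two vertices of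
positive weight in `W` are adjacent (gapfree), so a vertex of positive weight is isolated in `G[W]` (there is one or
`Y` is empty, as `ws a W = 0` gives `t ≥ 1`). If not, the zero vertex is isolated in `G[W]`. An isolated vertex gives a cone.
-/

set_option linter.unusedSectionVars false

namespace Pool.Agent.LIN

open Pool.Agent.LQ Pool.Agent.LQ.T1

variable {V : Type*} [Fintype V] [LinearOrder V] {K : Type*} [Field K]

/-- the theorem for positive weights -/
theorem qq {G : SimpleGraph V} (hG : GF G) {a : V → ℕ} : ∀ W : Finset V, (∀ v ∈ W, 1 ≤ a v) →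
    QQ K G a W := by
  intro W
  induction W using Finset.strongInduction with
  | H W ih =>
    intro ha
    have ih' : ∀ W' ⊂ W, QQ K G a W' := fun W' h => ih W' h fun v hv => ha v (h.1 hv)
    refine qq_of_pp ih' ?_
    by_cases hiso : ∀ x ∈ W, ∃ y ∈ W, G.Adj x y
    · by_cases h : ∃ J ⊆ W, J.Nonempty ∧ Ind G J ∧ 0 ≤ dl G a W J
      · exact caseA hG ha ih' hiso h
      · refine caseB ih' fun J hJ hJn hJi => ?_
        by_contra h1
        exact h ⟨J, hJ, hJn, hJi, by omega⟩
    · push Not at hiso
      obtain ⟨x, hx, hxy⟩ := hiso
      intro t _ i _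
      exact cone_of_iso hx hxy t i

/-- a vertex of weight zero can be removed from a facet -/
private theorem del_zero5 {G : SimpleGraph V} {a : V → ℕ} {W : Finset V} {x : V} (hx : x ∈ W)
    (h0 : a x = 0) (t : ℤ) : del (Y G a W t) x = Y G a (W.erase x) t := by
  have hws : ∀ S : Finset V, ws a (S.erase x) = ws a S := by
    intro S
    by_cases hxS : x ∈ S
    · have h1 := Finset.add_sum_erase S a hxS
      unfold ws
      rw [← h1, h0, zero_add]
    · rw [Finset.erase_eq_of_notMem hxS]
  have hinter : ∀ S : Finset V, S ∩ W.erase x = (S ∩ W).erase x := by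
    intro S
    ext v
    simp only [Finset.mem_inter, Finset.mem_erase]
    tauto
  ext F
  constructor
  · rintro ⟨hxF, F', h1, h2, h3, h4⟩
    refine ⟨F'.erase x, ?_, Finset.erase_subset_erase x h2, h3.subset (Finset.erase_subset _ _), ?_⟩
    · intro v hv
      rw [Finset.mem_erase]
      exact ⟨fun h => hxF (h ▸ hv), h1 hv⟩
    · refine h4.trans ?_
      unfold dl
      rw [hws, hinter, hws]
      have h5 : ws a (nb G (F'.erase x) ∩ W) ≤ ws a (nb G F' ∩ W) :=
        ws_mono_set a (Finset.inter_subset_inter_right (nb_mono (Finset.erase_subset _ _)))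
      omega
  · rintro ⟨F', h1, h2, h3, h4⟩
    refine ⟨fun h => Finset.notMem_erase x W (h2 (h1 h)), F', h1, h2.trans (Finset.erase_subset _ _),
      h3, h4.trans (le_of_eq ?_)⟩
    unfold dl
    rw [hinter, hws]

/-- the theorem for all weights -/
theorem tgen {G : SimpleGraph V} (hG : GF G) {a : V → ℕ} (W : Finset V) (t : ℤ)
    (ht : Odd (t + ws a W)) (htp : -(ws a W : ℤ) < t) (i : ℕ) (hi : 1 - t ≤ i) :
    Ex K (Y G a W t) i := by
  induction W using Finset.strongInduction generalizing t i with
  | H W ih =>
    by_cases ha : ∀ v ∈ W, 1 ≤ a v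
    · have h1 := qq (K := K) hG W ha t ht ∅ (Finset.empty_subset _) 0 (fun U hU _ => by
        rw [Finset.subset_empty.1 hU, dl_empty]) i (by omega)
      rwa [dv_empty] at h1
    · push Not at ha
      by_cases h2 : ∃ x ∈ W, a x = 0 ∧ 1 ≤ ws a (nb G {x} ∩ W)
      · obtain ⟨x, hx, hx0, hxn⟩ := h2
        have e1 : ws a (W.erase x) = ws a W := by
          have h1 := Finset.add_sum_erase W a hx
          unfold ws
          rw [← h1, hx0, zero_add]
        refine mv1 (Y_lower G a W t) x ?_ ?_
        · rw [del_zero5 hx hx0]
          exact ih _ (Finset.erase_ssubset hx) t (by rw [e1]; exact ht) (by rw [e1]; exact htp) i hi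
        · intro j hj
          rw [lk_Y hx]
          have e2 := ws_link (G := G) (a := a) hx
          have e3 := dl_single (G := G) (a := a) (W := W) x
          refine ih _ (link_ssubset hx) _ (link_parity hx ht) ?_ j ?_
          · rw [e2, e3, hx0]
            push_cast
            linarith
          · rw [e3, hx0]
            have e4 : (1 : ℤ) ≤ ws a (nb G {x} ∩ W) := by exact_mod_cast hxn
            have e5 : ((j : ℤ) + 1) = i := by exact_mod_cast hj
            push_cast
            linarith
      · -- the neighbours of a zero vertex are zero vertices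
        have h3 : ∀ x ∈ W, a x = 0 → ∀ y ∈ W, G.Adj x y → a y = 0 := by
          intro x hx hx0 y hy hxy
          by_contra h4
          refine h2 ⟨x, hx, hx0, ?_⟩
          have h5 : y ∈ nb G {x} ∩ W :=
            Finset.mem_inter.2 ⟨mem_nb.2 ⟨x, Finset.mem_singleton_self x, hxy⟩, hy⟩
          have h6 : a y ≤ ws a (nb G {x} ∩ W) := Finset.single_le_sum (fun _ _ => Nat.zero_le _) h5
          omega
        obtain ⟨x, hx, hx1⟩ := ha
        have hx0 : a x = 0 := by omega
        by_cases h4 : ∀ y ∈ W, ¬ G.Adj x y
        · exact cone_of_iso hx h4 t i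
        · push Not at h4
          obtain ⟨y, hy, hxy⟩ := h4
          have hy0 := h3 x hx hx0 y hy hxy
          by_cases h5 : ∃ u ∈ W, 1 ≤ a u
          · obtain ⟨u, hu, hu1⟩ := h5
            refine cone_of_iso hu (fun v hv huv => ?_) t i
            have hv1 : a v ≠ 0 := fun h => by
              have := h3 v hv h u hu huv.symm
              omega
            rcases hG x y u v hxy huv with h | h | h | h
            · have := h3 x hx hx0 u hu h
              omega
            · exact hv1 (h3 x hx hx0 v hv h)
            · have := h3 y hy hy0 u hu h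
              omega
            · exact hv1 (h3 y hy hy0 v hv h)
          · push Not at h5
            have h6 : ws a W = 0 := Finset.sum_eq_zero fun v hv => by
              have := h5 v hv
              omega
            refine ex_of_card fun σ hσ => ?_
            obtain ⟨F', _, h8, _, h9⟩ := hσ
            exfalso
            have h10 : ws a F' ≤ ws a W := ws_mono_set a h8
            unfold dl at h9
            rw [h6] at htp h10
            omega

end Pool.Agent.LIN
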